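import Pool.Agent.Helper94.UR.Two

/-!
# The unbounded component and vertical lines
-/

set_option autoImplicit false

namespace Pool.Agent.Helper94.UR

open Pool.Agent.Helper20.Flip Pool.Agent.Helper97.UDP Topology

variable {n : ℕ} {V : ZMod n → Pt}

private theorem neZero_of_simple (hV : IsSimple V) : NeZero n := ⟨by have := hV.1; omega⟩

private theorem curve_bdd (hV : IsSimple V) : ∃ R : ℝ, 0 ≤ R ∧ ∀ p ∈ curve V, ‖p‖ ≤ R := by
  have := neZero_of_simple hV
  refine ⟨∑ i, ‖V i‖, Finset.sum_nonneg fun i _ => norm_nonneg _, ?_⟩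
  rintro p ⟨i, hi⟩
  have h1 : ∀ j, V j ∈ Metric.closedBall (0 : Pt) (∑ i, ‖V i‖) := by
    intro j
    rw [mem_closedBall_zero_iff]
    exact Finset.single_le_sum (f := fun i => ‖V i‖) (fun i _ => norm_nonneg _)
      (Finset.mem_univ j)
  have h2 := (convex_closedBall (0 : Pt) (∑ i, ‖V i‖)).segment_subset (h1 i) (h1 (i + 1)) hi
  rwa [mem_closedBall_zero_iff] at h2

private theorem outer_preconnected {R : ℝ} (hR : 0 ≤ R) : IsPreconnected {x : Pt | R < ‖x‖} := by
  have e : {x : Pt | R < ‖x‖} =
      (({x : Pt | R < x.1} ∪ {x : Pt | R < x.2}) ∪ {x : Pt | x.1 < -R}) ∪ {x : Pt | x.2 < -R} := by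
    ext x
    simp only [Set.mem_setOf_eq, Set.mem_union, Prod.norm_def, lt_max_iff, Real.norm_eq_abs,
      lt_abs]
    constructor
    · rintro ((h | h) | (h | h))
      · exact Or.inl (Or.inl (Or.inl h))
      · exact Or.inl (Or.inr (by linarith))
      · exact Or.inl (Or.inl (Or.inr h))
      · exact Or.inr (by linarith)
    · rintro (((h | h) | h) | h)
      · exact Or.inl (Or.inl h)
      · exact Or.inr (Or.inl h)
      · exact Or.inl (Or.inr (by linarith))
      · exact Or.inr (Or.inr (by linarith))
  have c1 : IsPreconnected {x : Pt | R < x.1} := by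
    apply Convex.isPreconnected
    exact convex_halfSpace_gt (LinearMap.fst ℝ ℝ ℝ).isLinear R
  have c2 : IsPreconnected {x : Pt | R < x.2} := by
    apply Convex.isPreconnected
    exact convex_halfSpace_gt (LinearMap.snd ℝ ℝ ℝ).isLinear R
  have c3 : IsPreconnected {x : Pt | x.1 < -R} := by
    apply Convex.isPreconnected
    exact convex_halfSpace_lt (LinearMap.fst ℝ ℝ ℝ).isLinear (-R)
  have c4 : IsPreconnected {x : Pt | x.2 < -R} := by
    apply Convex.isPreconnected
    exact convex_halfSpace_lt (LinearMap.snd ℝ ℝ ℝ).isLinear (-R)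
  rw [e]
  have d1 : IsPreconnected ({x : Pt | R < x.1} ∪ {x : Pt | R < x.2}) :=
    IsPreconnected.union ((R + 1, R + 1) : Pt) (by show R < R + 1; linarith)
      (by show R < R + 1; linarith) c1 c2
  have d2 : IsPreconnected (({x : Pt | R < x.1} ∪ {x : Pt | R < x.2}) ∪ {x : Pt | x.1 < -R}) :=
    IsPreconnected.union ((-R - 1, R + 1) : Pt) (Or.inr (by show R < R + 1; linarith))
      (by show -R - 1 < -R; linarith) d1 c3
  exact IsPreconnected.union ((R + 1, -R - 1) : Pt)
    (Or.inl (Or.inl (by show R < R + 1; linarith)))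
    (by show -R - 1 < -R; linarith) d2 c4

/-- two points outside of the region are in the same component of the complement -/
theorem same_outer (hV : IsSimple V) {p q : Pt} (hp : p ∉ region V) (hq : q ∉ region V) :
    q ∈ connectedComponentIn (curve V)ᶜ p := by
  obtain ⟨R, hR, hb⟩ := curve_bdd hV
  have hO := outer_preconnected hR
  have hOC : {x : Pt | R < ‖x‖} ⊆ (curve V)ᶜ := fun x hx hxc => absurd (hb x hxc) (not_le.2 hx)
  have key : ∀ p : Pt, p ∉ region V → ∃ x : Pt, R < ‖x‖ ∧
      connectedComponentIn (curve V)ᶜ p = connectedComponentIn (curve V)ᶜ x := by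
    intro p hp
    have hpC : p ∉ curve V := fun h => hp (Or.inl h)
    by_contra hcon
    push Not at hcon
    apply hp
    right
    refine (Metric.isBounded_closedBall (x := (0 : Pt)) (r := R)).subset ?_
    intro x hx
    rw [mem_closedBall_zero_iff]
    by_contra hxR
    exact hcon x (not_le.1 hxR) (connectedComponentIn_eq hx)
  obtain ⟨x, hx, hpx⟩ := key p hp
  obtain ⟨y, hy, hqy⟩ := key q hq
  have h1 : y ∈ connectedComponentIn (curve V)ᶜ x := hO.subset_connectedComponentIn hx hOC hy
  have h2 := connectedComponentIn_eq h1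
  rw [hpx, h2, ← hqy]
  exact mem_connectedComponentIn fun h => hq (Or.inl h)

/-- on a vertical line which contains no vertex, the curve consists of the points with the heights
of the edges that cross it -/
theorem mem_curve_iff (hV : IsSimple V) {p : Pt} (hg : Gen V p) :
    p ∈ curve V ↔ ∃ i, (((V i).1 < p.1 ∧ p.1 < (V (i + 1)).1) ∨
      ((V (i + 1)).1 < p.1 ∧ p.1 < (V i).1)) ∧ p.2 = hgt V i p.1 := by
  constructor
  · rintro ⟨i, a, b, ha, hb, hab, hp⟩
    refine ⟨i, ?_⟩
    have hp1 : p.1 = (V i).1 + b * ((V (i + 1)).1 - (V i).1) := by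
      rw [← hp]
      have : a = 1 - b := by linarith
      subst this
      simp only [Prod.fst_add, Prod.smul_fst, smul_eq_mul]
      ring
    have hp2 : p.2 = (V i).2 + b * ((V (i + 1)).2 - (V i).2) := by
      rw [← hp]
      have : a = 1 - b := by linarith
      subst this
      simp only [Prod.snd_add, Prod.smul_snd, smul_eq_mul]
      ring
    have hne : (V (i + 1)).1 - (V i).1 ≠ 0 := by
      intro h
      apply hg i
      rw [hp1, h, mul_zero, add_zero]
    have hb0 : 0 < b := by
      rcases eq_or_lt_of_le hb with h | h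
      · exfalso
        apply hg i
        rw [hp1, ← h, zero_mul, add_zero]
      · exact h
    have hb1 : b < 1 := by
      rcases eq_or_lt_of_le (show b ≤ 1 by linarith) with h | h
      · exfalso
        apply hg (i + 1)
        rw [hp1, h, one_mul]
        ring
      · exact h
    constructor
    · rcases lt_or_gt_of_ne hne with h | h
      · right
        constructor <;> nlinarith
      · left
        constructor <;> nlinarith
    · rw [hp2]
      unfold hgt
      have : p.1 - (V i).1 = b * ((V (i + 1)).1 - (V i).1) := by rw [hp1]; ring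
      rw [this]
      field_simp
  · rintro ⟨i, hi, hh⟩
    refine ⟨i, ?_⟩
    have hne : (V (i + 1)).1 - (V i).1 ≠ 0 := by
      rcases hi with h | h
      · have := h.1.trans h.2
        linarith
      · have := h.1.trans h.2
        linarith
    set t := (p.1 - (V i).1) / ((V (i + 1)).1 - (V i).1) with ht
    have ht1 : t * ((V (i + 1)).1 - (V i).1) = p.1 - (V i).1 := by
      rw [ht]
      field_simp
    have ht0 : 0 ≤ t ∧ t ≤ 1 := by
      rcases hi with h | h
      · have h3 : 0 < (V (i + 1)).1 - (V i).1 := by linarith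
        rw [ht]
        constructor
        · exact div_nonneg (by linarith) h3.le
        · rw [div_le_one h3]
          linarith
      · have h3 : (V (i + 1)).1 - (V i).1 < 0 := by linarith
        rw [ht]
        constructor
        · exact div_nonneg_of_nonpos (by linarith) h3.le
        · rw [div_le_one_of_neg h3]
          linarith
    refine ⟨1 - t, t, by linarith, by linarith, by ring, ?_⟩
    apply Prod.ext
    · simp only [Prod.fst_add, Prod.smul_fst, smul_eq_mul]
      linarith
    · simp only [Prod.snd_add, Prod.smul_snd, smul_eq_mul]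
      rw [hh]
      unfold hgt
      rw [← ht1]
      field_simp
      ring

/-- a point with no edge above it is outside -/
theorem outer_of_no_above (hV : IsSimple V) {p : Pt} (hp : p ∉ curve V) (hg : Gen V p)
    (h : ∀ e, ¬ Above V e p) : p ∉ region V := by
  rintro (hr | hr)
  · exact hp hr
  · have hconv : IsPreconnected {x : Pt | x.1 = p.1 ∧ p.2 ≤ x.2} := by
      apply Convex.isPreconnected
      rintro x ⟨hx1, hx2⟩ y ⟨hy1, hy2⟩ a b ha hb hab
      constructor
      · simp only [Prod.fst_add, Prod.smul_fst, smul_eq_mul, hx1, hy1]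
        rw [← add_mul, hab, one_mul]
      · simp only [Prod.snd_add, Prod.smul_snd, smul_eq_mul]
        have : a = 1 - b := by linarith
        subst this
        nlinarith
    have hsub : {x : Pt | x.1 = p.1 ∧ p.2 ≤ x.2} ⊆ (curve V)ᶜ := by
      rintro x ⟨hx1, hx2⟩ hxc
      have hgx : Gen V x := by
        intro i
        rw [hx1]
        exact hg i
      obtain ⟨i, hi, hh⟩ := (mem_curve_iff hV hgx).1 hxc
      rw [hx1] at hi hh
      rcases eq_or_lt_of_le hx2 with h0 | h0
      · apply hp
        have : x = p := Prod.ext hx1 h0.symm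
        rwa [this] at hxc
      · exact h i ⟨hi, by rw [← hh]; exact h0⟩
    have h1 := hconv.subset_connectedComponentIn (show p ∈ {x : Pt | x.1 = p.1 ∧ p.2 ≤ x.2} from
      ⟨rfl, le_rfl⟩) hsub
    obtain ⟨R, hR⟩ := (hr.subset h1).exists_norm_le
    have h2 := hR (p.1, max p.2 (R + 1)) ⟨rfl, le_max_left _ _⟩
    have h3 := (norm_snd_le (p.1, max p.2 (R + 1))).trans h2
    have h4 := (le_abs_self _).trans h3
    have h5 : R + 1 ≤ max p.2 (R + 1) := le_max_right _ _
    have h6 : max p.2 (R + 1) ≤ R := h4
    linarith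

private theorem one_ne_neg_one (hV : IsSimple V) (i : ZMod n) : i - 1 ≠ i + 1 := by
  intro h
  have h1 : ((2 : ℕ) : ZMod n) = 0 := by
    have : (2 : ZMod n) = (i + 1) - (i - 1) := by ring
    rw [Nat.cast_ofNat, this, h, sub_self]
  rw [ZMod.natCast_eq_zero_iff] at h1
  have := Nat.le_of_dvd two_pos h1
  have := hV.1
  omega

private theorem ne_sub_one (hV : IsSimple V) (i : ZMod n) : i - 1 ≠ i := by
  intro h
  have h1 : ((1 : ℕ) : ZMod n) = 0 := by
    have : (1 : ZMod n) = i - (i - 1) := by ring
    rw [Nat.cast_one, this, h, sub_self]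
  rw [ZMod.natCast_eq_zero_iff] at h1
  have := Nat.le_of_dvd one_pos h1
  have := hV.1
  omega

private theorem exists_edge (hV : IsSimple V) : ∃ i, (V i).1 ≠ (V (i + 1)).1 := by
  have := neZero_of_simple hV
  by_contra hcon
  push Not at hcon
  obtain ⟨i, hi⟩ := Finite.exists_max (fun i => (V i).2)
  have h1 : (V i).1 = (V (i + 1)).1 := hcon i
  have h2 : (V (i - 1)).1 = (V i).1 := by
    have := hcon (i - 1)
    rwa [sub_add_cancel] at this
  have h3 : (V (i + 1)).2 < (V i).2 := by
    refine lt_of_le_of_ne (hi _) fun h => ?_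
    exact hV.2.1 i (Prod.ext h1 h.symm)
  have h4 : (V (i - 1)).2 < (V i).2 := by
    refine lt_of_le_of_ne (hi _) fun h => ?_
    have := hV.2.1 (i - 1)
    rw [sub_add_cancel] at this
    exact this (Prod.ext h2 h)
  set y := max (V (i + 1)).2 (V (i - 1)).2 with hy
  have hy1 : y < (V i).2 := max_lt h3 h4
  have hX : ∀ j : ZMod n, (V j).1 = (V i).1 → (V j).2 < (V i).2 → (V j).2 ≤ y →
      ((V i).1, y) ∈ segment ℝ (V i) (V j) := by
    intro j hj1 hj2 hj3
    have hd : 0 < (V i).2 - (V j).2 := by linarith
    refine ⟨(y - (V j).2) / ((V i).2 - (V j).2), ((V i).2 - y) / ((V i).2 - (V j).2),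
      div_nonneg (by linarith) hd.le, div_nonneg (by linarith) hd.le, ?_, ?_⟩
    · rw [← add_div]
      have : y - (V j).2 + ((V i).2 - y) = (V i).2 - (V j).2 := by ring
      rw [this, div_self hd.ne']
    · apply Prod.ext
      · simp only [Prod.fst_add, Prod.smul_fst, smul_eq_mul, hj1]
        rw [← add_mul, ← add_div]
        have : y - (V j).2 + ((V i).2 - y) = (V i).2 - (V j).2 := by ring
        rw [this, div_self hd.ne', one_mul]
      · simp only [Prod.snd_add, Prod.smul_snd, smul_eq_mul]
        field_simp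
        ring
  have hA := hX (i + 1) h1.symm h3 (le_max_left _ _)
  have hB := hX (i - 1) h2 h4 (le_max_right _ _)
  have hB' : ((V i).1, y) ∈ segment ℝ (V (i - 1)) (V (i - 1 + 1)) := by
    rw [sub_add_cancel, segment_symm]
    exact hB
  rcases hV.2.2 (i - 1) i (ne_sub_one hV i) _ hB' hA with ⟨_, h⟩ | ⟨h, _⟩
  · have := congrArg Prod.snd h
    simp only at this
    linarith
  · exact one_ne_neg_one hV i h

/-- the points of one of the sides are outside -/
theorem exists_out_side (hV : IsSimple V) :
    ∃ s : ℝ, (s = 1 ∨ s = -1) ∧ ∀ p ∈ sideSet V s, p ∉ region V := by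
  have := neZero_of_simple hV
  suffices h : ∃ (s : ℝ) (q : Pt), (s = 1 ∨ s = -1) ∧ q ∈ sideSet V s ∧ q ∉ region V by
    obtain ⟨s, q, hs, hq, hqr⟩ := h
    refine ⟨s, hs, fun p hp hpr => hqr ?_⟩
    have h1 := same_side hV hs hq hp
    have h2 : p ∉ curve V := connectedComponentIn_subset _ _ h1
    rcases hpr with h3 | h3
    · exact absurd h3 h2
    · right
      rw [connectedComponentIn_eq h1]
      exact h3
  obtain ⟨i0, hi0⟩ := exists_edge hV
  -- an abscissa without vertices
  have hfin : (Set.range fun i => (V i).1).Finite := Set.finite_range _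
  obtain ⟨x, hx, hxv⟩ : ∃ x, (((V i0).1 < x ∧ x < (V (i0 + 1)).1) ∨
      ((V (i0 + 1)).1 < x ∧ x < (V i0).1)) ∧ x ∉ Set.range fun i => (V i).1 := by
    rcases lt_or_gt_of_ne hi0 with h | h
    · obtain ⟨x, hx, hx'⟩ := (Set.Ioo_infinite h).exists_notMem_finite hfin
      exact ⟨x, Or.inl hx, hx'⟩
    · obtain ⟨x, hx, hx'⟩ := (Set.Ioo_infinite h).exists_notMem_finite hfin
      exact ⟨x, Or.inr hx, hx'⟩
  set B : Set (ZMod n) := {e | ((V e).1 < x ∧ x < (V (e + 1)).1) ∨
      ((V (e + 1)).1 < x ∧ x < (V e).1)} with hB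
  obtain ⟨b, hbB, hbmax⟩ := Set.exists_max_image B (fun e => hgt V e x) (Set.toFinite _) ⟨i0, hx⟩
  have hgen : ∀ y : ℝ, Gen V (x, y) := by
    intro y i h
    exact hxv ⟨i, h⟩
  have hoff : ∀ y : ℝ, hgt V b x < y → (x, y) ∉ curve V := by
    intro y hy hc
    obtain ⟨e, he, he'⟩ := (mem_curve_iff hV (hgen y)).1 hc
    have h1 : hgt V e x ≤ hgt V b x := hbmax e he
    have h2 : y = hgt V e x := he'
    linarith
  have hne : (V (b + 1)).1 - (V b).1 ≠ 0 := by
    rcases hbB with h | h
    · have := h.1.trans h.2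
      linarith
    · have := h.1.trans h.2
      linarith
  set t := (x - (V b).1) / ((V (b + 1)).1 - (V b).1) with ht
  have ht1 : t * ((V (b + 1)).1 - (V b).1) = x - (V b).1 := by
    rw [ht]
    field_simp
  have ht0 : 0 < t ∧ t < 1 := by
    rcases hbB with h | h
    · have h3 : 0 < (V (b + 1)).1 - (V b).1 := by linarith [h.1, h.2]
      rw [ht]
      constructor
      · exact div_pos (by linarith [h.1]) h3
      · rw [div_lt_one h3]
        linarith [h.2]
    · have h3 : (V (b + 1)).1 - (V b).1 < 0 := by linarith [h.1, h.2]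
      rw [ht]
      constructor
      · exact div_pos_of_neg_of_neg (by linarith [h.2]) h3
      · rw [div_lt_one_of_neg h3]
        linarith [h.1]
  have hept : ept V b t = (x, hgt V b x) := by
    unfold ept
    apply Prod.ext
    · simp only [Prod.fst_add, Prod.smul_fst, Prod.fst_sub, smul_eq_mul]
      linarith
    · simp only [Prod.snd_add, Prod.smul_snd, Prod.snd_sub, smul_eq_mul]
      unfold hgt
      rw [← ht1]
      field_simp
  have hcross : cross (V b) (V (b + 1)) (x, hgt V b x + 1) = (V (b + 1)).1 - (V b).1 := by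
    unfold cross hgt
    field_simp
    ring
  set s : ℝ := if 0 < (V (b + 1)).1 - (V b).1 then 1 else -1 with hs
  have hs1 : s = 1 ∨ s = -1 := by
    rw [hs]
    split_ifs
    · exact Or.inl rfl
    · exact Or.inr rfl
  have hs2 : 0 < s * ((V (b + 1)).1 - (V b).1) := by
    rw [hs]
    split_ifs with h
    · linarith
    · have : (V (b + 1)).1 - (V b).1 < 0 := lt_of_le_of_ne (not_lt.1 h) hne
      linarith
  refine ⟨s, (x, hgt V b x + 1), hs1, ⟨b, t, ht0.1, ht0.2, ?_, ?_⟩, ?_⟩
  · rw [hcross]
    exact hs2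
  · intro τ hτ _
    rw [hept]
    have : ((x, hgt V b x) : Pt) + τ • ((x, hgt V b x + 1) - (x, hgt V b x)) =
        (x, hgt V b x + τ) := by
      apply Prod.ext
      · simp
      · simp
    rw [this]
    exact hoff _ (by linarith)
  · refine outer_of_no_above hV (hoff _ (by linarith)) (hgen _) ?_
    rintro e ⟨he1, he2⟩
    have h1 : hgt V e x ≤ hgt V b x := hbmax e he1
    have h2 : hgt V b x + 1 < hgt V e x := he2
    linarith

/-- every inner point of an edge is a limit of points outside -/
theorem ept_mem_closure (hV : IsSimple V) (i : ZMod n) {t : ℝ} (ht : 0 < t) (ht' : t < 1) :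
    ept V i t ∈ closure (region V)ᶜ := by
  obtain ⟨s, hs, hout⟩ := exists_out_side hV
  have hne : 0 < ((V (i + 1)).1 - (V i).1) ^ 2 + ((V (i + 1)).2 - (V i).2) ^ 2 := by
    rcases eq_or_ne ((V (i + 1)).1 - (V i).1) 0 with h | h
    · rcases eq_or_ne ((V (i + 1)).2 - (V i).2) 0 with h' | h'
      · exact absurd (Prod.ext (by linarith) (by linarith)) (hV.2.1 i)
      · positivity
    · positivity
  have hss : s * s = 1 := by rcases hs with rfl | rfl <;> norm_num
  have hu : 0 < s * cross (V i) (V (i + 1)) (V i + s • nrm V i) := by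
    have : s * cross (V i) (V (i + 1)) (V i + s • nrm V i) =
        (s * s) * (((V (i + 1)).1 - (V i).1) ^ 2 + ((V (i + 1)).2 - (V i).2) ^ 2) := by
      unfold cross nrm
      simp only [Prod.fst_add, Prod.snd_add, Prod.smul_fst, Prod.smul_snd, smul_eq_mul]
      ring
    rw [this, hss, one_mul]
    exact hne
  have hev := eventually_side hV i ht ht' hu
  have hcont : Filter.Tendsto (fun τ : ℝ => ept V i t + τ • (s • nrm V i)) (𝓝[>] 0)
      (𝓝 (ept V i t)) := by
    have h1 : ContinuousAt (fun τ : ℝ => ept V i t + τ • (s • nrm V i)) 0 := by fun_prop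
    have h2 := h1.tendsto
    simp only [zero_smul, add_zero] at h2
    exact h2.mono_left nhdsWithin_le_nhds
  refine mem_closure_of_tendsto hcont ?_
  filter_upwards [hev] with τ hτ
  exact hout _ hτ

end Pool.Agent.Helper94.UR
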