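import Pool.Agent.Helper94.UR.Outer

/-!
# The region: topology, and disks in the region
-/

set_option autoImplicit false

namespace Pool.Agent.Helper94.UR

open Pool.Agent.Helper20.Flip Pool.Agent.Helper97.UDP Topology

variable {n : ℕ} {V : ZMod n → Pt}

private theorem neZero_of (hV : IsSimple V) : NeZero n := ⟨by have := hV.1; omega⟩

private theorem convex_half (f : Pt →ₗ[ℝ] ℝ) (r : ℝ) : Convex ℝ {p : Pt | r < f p} :=
  (convex_Ioi r).is_linear_preimage f.isLinear

private theorem pre_out (r : ℝ) : IsPreconnected {p : Pt | r < |p.1| ∨ r < |p.2|} := by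
  have hx : Convex ℝ {p : Pt | r < p.1} := convex_half (LinearMap.fst ℝ ℝ ℝ) r
  have hx' : Convex ℝ {p : Pt | r < -p.1} := convex_half (-LinearMap.fst ℝ ℝ ℝ) r
  have hy : Convex ℝ {p : Pt | r < p.2} := convex_half (LinearMap.snd ℝ ℝ ℝ) r
  have hy' : Convex ℝ {p : Pt | r < -p.2} := convex_half (-LinearMap.snd ℝ ℝ ℝ) r
  have h1 : IsPreconnected ({p : Pt | r < p.1} ∪ {p : Pt | r < p.2}) :=
    IsPreconnected.union (r + 1, r + 1) (by simp) (by simp) hx.isPreconnected
      hy.isPreconnected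
  have h2 : IsPreconnected (({p : Pt | r < p.1} ∪ {p : Pt | r < p.2}) ∪ {p : Pt | r < -p.1}) :=
    IsPreconnected.union (-(r + 1), r + 1) (by right; simp) (by simp) h1 hx'.isPreconnected
  have h3 : IsPreconnected ((({p : Pt | r < p.1} ∪ {p : Pt | r < p.2}) ∪ {p : Pt | r < -p.1}) ∪
      {p : Pt | r < -p.2}) :=
    IsPreconnected.union (r + 1, -(r + 1)) (by left; left; simp) (by simp) h2 hy'.isPreconnected
  convert h3 using 1
  ext p
  simp only [Set.mem_ofPred_eq, Set.mem_union, lt_abs]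
  tauto

private theorem isCompact_curve [NeZero n] (V : ZMod n → Pt) : IsCompact (curve V) := by
  have h1 : curve V = ⋃ i, segment ℝ (V i) (V (i + 1)) := by
    ext p; simp [curve]
  rw [h1]
  refine isCompact_iUnion fun i => ?_
  rw [← convexHull_pair]
  have h2 : ({V i, V (i + 1)} : Set Pt).Finite := Set.toFinite _
  exact h2.isCompact_convexHull (𝕜 := ℝ)

theorem isCompact_region (hV : IsSimple V) : IsCompact (region V) := by
  have := neZero_of hV
  obtain ⟨R, hR⟩ := (isCompact_curve V).isBounded.exists_norm_le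
  have hsub : {p : Pt | R < |p.1| ∨ R < |p.2|} ⊆ (curve V)ᶜ := by
    intro p hp hpc
    have h1 := hR p hpc
    rw [Prod.norm_def, max_le_iff] at h1
    rcases hp with hp | hp
    · exact absurd hp (not_lt.2 h1.1)
    · exact absurd hp (not_lt.2 h1.2)
  have hunb : ¬ Bornology.IsBounded {p : Pt | R < |p.1| ∨ R < |p.2|} := by
    intro hb
    obtain ⟨C, hC⟩ := hb.exists_norm_le
    have hmem : ((|R| + |C| + 1, 0) : Pt) ∈ {p : Pt | R < |p.1| ∨ R < |p.2|} := by
      left
      show R < |(|R| + |C| + 1)|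
      have h3 : 0 ≤ |R| + |C| + 1 := by positivity
      rw [abs_of_nonneg h3]
      have := le_abs_self R
      have := abs_nonneg C
      linarith
    have h1 := hC _ hmem
    rw [Prod.norm_def, max_le_iff] at h1
    have h2 : |(|R| + |C| + 1)| ≤ C := h1.1
    have h3 : 0 ≤ |R| + |C| + 1 := by positivity
    rw [abs_of_nonneg h3] at h2
    have := le_abs_self C
    have := abs_nonneg R
    linarith
  have hbd : region V ⊆ Metric.closedBall 0 R := by
    intro p hp
    by_contra hpR
    rw [mem_closedBall_zero_iff, Prod.norm_def, max_le_iff, not_and_or, not_le, not_le] at hpR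
    rcases hp with hp | hp
    · exact hsub hpR hp
    · exact hunb (hp.subset ((pre_out R).subset_connectedComponentIn hpR hsub))
  have hcl : IsClosed (region V) := ⟨isOpen_compl_region V⟩
  exact (isCompact_closedBall 0 R).of_isClosed_subset hcl hbd

theorem region_mem_nhds (hV : IsSimple V) {c : Pt} (hc : c ∈ region V) (hc' : c ∉ curve V) :
    region V ∈ 𝓝 c := by
  have := neZero_of hV
  have hopen := (isClosed_curve V).isOpen_compl.connectedComponentIn (x := c)
  refine Filter.mem_of_superset (hopen.mem_nhds (mem_connectedComponentIn hc')) ?_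
  intro q hq
  exact same_comp isPreconnected_connectedComponentIn (connectedComponentIn_subset _ _)
    (mem_connectedComponentIn hc') hq hc

private theorem convex_d2 (c : Pt) : Convex ℝ {p : Pt | d2 p c < 1} := by
  intro p hp q hq a b ha hb hab
  simp only [Set.mem_ofPred_eq, d2, Prod.fst_add, Prod.snd_add, Prod.smul_fst, Prod.smul_snd,
    smul_eq_mul] at hp hq ⊢
  have := sq_comb ha hb hab hp hq
  have e1 : a * p.1 + b * q.1 - c.1 = a * (p.1 - c.1) + b * (q.1 - c.1) := by
    have : c.1 = (a + b) * c.1 := by rw [hab, one_mul]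
    linear_combination -this
  have e2 : a * p.2 + b * q.2 - c.2 = a * (p.2 - c.2) + b * (q.2 - c.2) := by
    have : c.2 = (a + b) * c.2 := by rw [hab, one_mul]
    linear_combination -this
  rw [e1, e2]
  exact this

/-- a point at distance at least one from the curve: all the points at distance less than one are
in the same component of the complement of the curve -/
theorem near_same (hV : IsSimple V) {c : Pt} (hc : ∀ i, Far (V i) (V (i + 1)) c) {p : Pt}
    (hp : d2 p c < 1) : p ∉ curve V ∧ (p ∈ region V ↔ c ∈ region V) := by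
  have hsub : {p : Pt | d2 p c < 1} ⊆ (curve V)ᶜ := by
    rintro q hq ⟨i, hi⟩
    exact absurd (hc i q hi) (not_le.2 hq)
  have hcc : c ∈ {p : Pt | d2 p c < 1} := by
    simp [d2]
  refine ⟨hsub hp, fun h => ?_, fun h => ?_⟩
  · exact same_comp (convex_d2 c).isPreconnected hsub hp hcc h
  · exact same_comp (convex_d2 c).isPreconnected hsub hcc hp h

theorem exists_near_gen (hV : IsSimple V) (c : Pt) : ∃ p, d2 p c < 1 ∧ Gen V p := by
  have := neZero_of hV
  have hfin : (Set.range fun i : ZMod n => (V i).1 - c.1).Finite := Set.finite_range _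
  have hinf : (Set.Ioo (0 : ℝ) 1).Infinite := Set.Ioo_infinite one_pos
  obtain ⟨x, hx, hx'⟩ := (hinf.sdiff hfin).nonempty
  refine ⟨(c.1 + x, c.2), ?_, ?_⟩
  · show (c.1 + x - c.1) ^ 2 + (c.2 - c.2) ^ 2 < 1
    have h1 := hx.1
    have h2 := hx.2
    nlinarith
  · intro i hi
    apply hx'
    refine ⟨i, ?_⟩
    show (V i).1 - c.1 = x
    rw [hi]
    ring

private theorem disk_subset_closure (c : Pt) : disk c ⊆ closure {p : Pt | d2 p c < 1} := by
  intro q hq
  have hq' : (q.1 - c.1) ^ 2 + (q.2 - c.2) ^ 2 ≤ 1 := hq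
  have hcont : Filter.Tendsto (fun t : ℝ => ((q.1 + t * (c.1 - q.1), q.2 + t * (c.2 - q.2)) : Pt))
      (𝓝[>] 0) (𝓝 q) := by
    have h1 : ContinuousAt (fun t : ℝ =>
        ((q.1 + t * (c.1 - q.1), q.2 + t * (c.2 - q.2)) : Pt)) 0 := by fun_prop
    have h2 := h1.tendsto
    simp only [zero_mul, add_zero] at h2
    exact h2.mono_left nhdsWithin_le_nhds
  refine mem_closure_of_tendsto hcont ?_
  have h4 : ∀ᶠ t : ℝ in 𝓝[>] 0, t < 1 :=
    (eventually_lt_nhds one_pos).filter_mono nhdsWithin_le_nhds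
  have h5 : ∀ᶠ t : ℝ in 𝓝[>] 0, 0 < t := self_mem_nhdsWithin
  filter_upwards [h4, h5] with t ht ht0
  show (q.1 + t * (c.1 - q.1) - c.1) ^ 2 + (q.2 + t * (c.2 - q.2) - c.2) ^ 2 < 1
  have e1 : (q.1 + t * (c.1 - q.1) - c.1) ^ 2 + (q.2 + t * (c.2 - q.2) - c.2) ^ 2 =
      (1 - t) ^ 2 * ((q.1 - c.1) ^ 2 + (q.2 - c.2) ^ 2) := by ring
  rw [e1]
  have h6 : (1 - t) ^ 2 < 1 := by nlinarith
  have h7 : 0 ≤ (q.1 - c.1) ^ 2 + (q.2 - c.2) ^ 2 := by positivity
  nlinarith [sq_nonneg (1 - t)]

theorem disk_subset_region_iff (hV : IsSimple V) (c : Pt) :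
    disk c ⊆ region V ↔ c ∈ region V ∧ ∀ i, Far (V i) (V (i + 1)) c := by
  have := neZero_of hV
  constructor
  · intro h
    refine ⟨h (show c ∈ disk c by simp [disk]), fun i X hX => ?_⟩
    by_contra hlt
    rw [not_le] at hlt
    have hopen : IsOpen {p : Pt | d2 p c < 1} :=
      isOpen_lt (by unfold d2; fun_prop) continuous_const
    -- an inner point
    obtain ⟨θ, hθ, rfl⟩ : ∃ θ ∈ Set.Icc (0 : ℝ) 1, ept V i θ = X := by
      rw [segment_eq_image'] at hX
      obtain ⟨θ, h1, h2⟩ := hX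
      exact ⟨θ, h1, h2⟩
    have hcont : Continuous fun t : ℝ => ept V i t := by unfold ept; fun_prop
    have hmem : θ ∈ closure (Set.Ioo (0 : ℝ) 1) := by
      rw [closure_Ioo zero_ne_one]
      exact hθ
    have hpre : IsOpen ((fun t : ℝ => ept V i t) ⁻¹' {p : Pt | d2 p c < 1}) :=
      hopen.preimage hcont
    obtain ⟨t, ht1, ht2⟩ := mem_closure_iff.1 hmem _ hpre hlt
    have h3 := ept_mem_closure hV i ht2.1 ht2.2
    obtain ⟨q, hq1, hq2⟩ := mem_closure_iff.1 h3 _ hopen ht1
    have hq1' : d2 q c < 1 := hq1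
    have hqd : q ∈ disk c := by
      show (q.1 - c.1) ^ 2 + (q.2 - c.2) ^ 2 ≤ 1
      unfold d2 at hq1'
      exact hq1'.le
    exact hq2 (h hqd)
  · rintro ⟨hc, hf⟩
    have hcl : IsClosed (region V) := ⟨isOpen_compl_region V⟩
    have h1 : {p : Pt | d2 p c < 1} ⊆ region V := fun p hp => (near_same hV hf hp).2.2 hc
    exact (disk_subset_closure c).trans (hcl.closure_subset_iff.2 h1)

end Pool.Agent.Helper94.UR
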