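import Pool.Agent.Helper94.UR.SideDefs

/-!
# The two sides of an edge are in different components (by the winding number)
-/

set_option autoImplicit false

namespace Pool.Agent.Helper94.UR

open Pool.Agent.Helper20.Flip Pool.Agent.Helper97.UDP Topology

variable {n : ℕ} {V : ZMod n → Pt}

private noncomputable def toC (p : Pt) : ℂ := ⟨p.1, p.2⟩

private noncomputable def quo (V : ZMod n → Pt) (i : ZMod n) (p : Pt) : ℂ :=
  (toC (V (i + 1)) - toC p) / (toC (V i) - toC p)

private theorem toC_inj {p q : Pt} (h : toC p = toC q) : p = q := by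
  have h1 := congrArg Complex.re h
  have h2 := congrArg Complex.im h
  exact Prod.ext h1 h2

private theorem continuous_toC : Continuous toC := by
  have : toC = fun p : Pt => ((p.1 : ℂ) + (p.2 : ℂ) * Complex.I) := by
    funext p
    apply Complex.ext <;> simp [toC]
  rw [this]
  fun_prop

private theorem quo_mem {i : ZMod n} {p : Pt} (hp : p ∉ segment ℝ (V i) (V (i + 1))) :
    toC (V i) - toC p ≠ 0 ∧ quo V i p ∈ Complex.slitPlane := by
  have h0 : toC (V i) - toC p ≠ 0 := by
    intro h
    have : V i = p := toC_inj (sub_eq_zero.1 h)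
    exact hp (this ▸ left_mem_segment ℝ _ _)
  refine ⟨h0, ?_⟩
  by_contra hq
  rw [Complex.mem_slitPlane_iff] at hq
  push Not at hq
  obtain ⟨h1, h2⟩ := hq
  set c : ℝ := -(quo V i p).re with hc
  have hc0 : 0 ≤ c := by linarith
  have h3 : quo V i p = -(c : ℂ) := Complex.ext (by simp [hc]) (by simp [h2])
  have h4 : toC (V (i + 1)) - toC p = -(c : ℂ) * (toC (V i) - toC p) := by
    rw [← h3, quo, div_mul_cancel₀ _ h0]
  have h5 : (V (i + 1)).1 - p.1 = -(c * ((V i).1 - p.1)) := by
    have := congrArg Complex.re h4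
    simpa [toC] using this
  have h6 : (V (i + 1)).2 - p.2 = -(c * ((V i).2 - p.2)) := by
    have := congrArg Complex.im h4
    simpa [toC] using this
  apply hp
  have h7 : (1 + c : ℝ) ≠ 0 := by positivity
  refine ⟨c / (1 + c), 1 / (1 + c), by positivity, by positivity, ?_, ?_⟩
  · field_simp
    ring
  · refine Prod.ext ?_ ?_
    · simp only [Prod.fst_add, Prod.smul_fst, smul_eq_mul]
      field_simp
      linarith
    · simp only [Prod.snd_add, Prod.smul_snd, smul_eq_mul]
      field_simp
      linarith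

private theorem continuousAt_arg_quo {i : ZMod n} {p : Pt}
    (hp : p ∉ segment ℝ (V i) (V (i + 1))) :
    ContinuousAt (fun q => (quo V i q).arg) p := by
  obtain ⟨h1, h2⟩ := quo_mem hp
  have h3 : ContinuousAt (quo V i) p := by
    unfold quo
    exact ContinuousAt.div (by have := continuous_toC; fun_prop)
      (by have := continuous_toC; fun_prop) h1
  exact ContinuousAt.comp (f := quo V i) (g := Complex.arg) (Complex.continuousAt_arg h2) h3

private noncomputable def wind [NeZero n] (V : ZMod n → Pt) (p : Pt) : ℝ :=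
  ∑ i, (quo V i p).arg

private theorem wind_int [NeZero n] {p : Pt} (hp : p ∉ curve V) :
    ∃ k : ℤ, wind V p = k * (2 * Real.pi) := by
  have hp' : ∀ i, p ∉ segment ℝ (V i) (V (i + 1)) := fun i hi => hp ⟨i, hi⟩
  have hprod : ∏ i, quo V i p = 1 := by
    unfold quo
    rw [Finset.prod_div_distrib]
    have h1 := Equiv.prod_comp (Equiv.addRight (1 : ZMod n)) fun i => toC (V i) - toC p
    have h2 : ∏ i, (toC (V (i + 1)) - toC p) = ∏ i, (toC (V i) - toC p) := h1
    rw [h2]
    exact div_self (Finset.prod_ne_zero_iff.2 fun i _ => (quo_mem (hp' i)).1)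
  have hexp : Complex.exp ((wind V p : ℝ) * Complex.I) = 1 := by
    unfold wind
    push_cast
    rw [Finset.sum_mul, Complex.exp_sum]
    have h1 : ∏ i, ((‖quo V i p‖ : ℂ) * Complex.exp ((quo V i p).arg * Complex.I)) = 1 := by
      rw [← hprod]
      exact Finset.prod_congr rfl fun i _ => Complex.norm_mul_exp_arg_mul_I _
    rw [Finset.prod_mul_distrib] at h1
    have h2 : ∏ i, (‖quo V i p‖ : ℂ) = 1 := by
      rw [← Complex.ofReal_prod, ← norm_prod, hprod]
      simp
    rw [h2, one_mul] at h1
    exact h1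
  obtain ⟨k, hk⟩ := Complex.exp_eq_one_iff.1 hexp
  refine ⟨k, ?_⟩
  have h3 : ((wind V p : ℝ) : ℂ) = ((k * (2 * Real.pi) : ℝ) : ℂ) := by
    have h4 : ((wind V p : ℝ) : ℂ) * Complex.I = ((k * (2 * Real.pi) : ℝ) : ℂ) * Complex.I := by
      rw [hk]
      push_cast
      ring
    exact mul_right_cancel₀ Complex.I_ne_zero h4
  exact_mod_cast h3

private theorem wind_const [NeZero n] {S : Set Pt} (hS : IsPreconnected S)
    (hsub : S ⊆ (curve V)ᶜ) {x y : Pt} (hx : x ∈ S) (hy : y ∈ S) : wind V x = wind V y := by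
  have hcont : ContinuousOn (wind V) S := by
    intro p hp
    have hp' : ∀ i, p ∉ segment ℝ (V i) (V (i + 1)) := fun i hi => hsub hp ⟨i, hi⟩
    refine ContinuousAt.continuousWithinAt ?_
    exact tendsto_finsetSum _ fun i _ => (continuousAt_arg_quo (hp' i))
  have key : ∀ a ∈ S, ∀ b ∈ S, ¬ wind V a < wind V b := by
    intro a ha b hb hab
    obtain ⟨k, hk⟩ := wind_int (hsub ha)
    obtain ⟨l, hl⟩ := wind_int (hsub hb)
    have hpi := Real.pi_pos
    have hkl : k < l := by
      rw [hk, hl] at hab
      have := lt_of_mul_lt_mul_right hab (by positivity)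
      exact_mod_cast this
    have hkl' : (k : ℝ) + 1 ≤ l := by exact_mod_cast hkl
    obtain ⟨z, hz, hz'⟩ := hS.intermediate_value ha hb hcont
      (show wind V a + Real.pi ∈ Set.Icc (wind V a) (wind V b) by
        rw [hl, hk]
        constructor
        · linarith
        · nlinarith)
    obtain ⟨m, hm⟩ := wind_int (hsub hz)
    rw [hz', hk] at hm
    have h1 : (2 * (m - k) : ℝ) = 1 := by
      have : Real.pi * (2 * (m - k)) = Real.pi * 1 := by linarith
      exact mul_left_cancel₀ hpi.ne' this
    have h2 : (2 * (m - k) : ℤ) = 1 := by exact_mod_cast h1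
    omega
  exact le_antisymm (not_lt.1 (key y hy x hx)) (not_lt.1 (key x hx y hy))

/-- The winding number (times `2π`) is constant on the connected subsets of the complement, and
it jumps at the midpoint of an edge. -/
theorem eventually_jump (hV : IsSimple V) (i : ZMod n) :
    ∀ᶠ ε : ℝ in 𝓝[>] 0, ept V i (1 / 2) - ε • nrm V i ∉
      connectedComponentIn (curve V)ᶜ (ept V i (1 / 2) + ε • nrm V i) := by
  have hn : NeZero n := ⟨by have := hV.1; omega⟩
  have hne := hV.2.1 i
  -- the midpoint is not on the other edges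
  have hm : ∀ j, j ≠ i → ept V i (1 / 2) ∉ segment ℝ (V j) (V (j + 1)) := by
    intro j hj hmem
    have hmi : ept V i (1 / 2) ∈ segment ℝ (V i) (V (i + 1)) := by
      refine ⟨1 / 2, 1 / 2, by norm_num, by norm_num, by norm_num, ?_⟩
      unfold ept
      refine Prod.ext ?_ ?_
      · simp only [Prod.fst_add, Prod.smul_fst, smul_eq_mul, Prod.fst_sub]
        ring
      · simp only [Prod.snd_add, Prod.smul_snd, smul_eq_mul, Prod.snd_sub]
        ring
    rcases hV.2.2 i j (Ne.symm hj) _ hmi hmem with ⟨h1, h2⟩ | ⟨h1, h2⟩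
    · rw [h1] at h2
      apply hne
      unfold ept at h2
      have e1 := congrArg Prod.fst h2
      have e2 := congrArg Prod.snd h2
      simp only [Prod.fst_add, Prod.smul_fst, smul_eq_mul, Prod.fst_sub] at e1
      simp only [Prod.snd_add, Prod.smul_snd, smul_eq_mul, Prod.snd_sub] at e2
      exact Prod.ext (by linarith) (by linarith)
    · apply hne
      unfold ept at h2
      have e1 := congrArg Prod.fst h2
      have e2 := congrArg Prod.snd h2
      simp only [Prod.fst_add, Prod.smul_fst, smul_eq_mul, Prod.fst_sub] at e1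
      simp only [Prod.snd_add, Prod.smul_snd, smul_eq_mul, Prod.snd_sub] at e2
      exact Prod.ext (by linarith) (by linarith)
  -- the other terms
  let F : ℝ → ℝ := fun ε => ∑ j ∈ Finset.univ.erase i,
    ((quo V j (ept V i (1 / 2) + ε • nrm V i)).arg -
      (quo V j (ept V i (1 / 2) - ε • nrm V i)).arg)
  have hF0 : F 0 = 0 := by
    refine Finset.sum_eq_zero fun j _ => ?_
    rw [zero_smul, add_zero, sub_zero, sub_self]
  have hF : ContinuousAt F 0 := by
    refine tendsto_finsetSum _ fun j hj => ?_
    have hj' := hm j (Finset.ne_of_mem_erase hj)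
    have c1 : ContinuousAt (fun ε : ℝ => (quo V j (ept V i (1 / 2) + ε • nrm V i)).arg) 0 := by
      refine ContinuousAt.comp (f := fun ε : ℝ => ept V i (1 / 2) + ε • nrm V i)
        (g := fun q => (quo V j q).arg) ?_ (by fun_prop)
      rw [zero_smul, add_zero]
      exact continuousAt_arg_quo hj'
    have c2 : ContinuousAt (fun ε : ℝ => (quo V j (ept V i (1 / 2) - ε • nrm V i)).arg) 0 := by
      refine ContinuousAt.comp (f := fun ε : ℝ => ept V i (1 / 2) - ε • nrm V i)
        (g := fun q => (quo V j q).arg) ?_ (by fun_prop)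
      rw [zero_smul, sub_zero]
      exact continuousAt_arg_quo hj'
    exact c1.sub c2
  have hev : ∀ᶠ ε in 𝓝 (0 : ℝ), -Real.pi < F ε := by
    refine hF.eventually (lt_mem_nhds ?_)
    rw [hF0]
    linarith [Real.pi_pos]
  have hsmall : ∀ᶠ ε in 𝓝 (0 : ℝ), ε < 1 / 2 := gt_mem_nhds (by norm_num)
  filter_upwards [nhdsWithin_le_nhds hev, nhdsWithin_le_nhds hsmall, self_mem_nhdsWithin]
    with ε h1 h2 h3
  intro hmem
  have h3' : (0 : ℝ) < ε := h3
  have hpos : ept V i (1 / 2) + ε • nrm V i ∈ (curve V)ᶜ := by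
    by_contra hcon
    rw [connectedComponentIn_eq_empty hcon] at hmem
    exact hmem
  have hw := wind_const isPreconnected_connectedComponentIn (connectedComponentIn_subset _ _)
    (mem_connectedComponentIn hpos) hmem
  -- the term of the edge
  have hD : toC (V (i + 1)) - toC (V i) ≠ 0 := by
    intro h
    exact hne (toC_inj (sub_eq_zero.1 h)).symm
  have hq : ∀ δ : ℝ, quo V i (ept V i (1 / 2) + δ • nrm V i) =
      ⟨-(1 - 4 * δ ^ 2) / (1 + 4 * δ ^ 2), 4 * δ / (1 + 4 * δ ^ 2)⟩ := by
    intro δ
    have hden : (1 + 4 * δ ^ 2 : ℝ) ≠ 0 := by positivity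
    have e1 : toC (V (i + 1)) - toC (ept V i (1 / 2) + δ • nrm V i) =
        (toC (V (i + 1)) - toC (V i)) * ⟨1 / 2, -δ⟩ := by
      apply Complex.ext
      · simp only [toC, ept, nrm, Complex.sub_re, Complex.mul_re, Complex.sub_im, Prod.fst_add,
          Prod.smul_fst, smul_eq_mul, Prod.fst_sub]
        ring
      · simp only [toC, ept, nrm, Complex.sub_re, Complex.mul_im, Complex.sub_im, Prod.snd_add,
          Prod.smul_snd, smul_eq_mul, Prod.snd_sub]
        ring
    have e2 : toC (V i) - toC (ept V i (1 / 2) + δ • nrm V i) =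
        (toC (V (i + 1)) - toC (V i)) * ⟨-(1 / 2), -δ⟩ := by
      apply Complex.ext
      · simp only [toC, ept, nrm, Complex.sub_re, Complex.mul_re, Complex.sub_im, Prod.fst_add,
          Prod.smul_fst, smul_eq_mul, Prod.fst_sub]
        ring
      · simp only [toC, ept, nrm, Complex.sub_re, Complex.mul_im, Complex.sub_im, Prod.snd_add,
          Prod.smul_snd, smul_eq_mul, Prod.snd_sub]
        ring
    have e3 : (⟨-(1 / 2), -δ⟩ : ℂ) ≠ 0 := by
      intro h
      have := congrArg Complex.re h
      norm_num at this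
    unfold quo
    rw [e1, e2, mul_div_mul_left _ _ hD, div_eq_iff e3]
    apply Complex.ext
    · simp only [Complex.mul_re]
      field_simp
      ring
    · simp only [Complex.mul_im]
      field_simp
      ring
  have hplus : Real.pi / 2 < (quo V i (ept V i (1 / 2) + ε • nrm V i)).arg := by
    rw [hq ε]
    have him : (0 : ℝ) < 4 * ε / (1 + 4 * ε ^ 2) := by positivity
    have hre : -(1 - 4 * ε ^ 2) / (1 + 4 * ε ^ 2) < 0 := by
      apply div_neg_of_neg_of_pos _ (by positivity)
      nlinarith
    by_contra hcon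
    rw [not_lt] at hcon
    have := (Complex.arg_le_pi_div_two_iff.1 hcon)
    rcases this with h | h
    · exact absurd h (not_le.2 hre)
    · exact absurd h (not_lt.2 him.le)
  have hminus : (quo V i (ept V i (1 / 2) - ε • nrm V i)).arg < -(Real.pi / 2) := by
    have e4 : ept V i (1 / 2) - ε • nrm V i = ept V i (1 / 2) + (-ε) • nrm V i := by
      rw [neg_smul, sub_eq_add_neg]
    rw [e4, hq (-ε)]
    have him : 4 * (-ε) / (1 + 4 * (-ε) ^ 2) < 0 := by
      apply div_neg_of_neg_of_pos (by linarith) (by positivity)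
    have hre : -(1 - 4 * (-ε) ^ 2) / (1 + 4 * (-ε) ^ 2) < 0 := by
      apply div_neg_of_neg_of_pos _ (by positivity)
      nlinarith
    by_contra hcon
    rw [not_lt] at hcon
    have := (Complex.neg_pi_div_two_le_arg_iff.1 hcon)
    rcases this with h | h
    · exact absurd h (not_le.2 hre)
    · exact absurd h (not_le.2 him)
  unfold wind at hw
  rw [← Finset.add_sum_erase _ _ (Finset.mem_univ i),
    ← Finset.add_sum_erase _ _ (Finset.mem_univ i)] at hw
  have hFs : F ε = ∑ j ∈ Finset.univ.erase i, (quo V j (ept V i (1 / 2) + ε • nrm V i)).arg -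
      ∑ j ∈ Finset.univ.erase i, (quo V j (ept V i (1 / 2) - ε • nrm V i)).arg :=
    Finset.sum_sub_distrib _ _
  rw [hFs] at h1
  linarith

end Pool.Agent.Helper94.UR
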