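import Pool.Agent.Helper94.UR.Sides3
import Pool.Agent.Helper94.UR.Wind

/-!
# The two sides of a simple polygon are in different components
-/

set_option autoImplicit false

namespace Pool.Agent.Helper94.UR

open Pool.Agent.Helper20.Flip Pool.Agent.Helper97.UDP Topology

variable {n : ℕ} {V : ZMod n → Pt}

private theorem cross_nrm (V : ZMod n → Pt) (i : ZMod n) (h : V i ≠ V (i + 1)) :
    0 < cross (V i) (V (i + 1)) (V i + nrm V i) := by
  have h1 : cross (V i) (V (i + 1)) (V i + nrm V i) =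
      ((V (i + 1)).1 - (V i).1) ^ 2 + ((V (i + 1)).2 - (V i).2) ^ 2 := by
    unfold cross nrm
    simp only [Prod.fst_add, Prod.snd_add]
    ring
  rw [h1]
  by_contra hcon
  have g1 := sq_nonneg ((V (i + 1)).1 - (V i).1)
  have g2 := sq_nonneg ((V (i + 1)).2 - (V i).2)
  have h2 : (V (i + 1)).1 - (V i).1 = 0 := pow_eq_zero_iff (two_ne_zero) |>.1 (by linarith)
  have h3 : (V (i + 1)).2 - (V i).2 = 0 := pow_eq_zero_iff (two_ne_zero) |>.1 (by linarith)
  exact h (Prod.ext (by linarith) (by linarith))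

theorem sides_ne (hV : IsSimple V) {p q : Pt} (hp : p ∈ sideSet V 1) (hq : q ∈ sideSet V (-1)) :
    q ∉ connectedComponentIn (curve V)ᶜ p := by
  intro hpq
  have hc := cross_nrm V 0 (hV.2.1 0)
  have hc' : 0 < (-1 : ℝ) * cross (V 0) (V (0 + 1)) (V 0 + -nrm V 0) := by
    have h1 : (-1 : ℝ) * cross (V 0) (V (0 + 1)) (V 0 + -nrm V 0) =
        cross (V 0) (V (0 + 1)) (V 0 + nrm V 0) := by
      unfold cross
      simp only [Prod.fst_add, Prod.snd_add, Prod.fst_neg, Prod.snd_neg]
      ring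
    rw [h1]
    exact hc
  have e1 := eventually_side hV 0 (t := 1 / 2) (by norm_num) (by norm_num) (s := 1)
    (u := nrm V 0) (by rw [one_mul]; exact hc)
  have e2 := eventually_side hV 0 (t := 1 / 2) (by norm_num) (by norm_num) (s := -1)
    (u := -nrm V 0) hc'
  obtain ⟨ε, h1, h2, h3⟩ := (e1.and (e2.and (eventually_jump hV 0))).exists
  have g1 := same_side hV (Or.inl rfl) h1 hp
  have g2 := same_side hV (Or.inr rfl) hq h2
  apply h3
  rw [sub_eq_add_neg, ← smul_neg]
  rw [connectedComponentIn_eq g1, connectedComponentIn_eq hpq]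
  exact g2

end Pool.Agent.Helper94.UR
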