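import Pool.Agent.Helper94.UR.CQ

/-!
# The theorem of alternatives for convex functions
-/

set_option autoImplicit false

namespace Pool.Agent.Helper94.UR

/-- The theorem of alternatives for an index set which is a finite type. -/
private theorem alternatives_aux {E : Type*} [AddCommGroup E] [Module ℝ E] {ι : Type*} [Fintype ι]
    (q : ι → E → ℝ) (hq : ∀ k, ConvexOn ℝ Set.univ (q k)) (h : ¬ ∃ y, ∀ k, q k y < 0) :
    ∃ ω : ι → ℝ, (∀ k, 0 ≤ ω k) ∧ ∑ k, ω k = 1 ∧ ∀ y, 0 ≤ ∑ k, ω k * q k y := by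
  classical
  set A : Set (ι → ℝ) := {s | ∃ y, ∀ k, q k y < s k} with hA
  have hopen : IsOpen A := by
    have : A = ⋃ y : E, Set.pi Set.univ (fun k => Set.Ioi (q k y)) := by
      ext s
      simp [hA, Set.mem_iUnion, Set.mem_pi]
    rw [this]
    exact isOpen_iUnion fun y => isOpen_set_pi Set.finite_univ fun k _ => isOpen_Ioi
  have hconv : Convex ℝ A := by
    rintro s ⟨y, hy⟩ s' ⟨y', hy'⟩ a b ha hb hab
    refine ⟨a • y + b • y', fun k => ?_⟩
    have h1 := (hq k).2 (Set.mem_univ y) (Set.mem_univ y') ha hb hab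
    simp only [smul_eq_mul] at h1
    have h2 : a * q k y + b * q k y' < a * s k + b * s' k := by
      rcases ha.eq_or_lt with h0 | h0
      · have hb1 : b = 1 := by linarith
        subst hb1
        rw [← h0]
        linarith [hy' k]
      · have := mul_lt_mul_of_pos_left (hy k) h0
        have := mul_le_mul_of_nonneg_left (hy' k).le hb
        linarith
    simp only [Pi.add_apply, Pi.smul_apply, smul_eq_mul]
    linarith
  have h0 : (0 : ι → ℝ) ∉ A := by
    rintro ⟨y, hy⟩
    exact h ⟨y, fun k => by simpa using hy k⟩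
  obtain ⟨f, hf⟩ := geometric_hahn_banach_open_point hconv hopen h0
  rw [map_zero] at hf
  have hfs : ∀ s : ι → ℝ, f s = ∑ k, s k * f (Pi.single k 1) := by
    intro s
    have h1 : s = ∑ k, s k • (Pi.single k (1 : ℝ) : ι → ℝ) := by
      ext j
      simp [Finset.sum_apply, Pi.single_apply]
    conv_lhs => rw [h1]
    simp [map_sum]
  -- a point of A
  have hmem : ∀ y (ε : ℝ), 0 < ε → (fun k => q k y + ε) ∈ A := by
    intro y ε hε
    exact ⟨y, fun k => by linarith⟩
  have hneg : ∀ k, f (Pi.single k 1) ≤ 0 := by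
    intro k
    by_contra hk
    push Not at hk
    set s : ι → ℝ := fun k => q k 0 + 1 with hs
    set t : ℝ := |f s| / f (Pi.single k 1) with ht
    have ht0 : 0 ≤ t := div_nonneg (abs_nonneg _) hk.le
    have hm : s + t • (Pi.single k (1 : ℝ) : ι → ℝ) ∈ A := by
      refine ⟨0, fun j => ?_⟩
      have : 0 ≤ t * (Pi.single k (1 : ℝ) : ι → ℝ) j := by
        refine mul_nonneg ht0 ?_
        by_cases hj : j = k
        · subst hj; simp
        · simp [hj]
      simp only [Pi.add_apply, Pi.smul_apply, smul_eq_mul, hs]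
      linarith
    have h1 := hf _ hm
    rw [map_add, map_smul, smul_eq_mul, ht, div_mul_cancel₀ _ hk.ne'] at h1
    linarith [neg_abs_le (f s)]
  have hpos : 0 < ∑ k, - f (Pi.single k 1) := by
    rcases (Finset.sum_nonneg fun k (_ : k ∈ Finset.univ) => neg_nonneg.2 (hneg k)).eq_or_lt with
      h1 | h1
    · exfalso
      have h2 := (Finset.sum_eq_zero_iff_of_nonneg
        (fun k (_ : k ∈ Finset.univ) => neg_nonneg.2 (hneg k))).1 h1.symm
      have h3 := hf _ (hmem 0 1 one_pos)
      rw [hfs] at h3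
      have h4 : ∀ k, f (Pi.single k 1) = 0 := fun k => by
        have := h2 k (Finset.mem_univ k)
        linarith
      simp [h4] at h3
    · exact h1
  set σ : ℝ := ∑ k, - f (Pi.single k 1) with hσ
  refine ⟨fun k => - f (Pi.single k 1) / σ, fun k => div_nonneg (neg_nonneg.2 (hneg k)) hpos.le,
    ?_, ?_⟩
  · rw [← Finset.sum_div]
    exact div_self hpos.ne'
  · intro y
    have key : ∀ ε : ℝ, 0 < ε → 0 ≤ (∑ k, - f (Pi.single k 1) * q k y) + ε * σ := by
      intro ε hε
      have h1 := hf _ (hmem y ε hε)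
      rw [hfs] at h1
      have h2 : (∑ k, - f (Pi.single k 1) * q k y) + ε * σ =
          - ∑ k, (q k y + ε) * f (Pi.single k 1) := by
        rw [hσ, Finset.mul_sum, ← Finset.sum_add_distrib, ← Finset.sum_neg_distrib]
        refine Finset.sum_congr rfl fun k _ => ?_
        ring
      rw [h2]
      linarith
    have h3 : 0 ≤ ∑ k, - f (Pi.single k 1) * q k y := by
      by_contra hc
      push Not at hc
      have h4 := key (-(∑ k, - f (Pi.single k 1) * q k y) / (2 * σ)) (div_pos (by linarith) (by linarith))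
      have h5 : -(∑ k, - f (Pi.single k 1) * q k y) / (2 * σ) * σ =
          -(∑ k, - f (Pi.single k 1) * q k y) / 2 := by
        field_simp
      rw [h5] at h4
      linarith
    have h4 : ∑ k, - f (Pi.single k 1) / σ * q k y =
        (∑ k, - f (Pi.single k 1) * q k y) / σ := by
      rw [Finset.sum_div]
      refine Finset.sum_congr rfl fun k _ => ?_
      ring
    simp only [h4]
    exact div_nonneg h3 hpos.le

/-- If finitely many convex functions are nowhere simultaneously negative then some convex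
combination of them is nonnegative everywhere (Fan, Glicksberg, Hoffman). -/
theorem alternatives {E : Type*} [AddCommGroup E] [Module ℝ E] {K : Type*} (T : Finset K)
    (q : K → E → ℝ) (hq : ∀ k ∈ T, ConvexOn ℝ Set.univ (q k)) (h : ¬ ∃ y, ∀ k ∈ T, q k y < 0) :
    ∃ ω : K → ℝ, (∀ k ∈ T, 0 ≤ ω k) ∧ ∑ k ∈ T, ω k = 1 ∧ ∀ y, 0 ≤ ∑ k ∈ T, ω k * q k y := by
  classical
  obtain ⟨ω, h1, h2, h3⟩ := alternatives_aux (ι := {k // k ∈ T}) (fun k => q k.1)
    (fun k => hq k.1 k.2) (by
      rintro ⟨y, hy⟩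
      exact h ⟨y, fun k hk => hy ⟨k, hk⟩⟩)
  have hext : ∀ g : K → ℝ → ℝ, ∑ k ∈ T, g k (if hk : k ∈ T then ω ⟨k, hk⟩ else 0) =
      ∑ k : {k // k ∈ T}, g k.1 (ω k) := by
    intro g
    rw [← Finset.sum_coe_sort T]
    refine Finset.sum_congr rfl fun k _ => ?_
    rw [dif_pos k.2]
  refine ⟨fun k => if hk : k ∈ T then ω ⟨k, hk⟩ else 0, fun k hk => ?_, ?_, fun y => ?_⟩
  · simp only [dif_pos hk]
    exact h1 _
  · rw [hext fun _ x => x]
    exact h2
  · rw [hext fun k x => x * q k y]
    exact h3 y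

end Pool.Agent.Helper94.UR
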