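import Mathlib

/-!
# Convex quadratic functions and reversed convex programs
-/

set_option autoImplicit false

namespace Pool.Agent.Helper94.UR

open Topology

/-- Convex quadratic functions on a vector space: the value, the derivative and the quadratic
part. -/
structure CQ (E : Type*) [AddCommGroup E] [Module ℝ E] where
  val : E → ℝ
  der : E → E →ₗ[ℝ] ℝ
  quad : E → ℝ
  expand : ∀ x v, val (x + v) = val x + der x v + quad v
  quad_nonneg : ∀ v, 0 ≤ quad v
  quad_smul : ∀ (t : ℝ) v, quad (t • v) = t ^ 2 * quad v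

variable {E : Type*} [AddCommGroup E] [Module ℝ E] {K : Type*}

/-- strict feasibility of the reversed constraints -/
def SF (q : K → CQ E) (T : Finset K) : Prop := ∃ y, ∀ k ∈ T, (q k).val y < 0

/-- the conditions of Karush, Kuhn and Tucker for the minimum of `f` under the reversed
constraints `q k ≤ 0`, `k ∈ T` -/
def KKT (f : CQ E) (q : K → CQ E) (T : Finset K) (x : E) (ω : K → ℝ) : Prop :=
  (∀ k ∈ T, 0 ≤ ω k) ∧ f.der x + ∑ k ∈ T, ω k • (q k).der x = 0 ∧
    ∀ k ∈ T, (q k).val x ≤ 0 ∧ ω k * (q k).val x = 0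

/-- the certificate for the failure of strict feasibility -/
def NSF (q : K → CQ E) (T : Finset K) : Prop :=
  ∃ (ω : K → ℝ) (x : E), (∀ k ∈ T, 0 ≤ ω k) ∧ ∑ k ∈ T, ω k = 1 ∧
    ∑ k ∈ T, ω k • (q k).der x = 0 ∧ 0 ≤ ∑ k ∈ T, ω k * (q k).val x

end Pool.Agent.Helper94.UR
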