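import Pool.Agent.Helper94.UR.Real
import Pool.Agent.Helper94.UR.CQ

/-!
# The constraints of a packing are convex quadratic functions
-/

set_option autoImplicit false

namespace Pool.Agent.Helper94.UR

open Pool.Agent.Helper20.Flip Topology

/-- extension of a family of `m` points by `(0, 0)` -/
def ext0 {m : ℕ} (x : Fin m → Pt) : ℕ → Pt := fun l => if h : l < m then x ⟨l, h⟩ else (0, 0)

/-- the sum of the squares of the coordinates -/
noncomputable def fCQ (m : ℕ) : CQ (Fin m → Pt) where
  val x := ∑ l, ((x l).1 ^ 2 + (x l).2 ^ 2)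
  der x := ∑ l, ((2 * (x l).1) • ((LinearMap.fst ℝ ℝ ℝ).comp (LinearMap.proj l)) +
    (2 * (x l).2) • ((LinearMap.snd ℝ ℝ ℝ).comp (LinearMap.proj l)))
  quad v := ∑ l, ((v l).1 ^ 2 + (v l).2 ^ 2)
  expand := by
    intro x v
    rw [LinearMap.sum_apply, ← Finset.sum_add_distrib, ← Finset.sum_add_distrib]
    refine Finset.sum_congr rfl fun l _ => ?_
    simp only [Pi.add_apply, Prod.fst_add, Prod.snd_add, LinearMap.add_apply,
      LinearMap.smul_apply, LinearMap.comp_apply, LinearMap.proj_apply, LinearMap.fst_apply,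
      LinearMap.snd_apply, smul_eq_mul]
    ring
  quad_nonneg := fun v => Finset.sum_nonneg fun l _ => by positivity
  quad_smul := by
    intro t v
    rw [Finset.mul_sum]
    refine Finset.sum_congr rfl fun l _ => ?_
    simp only [Pi.smul_apply, Prod.smul_fst, Prod.smul_snd, smul_eq_mul]
    ring

private theorem ext0_val {m : ℕ} (x : Fin m → Pt) (i : Fin m) : ext0 x (i : ℕ) = x i := by
  simp [ext0]

/-- the gradient form -/
private noncomputable def gform (m : ℕ) (g : Fin m → Pt) : (Fin m → Pt) →ₗ[ℝ] ℝ :=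
  ∑ l : Fin m, ((g l).1 • ((LinearMap.fst ℝ ℝ ℝ).comp (LinearMap.proj l)) +
    (g l).2 • ((LinearMap.snd ℝ ℝ ℝ).comp (LinearMap.proj l)))

private theorem gform_apply (m : ℕ) (g v : Fin m → Pt) :
    gform m g v = ∑ l, ((g l).1 * (v l).1 + (g l).2 * (v l).2) := by
  simp [gform, LinearMap.sum_apply]

/-- kind 0 -/
private theorem con0 {n m : ℕ} (V : ℕ → Pt) (ρ : ℕ → ℝ) (i j : Fin m) (hij : i ≠ j) :
    ∃ q : CQ (Fin m → Pt), Continuous q.val ∧
      (∀ x, q.val x = qR n V ρ (ext0 x) (0, (i : ℕ), (j : ℕ))) ∧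
      ∀ x, q.der x = gform m fun l => gR n V (ext0 x) (0, (i : ℕ), (j : ℕ)) l := by
  refine ⟨{ val := fun x => d2 (x i) (x j) - 4
            der := fun x => gform m fun l => gR n V (ext0 x) (0, (i : ℕ), (j : ℕ)) l
            quad := fun v => d2 (v i) (v j)
            expand := ?_
            quad_nonneg := ?_
            quad_smul := ?_ }, ?_, ?_, ?_⟩
  · intro x v
    have h1 : gform m (fun l : Fin m => gR n V (ext0 x) (0, (i : ℕ), (j : ℕ)) l) v =
        2 * ((x i).1 - (x j).1) * (v i).1 + 2 * ((x i).2 - (x j).2) * (v i).2 +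
          (2 * ((x j).1 - (x i).1) * (v j).1 + 2 * ((x j).2 - (x i).2) * (v j).2) := by
      rw [gform_apply]
      rw [Fintype.sum_eq_add i j hij]
      · have hji : ¬ ((j : ℕ) = (i : ℕ)) := fun h => hij (Fin.ext h.symm)
        simp only [gR, ext0_val, if_true, if_neg hji]
      · intro l hl
        have h2 : ¬ ((l : ℕ) = (i : ℕ)) := fun h => hl.1 (Fin.ext h)
        have h3 : ¬ ((l : ℕ) = (j : ℕ)) := fun h => hl.2 (Fin.ext h)
        simp [gR, h2, h3]
    rw [h1]
    simp only [d2, Pi.add_apply, Prod.fst_add, Prod.snd_add]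
    ring
  · intro v
    simp only [d2]
    positivity
  · intro t v
    simp only [d2, Pi.smul_apply, Prod.smul_fst, Prod.smul_snd, smul_eq_mul]
    ring
  · simp only [d2]
    fun_prop
  · intro x
    simp [qR, ext0_val]
  · intro x
    rfl

/-- kinds 1 to 5 -/
private theorem con1 {n m : ℕ} (V : ℕ → Pt) (ρ : ℕ → ℝ) (k a : ℕ) (hk : k ≠ 0) (i : Fin m) :
    ∃ q : CQ (Fin m → Pt), Continuous q.val ∧
      (∀ x, q.val x = qR n V ρ (ext0 x) (k, (i : ℕ), a)) ∧
      ∀ x, q.der x = gform m fun l => gR n V (ext0 x) (k, (i : ℕ), a) l := by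
  refine ⟨{ val := fun x => (if k = 1 then d2 (x i) (rr n V k a) else 0) +
              (((rα n V k a).1 * ((x i).1 - (rr n V k a).1) +
                (rα n V k a).2 * ((x i).2 - (rr n V k a).2)) - re ρ k a)
            der := fun x => gform m fun l => gR n V (ext0 x) (k, (i : ℕ), a) l
            quad := fun v => if k = 1 then (v i).1 ^ 2 + (v i).2 ^ 2 else 0
            expand := ?_
            quad_nonneg := ?_
            quad_smul := ?_ }, ?_, ?_, ?_⟩
  · intro x v
    have h1 : gform m (fun l : Fin m => gR n V (ext0 x) (k, (i : ℕ), a) l) v =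
        ((if k = 1 then 2 * ((x i).1 - (rr n V k a).1) else 0) + (rα n V k a).1) * (v i).1 +
          ((if k = 1 then 2 * ((x i).2 - (rr n V k a).2) else 0) + (rα n V k a).2) *
            (v i).2 := by
      rw [gform_apply]
      rw [Fintype.sum_eq_single i]
      · simp only [gR, ext0_val, if_neg hk, if_true]
      · intro l hl
        have h2 : ¬ ((l : ℕ) = (i : ℕ)) := fun h => hl (Fin.ext h)
        simp [gR, h2, hk]
    rw [h1]
    by_cases h : k = 1
    · simp only [h, if_true, d2, Pi.add_apply, Prod.fst_add, Prod.snd_add]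
      ring
    · simp only [if_neg h, Pi.add_apply, Prod.fst_add, Prod.snd_add]
      ring
  · intro v
    split_ifs
    · positivity
    · exact le_rfl
  · intro t v
    split_ifs
    · simp only [Pi.smul_apply, Prod.smul_fst, Prod.smul_snd, smul_eq_mul]
      ring
    · ring
  · by_cases h : k = 1
    · simp only [h, if_true, d2]
      fun_prop
    · simp only [if_neg h]
      fun_prop
  · intro x
    simp only [qR, ext0_val, if_neg hk]
  · intro x
    rfl

/-- every valid constraint is a convex quadratic function with the given gradient -/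
theorem exists_conCQ {n m : ℕ} (V : ℕ → Pt) (ρ : ℕ → ℝ) {c : Con} (hc : c.Valid n m) :
    ∃ q : CQ (Fin m → Pt), Continuous q.val ∧ (∀ x, q.val x = qR n V ρ (ext0 x) c) ∧
      ∀ x, q.der x = ∑ l : Fin m,
        ((gR n V (ext0 x) c l).1 • ((LinearMap.fst ℝ ℝ ℝ).comp (LinearMap.proj l)) +
          (gR n V (ext0 x) c l).2 • ((LinearMap.snd ℝ ℝ ℝ).comp (LinearMap.proj l))) := by
  obtain ⟨k, i, j⟩ := c
  rcases hc with ⟨h0, hi, hj, hij⟩ | ⟨h1, h2, hi, hj⟩
  · simp only at h0 hi hj hij
    subst h0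
    exact con0 V ρ (⟨i, hi⟩ : Fin m) ⟨j, hj⟩ fun h => hij (congrArg Fin.val h)
  · simp only at h1 h2 hi hj
    exact con1 V ρ k j (by omega) (⟨i, hi⟩ : Fin m)

end Pool.Agent.Helper94.UR
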