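import Pool.Agent.Helper94.UR.CQ

/-!
# Basic properties of convex quadratic functions
-/

set_option autoImplicit false

namespace Pool.Agent.Helper94.UR

variable {E : Type*} [AddCommGroup E] [Module ℝ E]

theorem CQ.quad_zero (q : CQ E) : q.quad 0 = 0 := by
  have := q.quad_smul 0 0
  simpa using this

theorem CQ.expand' (q : CQ E) (x y : E) : q.val y = q.val x + q.der x (y - x) + q.quad (y - x) := by
  have := q.expand x (y - x)
  rwa [add_sub_cancel] at this

/-- the values along a line -/
theorem CQ.line (q : CQ E) (x v : E) (t : ℝ) :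
    q.val (x + t • v) = q.val x + t * q.der x v + t ^ 2 * q.quad v := by
  rw [q.expand, q.quad_smul, map_smul, smul_eq_mul]

theorem CQ.convexOn (q : CQ E) : ConvexOn ℝ Set.univ q.val := by
  refine ⟨convex_univ, ?_⟩
  intro x _ y _ a b ha hb hab
  have e1 : a • x + b • y = x + b • (y - x) := by
    have : a = 1 - b := by linarith
    subst this
    rw [sub_smul, one_smul, smul_sub]
    abel
  have h2 := q.expand' x y
  rw [e1, q.line, smul_eq_mul, smul_eq_mul, h2]
  have h3 := q.quad_nonneg (y - x)
  have e2 : a = 1 - b := by linarith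
  subst e2
  have h4 : 0 ≤ b * (1 - b) * q.quad (y - x) := mul_nonneg (mul_nonneg hb ha) h3
  nlinarith

theorem CQ.der_add (q : CQ E) (x v w : E) :
    q.der (x + v) w = q.der x w + (q.quad (v + w) - q.quad v - q.quad w) := by
  have h1 := q.expand (x + v) w
  have h2 := q.expand x (v + w)
  have h3 := q.expand x v
  rw [map_add] at h2
  rw [add_assoc, h2, h3] at h1
  linarith

/-- The derivative is an affine function: its linear part is a symmetric bilinear map. -/
theorem CQ.exists_bilin (q : CQ E) : ∃ B : E →ₗ[ℝ] E →ₗ[ℝ] ℝ, (∀ v w, B v w = B w v) ∧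
    (∀ x v, q.der (x + v) = q.der x + B v) ∧ ∀ v, B v v = 2 * q.quad v := by
  have hb : ∀ v w, q.quad (v + w) - q.quad v - q.quad w = (q.der v - q.der 0) w := by
    intro v w
    have := q.der_add 0 v w
    rw [zero_add] at this
    rw [LinearMap.sub_apply]
    linarith
  have hs : ∀ v w, (q.der v - q.der 0) w = (q.der w - q.der 0) v := by
    intro v w
    rw [← hb, ← hb, add_comm v w]
    ring
  refine ⟨LinearMap.mk₂ ℝ (fun v w => (q.der v - q.der 0) w) ?_ ?_ ?_ ?_, ?_, ?_, ?_⟩
  · intro v v' w
    rw [hs, map_add, hs w v, hs w v']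
  · intro c v w
    rw [hs, map_smul, hs w v]
  · intro v w w'
    rw [map_add]
  · intro c v w
    rw [map_smul]
  · intro v w
    exact hs v w
  · intro x v
    ext w
    rw [LinearMap.add_apply, LinearMap.mk₂_apply, ← hb, q.der_add]
  · intro v
    rw [LinearMap.mk₂_apply, ← hb]
    have : q.quad (v + v) = 4 * q.quad v := by
      rw [← two_smul ℝ v, q.quad_smul]
      norm_num
    rw [this]
    ring

end Pool.Agent.Helper94.UR
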