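import Pool.Agent.Helper94.UR.Alt
import Pool.Agent.Helper94.UR.Basic

/-!
# Existence and uniqueness of the points satisfying the conditions of Karush, Kuhn and Tucker
-/

set_option autoImplicit false

namespace Pool.Agent.Helper94.UR

private theorem lin_zero {D Q : ℝ} (hQ : 0 ≤ Q) (h : ∀ t : ℝ, 0 ≤ t * D + t ^ 2 * Q) : D = 0 := by
  by_contra hD
  have h1 := h (-D / (Q + 1))
  have hQ1 : (0 : ℝ) < Q + 1 := by linarith
  have h2 : -D / (Q + 1) * D + (-D / (Q + 1)) ^ 2 * Q = -(D ^ 2 / (Q + 1) ^ 2) := by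
    field_simp
    ring
  rw [h2] at h1
  have h3 : 0 < D ^ 2 / (Q + 1) ^ 2 := by positivity
  linarith

/-- Under strict feasibility there is a point with multipliers. -/
theorem exists_kkt {E : Type*} [NormedAddCommGroup E] [NormedSpace ℝ E] {K : Type*} {f : CQ E}
    (hfc : Continuous f.val) (hcomp : ∀ r, IsCompact {x : E | f.val x ≤ r}) {q : K → CQ E}
    (hqc : ∀ k, Continuous (q k).val) {T : Finset K} (h : SF q T) : ∃ x ω, KKT f q T x ω := by
  obtain ⟨y, hy⟩ := h
  -- the minimum of `f` under the constraints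
  obtain ⟨x, hxK, hxmin⟩ : ∃ x, (∀ k ∈ T, (q k).val x ≤ 0) ∧
      ∀ z, (∀ k ∈ T, (q k).val z ≤ 0) → f.val x ≤ f.val z := by
    have hcl : IsClosed {x : E | ∀ k ∈ T, (q k).val x ≤ 0} := by
      have : {x : E | ∀ k ∈ T, (q k).val x ≤ 0} = ⋂ k ∈ T, {x : E | (q k).val x ≤ 0} := by
        ext x
        simp
      rw [this]
      exact isClosed_biInter fun k _ => isClosed_le (hqc k) continuous_const
    have hK : IsCompact ({x : E | f.val x ≤ f.val y} ∩ {x : E | ∀ k ∈ T, (q k).val x ≤ 0}) :=
      (hcomp _).inter_right hcl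
    have hne : ({x : E | f.val x ≤ f.val y} ∩ {x : E | ∀ k ∈ T, (q k).val x ≤ 0}).Nonempty :=
      ⟨y, le_refl (f.val y), fun k hk => (hy k hk).le⟩
    obtain ⟨x, ⟨hx1, hx2⟩, hx3⟩ := hK.exists_isMinOn hne hfc.continuousOn
    refine ⟨x, hx2, fun z hz => ?_⟩
    by_cases hzy : f.val z ≤ f.val y
    · exact hx3 ⟨hzy, hz⟩
    · exact hx1.trans (not_le.mp hzy).le
  -- the alternatives
  obtain ⟨ω, hω0, hω1, hω2⟩ := alternatives (Finset.insertNone T)
    (fun o : Option K => o.elim (fun z => f.val z - f.val x) fun k => (q k).val) (by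
      rintro (_ | k) _
      · have := f.convexOn.add_const (-f.val x)
        simp only [Option.elim, sub_eq_add_neg]
        exact this
      · exact (q k).convexOn) (by
      rintro ⟨z, hz⟩
      have h1 := hz none (by simp)
      have h2 := hxmin z fun k hk => (hz (some k) (by simpa using hk)).le
      simp only [Option.elim] at h1
      linarith)
  simp only [Finset.sum_insertNone, Option.elim] at hω1 hω2
  have hμ0 : 0 ≤ ω none := hω0 none (by simp)
  have hω0' : ∀ k ∈ T, 0 ≤ ω (some k) := fun k hk => hω0 (some k) (by simpa using hk)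
  have hμ : 0 < ω none := by
    rcases hμ0.lt_or_eq with h0 | h0
    · exact h0
    · exfalso
      rw [← h0, zero_add] at hω1
      have h1 := hω2 y
      rw [← h0, zero_mul, zero_add] at h1
      obtain ⟨k, hk, hk0⟩ : ∃ k ∈ T, ω (some k) ≠ 0 := by
        by_contra hcon
        push Not at hcon
        rw [Finset.sum_eq_zero hcon] at hω1
        exact zero_ne_one hω1
      have h2 : ∑ k ∈ T, ω (some k) * (q k).val y < ∑ k ∈ T, (0 : ℝ) :=
        Finset.sum_lt_sum (fun k hk => mul_nonpos_of_nonneg_of_nonpos (hω0' k hk) (hy k hk).le)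
          ⟨k, hk, mul_neg_of_pos_of_neg (lt_of_le_of_ne (hω0' k hk) (Ne.symm hk0)) (hy k hk)⟩
      simp only [Finset.sum_const_zero] at h2
      linarith
  have hcomp0 : ∀ k ∈ T, ω (some k) * (q k).val x = 0 := by
    have h1 := hω2 x
    rw [sub_self, mul_zero, zero_add] at h1
    have hnp : ∀ k ∈ T, ω (some k) * (q k).val x ≤ 0 := fun k hk =>
      mul_nonpos_of_nonneg_of_nonpos (hω0' k hk) (hxK k hk)
    have h2 : ∑ k ∈ T, ω (some k) * (q k).val x = 0 :=
      le_antisymm (Finset.sum_nonpos hnp) h1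
    exact (Finset.sum_eq_zero_iff_of_nonpos hnp).mp h2
  have hder : ∀ v, ω none * f.der x v + ∑ k ∈ T, ω (some k) * (q k).der x v = 0 := by
    intro v
    refine lin_zero (Q := ω none * f.quad v + ∑ k ∈ T, ω (some k) * (q k).quad v) ?_ fun t => ?_
    · exact add_nonneg (mul_nonneg hμ0 (f.quad_nonneg v))
        (Finset.sum_nonneg fun k hk => mul_nonneg (hω0' k hk) ((q k).quad_nonneg v))
    · have h1 := hω2 (x + t • v)
      have h2 : ω none * (f.val (x + t • v) - f.val x) +
          ∑ k ∈ T, ω (some k) * (q k).val (x + t • v)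
          = t * (ω none * f.der x v + ∑ k ∈ T, ω (some k) * (q k).der x v) +
            t ^ 2 * (ω none * f.quad v + ∑ k ∈ T, ω (some k) * (q k).quad v) +
            ∑ k ∈ T, ω (some k) * (q k).val x := by
        rw [f.line]
        simp only [(q _).line]
        rw [mul_add t, mul_add (t ^ 2), Finset.mul_sum, Finset.mul_sum]
        have : ∑ k ∈ T, ω (some k) * ((q k).val x + t * (q k).der x v + t ^ 2 * (q k).quad v)
            = ∑ k ∈ T, t * (ω (some k) * (q k).der x v) +
              ∑ k ∈ T, t ^ 2 * (ω (some k) * (q k).quad v) +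
              ∑ k ∈ T, ω (some k) * (q k).val x := by
          rw [← Finset.sum_add_distrib, ← Finset.sum_add_distrib]
          exact Finset.sum_congr rfl fun k _ => by ring
        rw [this]
        ring
      rw [h2, Finset.sum_eq_zero hcomp0, add_zero] at h1
      exact h1
  refine ⟨x, fun k => ω (some k) / ω none, fun k hk => div_nonneg (hω0' k hk) hμ0, ?_,
    fun k hk => ⟨hxK k hk, ?_⟩⟩
  · ext v
    have h1 := hder v
    simp only [LinearMap.add_apply, LinearMap.coe_sum, Finset.sum_apply, LinearMap.smul_apply,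
      smul_eq_mul, LinearMap.zero_apply]
    have h2 : ∑ k ∈ T, ω (some k) / ω none * (q k).der x v
        = (∑ k ∈ T, ω (some k) * (q k).der x v) / ω none := by
      rw [Finset.sum_div]
      exact Finset.sum_congr rfl fun k _ => by ring
    rw [h2, ← mul_right_inj' hμ.ne', mul_add, mul_div_cancel₀ _ hμ.ne', mul_zero]
    exact h1
  · rw [div_mul_eq_mul_div, hcomp0 k hk, zero_div]

private theorem kkt_le {E : Type*} [AddCommGroup E] [Module ℝ E] {K : Type*} {f : CQ E}
    {q : K → CQ E} {T : Finset K} {x z : E} {ω : K → ℝ} (h : KKT f q T x ω)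
    (hz : ∀ k ∈ T, (q k).val z ≤ 0) : f.val x + f.quad (z - x) ≤ f.val z := by
  obtain ⟨h0, hd, hc⟩ := h
  have hd' := congrArg (fun l : E →ₗ[ℝ] ℝ => l (z - x)) hd
  simp only [LinearMap.add_apply, LinearMap.coe_sum, Finset.sum_apply, LinearMap.smul_apply,
    smul_eq_mul, LinearMap.zero_apply] at hd'
  have h1 : ∑ k ∈ T, ω k * (q k).val z ≤ 0 :=
    Finset.sum_nonpos fun k hk => mul_nonpos_of_nonneg_of_nonpos (h0 k hk) (hz k hk)
  have h2 : ∑ k ∈ T, ω k * (q k).val z
      = ∑ k ∈ T, ω k * (q k).der x (z - x) + ∑ k ∈ T, ω k * (q k).quad (z - x) := by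
    rw [← Finset.sum_add_distrib]
    refine Finset.sum_congr rfl fun k hk => ?_
    rw [(q k).expand' x z, mul_add, mul_add, (hc k hk).2, zero_add]
  have h3 : 0 ≤ ∑ k ∈ T, ω k * (q k).quad (z - x) :=
    Finset.sum_nonneg fun k hk => mul_nonneg (h0 k hk) ((q k).quad_nonneg _)
  have h4 := f.expand' x z
  linarith

/-- The point is unique. -/
theorem kkt_unique {E : Type*} [AddCommGroup E] [Module ℝ E] {K : Type*} {f : CQ E}
    (hf : ∀ v, v ≠ 0 → 0 < f.quad v) {q : K → CQ E} {T : Finset K} {x x' : E} {ω ω' : K → ℝ}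
    (h : KKT f q T x ω) (h' : KKT f q T x' ω') : x = x' := by
  by_contra hne
  have h1 := kkt_le h fun k hk => (h'.2.2 k hk).1
  have h2 := kkt_le h' fun k hk => (h.2.2 k hk).1
  have h3 := hf (x' - x) (sub_ne_zero.mpr (Ne.symm hne))
  have h4 := f.quad_nonneg (x - x')
  linarith

end Pool.Agent.Helper94.UR
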