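import Pool.Agent.Helper94.UR.Alt
import Pool.Agent.Helper94.UR.Basic

/-!
# Strict feasibility has a certificate for its failure
-/

set_option autoImplicit false

namespace Pool.Agent.Helper94.UR

private theorem nsf_not_sf {E : Type*} [AddCommGroup E] [Module ℝ E] {K : Type*}
    (q : K → CQ E) (T : Finset K) (h : NSF q T) : ¬ SF q T := by
  obtain ⟨ω, x, hω, hs, hd, hv⟩ := h
  rintro ⟨y, hy⟩
  have h1 : ∑ k ∈ T, ω k * (q k).val y = ∑ k ∈ T, ω k * (q k).val x +
      (∑ k ∈ T, ω k • (q k).der x) (y - x) + ∑ k ∈ T, ω k * (q k).quad (y - x) := by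
    rw [LinearMap.sum_apply, ← Finset.sum_add_distrib, ← Finset.sum_add_distrib]
    apply Finset.sum_congr rfl
    intro k _
    rw [(q k).expand' x y, LinearMap.smul_apply, smul_eq_mul]
    ring
  rw [hd, LinearMap.zero_apply, add_zero] at h1
  have h2 : 0 ≤ ∑ k ∈ T, ω k * (q k).quad (y - x) :=
    Finset.sum_nonneg fun k hk => mul_nonneg (hω k hk) ((q k).quad_nonneg _)
  have h3 : ∑ k ∈ T, ω k * (q k).val y < 0 := by
    have h4 : ∃ k ∈ T, 0 < ω k := by
      by_contra hc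
      push Not at hc
      have : ∑ k ∈ T, ω k ≤ 0 := Finset.sum_nonpos hc
      linarith
    obtain ⟨k, hk, hpos⟩ := h4
    apply Finset.sum_neg'
    · intro i hi
      exact mul_nonpos_of_nonneg_of_nonpos (hω i hi) (hy i hi).le
    · exact ⟨k, hk, mul_neg_of_pos_of_neg hpos (hy k hk)⟩
  linarith

private theorem mem_range_of_symm {E : Type*} [AddCommGroup E] [Module ℝ E]
    [FiniteDimensional ℝ E] (A : E →ₗ[ℝ] E →ₗ[ℝ] ℝ) (hA : ∀ v w, A v w = A w v)
    (φ : E →ₗ[ℝ] ℝ) (hφ : ∀ v, A v = 0 → φ v = 0) : ∃ v, A v = φ := by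
  have h1 : φ ∈ LinearMap.range (LinearMap.dualMap (R := ℝ) (M₁ := E) (M₂ := Module.Dual ℝ E) A) := by
    rw [LinearMap.range_dualMap_eq_dualAnnihilator_ker, Submodule.mem_dualAnnihilator]
    intro w hw
    exact hφ w (LinearMap.mem_ker.1 hw)
  obtain ⟨ψ, hψ⟩ := h1
  obtain ⟨v, hv⟩ := (Module.evalEquiv ℝ E).surjective ψ
  refine ⟨v, ?_⟩
  ext w
  rw [← hψ, ← hv, LinearMap.dualMap_apply, Module.evalEquiv_apply, Module.Dual.eval_apply]
  exact hA v w

/-- Strict feasibility fails iff there is a certificate. -/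
theorem not_sf_iff {E : Type*} [AddCommGroup E] [Module ℝ E] [FiniteDimensional ℝ E] {K : Type*}
    (q : K → CQ E) (T : Finset K) : ¬ SF q T ↔ NSF q T := by
  refine ⟨?_, nsf_not_sf q T⟩
  intro h
  obtain ⟨ω, hω, hs, hG⟩ := alternatives T (fun k => (q k).val)
    (fun k _ => (q k).convexOn) h
  choose B hB1 hB2 hB3 using fun k => (q k).exists_bilin
  set A : E →ₗ[ℝ] E →ₗ[ℝ] ℝ := ∑ k ∈ T, ω k • B k with hAdef
  have hAapp : ∀ v w, A v w = ∑ k ∈ T, ω k * B k v w := by
    intro v w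
    rw [hAdef, LinearMap.sum_apply, LinearMap.sum_apply]
    rfl
  have hAs : ∀ v w, A v w = A w v := by
    intro v w
    rw [hAapp, hAapp]
    exact Finset.sum_congr rfl fun k _ => by rw [hB1]
  have hline : ∀ v (t : ℝ), ∑ k ∈ T, ω k * (q k).val (0 + t • v) =
      ∑ k ∈ T, ω k * (q k).val 0 + t * (∑ k ∈ T, ω k • (q k).der 0) v +
        t ^ 2 * ∑ k ∈ T, ω k * (q k).quad v := by
    intro v t
    rw [LinearMap.sum_apply, Finset.mul_sum, Finset.mul_sum, ← Finset.sum_add_distrib,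
      ← Finset.sum_add_distrib]
    apply Finset.sum_congr rfl
    intro k _
    rw [(q k).line, LinearMap.smul_apply, smul_eq_mul]
    ring
  have hker : ∀ v, A v = 0 → (∑ k ∈ T, ω k • (q k).der 0) v = 0 := by
    intro v hv
    have h0 : ∑ k ∈ T, ω k * (q k).quad v = 0 := by
      have h1 : A v v = 0 := by rw [hv, LinearMap.zero_apply]
      rw [hAapp] at h1
      have h2 : ∑ k ∈ T, ω k * B k v v = 2 * ∑ k ∈ T, ω k * (q k).quad v := by
        rw [Finset.mul_sum]
        exact Finset.sum_congr rfl fun k _ => by rw [hB3]; ring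
      linarith
    by_contra hne
    set d := (∑ k ∈ T, ω k • (q k).der 0) v with hd
    have h3 := hline v (-(∑ k ∈ T, ω k * (q k).val 0 + 1) / d)
    have h4 := hG (0 + (-(∑ k ∈ T, ω k * (q k).val 0 + 1) / d) • v)
    rw [h3, h0, mul_zero, add_zero, ← hd, div_mul_cancel₀ _ hne] at h4
    linarith
  obtain ⟨v, hv⟩ := mem_range_of_symm A hAs _ hker
  refine ⟨ω, -v, hω, hs, ?_, hG _⟩
  have h5 : ∑ k ∈ T, ω k • (q k).der (-v) = ∑ k ∈ T, ω k • (q k).der 0 + A (-v) := by
    rw [hAdef, LinearMap.sum_apply, ← Finset.sum_add_distrib]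
    apply Finset.sum_congr rfl
    intro k _
    have h6 := hB2 k 0 (-v)
    rw [zero_add] at h6
    rw [h6, smul_add, LinearMap.smul_apply]
  rw [h5, map_neg, hv, add_neg_cancel]

end Pool.Agent.Helper94.UR
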