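import Pool.Agent.Helper94.UR.Farkas
import Pool.Agent.Helper94.UR.Alt
import Pool.Agent.Helper94.UR.Basic

/-!
# A point of a compact set described by reversed convex constraints which is the unique solution
of a strictly feasible convex program
-/

set_option autoImplicit false

namespace Pool.Agent.Helper94.UR

open Topology

/-- A family of linear functionals with a minimal multiplier support is strictly feasible. -/
private theorem exists_neg {E : Type*} [AddCommGroup E] [Module ℝ E] {K : Type*}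
    (g : K → E →ₗ[ℝ] ℝ) (h : E →ₗ[ℝ] ℝ) (T : Finset K) (ω : K → ℝ)
    (hω : ∀ k ∈ T, 0 ≤ ω k) (hsum : h + ∑ k ∈ T, ω k • g k = 0)
    (hmin : ∀ T' : Finset K, T' ⊆ T → (∃ ω' : K → ℝ, (∀ k ∈ T', 0 ≤ ω' k) ∧
      h + ∑ k ∈ T', ω' k • g k = 0) → T.card ≤ T'.card) :
    ∃ v, ∀ k ∈ T, g k v < 0 := by
  classical
  by_contra hno
  obtain ⟨μ, hμ, hμ1, hμ2⟩ := alternatives T (fun k v => g k v)
    (fun k _ => (g k).convexOn convex_univ) hno
  have hμ0 : ∑ k ∈ T, μ k • g k = 0 := by
    apply LinearMap.ext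
    intro v
    have h1 := hμ2 v
    have h2 := hμ2 (-v)
    simp only [map_neg, mul_neg, Finset.sum_neg_distrib] at h2
    rw [LinearMap.sum_apply]
    simp only [LinearMap.smul_apply, smul_eq_mul, LinearMap.zero_apply]
    linarith
  set T1 := T.filter fun k => 0 < μ k with hT1
  have hne : T1.Nonempty := by
    by_contra hem
    rw [Finset.not_nonempty_iff_eq_empty] at hem
    have h1 : ∑ k ∈ T, μ k = 0 := by
      refine Finset.sum_eq_zero fun k hk => ?_
      have h2 : k ∉ T1 := by
        rw [hem]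
        exact Finset.notMem_empty k
      rw [hT1, Finset.mem_filter] at h2
      have h3 : ¬ 0 < μ k := fun h3 => h2 ⟨hk, h3⟩
      exact le_antisymm (le_of_not_gt h3) (hμ k hk)
    rw [h1] at hμ1
    exact zero_ne_one hμ1
  obtain ⟨k0, hk0, hk0min⟩ := Finset.exists_min_image T1 (fun k => ω k / μ k) hne
  rw [hT1, Finset.mem_filter] at hk0
  set t : ℝ := ω k0 / μ k0 with ht
  have ht0 : 0 ≤ t := div_nonneg (hω k0 hk0.1) hk0.2.le
  have hzero : ω k0 - t * μ k0 = 0 := by
    rw [ht, div_mul_cancel₀ _ hk0.2.ne', sub_self]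
  have hcard := hmin (T.erase k0) (Finset.erase_subset _ _) ⟨fun k => ω k - t * μ k, ?_, ?_⟩
  · rw [Finset.card_erase_of_mem hk0.1] at hcard
    have := Finset.card_pos.2 ⟨k0, hk0.1⟩
    omega
  · intro k hk
    have hkT := Finset.mem_of_mem_erase hk
    change 0 ≤ ω k - t * μ k
    by_cases hpos : 0 < μ k
    · have h1 := hk0min k (by rw [hT1, Finset.mem_filter]; exact ⟨hkT, hpos⟩)
      have h2 : t * μ k ≤ ω k / μ k * μ k := mul_le_mul_of_nonneg_right h1 hpos.le
      rw [div_mul_cancel₀ _ hpos.ne'] at h2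
      linarith
    · have h1 : μ k = 0 := le_antisymm (le_of_not_gt hpos) (hμ k hkT)
      rw [h1, mul_zero, sub_zero]
      exact hω k hkT
  · have h1 : ∑ k ∈ T.erase k0, (ω k - t * μ k) • g k = ∑ k ∈ T, (ω k - t * μ k) • g k := by
      rw [← Finset.add_sum_erase T (fun k => (ω k - t * μ k) • g k) hk0.1, hzero, zero_smul,
        zero_add]
    rw [h1]
    have h2 : ∑ k ∈ T, (ω k - t * μ k) • g k = ∑ k ∈ T, ω k • g k - t • ∑ k ∈ T, μ k • g k := by
      rw [Finset.smul_sum, ← Finset.sum_sub_distrib]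
      refine Finset.sum_congr rfl fun k _ => ?_
      apply LinearMap.ext
      intro v
      simp only [LinearMap.smul_apply, LinearMap.sub_apply, smul_eq_mul]
      ring
    rw [h2, hμ0, smul_zero, sub_zero]
    exact hsum

/-- The main lemma. `F` is a nonempty compact set described, locally, by the constraints
`0 ≤ (q k).val`, `k ∈ Z`. -/
theorem exists_selection {E : Type*} [NormedAddCommGroup E] [NormedSpace ℝ E]
    [FiniteDimensional ℝ E] {K : Type*} {f : CQ E} (hfc : Continuous f.val)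
    {q : K → CQ E} (hqc : ∀ k, Continuous (q k).val)
    (Z : Finset K) {F : Set E} (hF : IsCompact F) (hne : F.Nonempty)
    (hFq : ∀ x ∈ F, ∀ k ∈ Z, 0 ≤ (q k).val x)
    (hFo : ∀ x ∈ F, ∀ᶠ z in 𝓝 x, (∀ k ∈ Z, 0 ≤ (q k).val z) → z ∈ F) :
    ∃ T, T ⊆ Z ∧ SF q T ∧ ∃ x ∈ F, ∃ ω : K → ℝ, KKT f q T x ω := by
  classical
  obtain ⟨c, hcF, hcmax⟩ := hF.exists_isMaxOn hne hfc.continuousOn
  set T0 := Z.filter fun k => (q k).val c = 0 with hT0
  -- the tight constraints imply that the directional derivative of `f` is nonpositive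
  have hdir : ∀ v, (∀ k ∈ T0, 0 ≤ (q k).der c v) → 0 ≤ (-f.der c) v := by
    intro v hv
    have hline : Filter.Tendsto (fun t : ℝ => c + t • v) (𝓝[>] 0) (𝓝 c) := by
      have h1 : Continuous fun t : ℝ => c + t • v := by fun_prop
      have h2 := h1.tendsto 0
      simp only [zero_smul, add_zero] at h2
      exact h2.mono_left nhdsWithin_le_nhds
    have h1 := hline.eventually (hFo c hcF)
    have h2 : ∀ᶠ t : ℝ in 𝓝[>] 0, ∀ k ∈ Z, 0 ≤ (q k).val (c + t • v) := by
      rw [Filter.eventually_all_finset]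
      intro k hk
      by_cases hk0 : (q k).val c = 0
      · filter_upwards [self_mem_nhdsWithin] with t ht
        have ht' : (0 : ℝ) < t := ht
        rw [CQ.line, hk0, zero_add]
        have h3 := hv k (by rw [hT0, Finset.mem_filter]; exact ⟨hk, hk0⟩)
        have h4 := (q k).quad_nonneg v
        positivity
      · have h3 : 0 < (q k).val c := lt_of_le_of_ne (hFq c hcF k hk) (Ne.symm hk0)
        have h4 := ((hqc k).tendsto c).comp hline
        filter_upwards [h4.eventually (lt_mem_nhds h3)] with t ht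
        exact le_of_lt ht
    have h3 : ∀ᶠ t : ℝ in 𝓝[>] 0, f.der c v ≤ 0 := by
      filter_upwards [h1, h2, self_mem_nhdsWithin] with t ht1 ht2 ht3
      have ht3' : (0 : ℝ) < t := ht3
      have h4 : f.val (c + t • v) ≤ f.val c := hcmax (ht1 ht2)
      rw [CQ.line] at h4
      have h5 := f.quad_nonneg v
      have h6 : t * f.der c v ≤ 0 := by nlinarith [sq_nonneg t, mul_nonneg (sq_nonneg t) h5]
      by_contra hc
      push Not at hc
      have := mul_pos ht3' hc
      linarith
    obtain ⟨t, ht⟩ := h3.exists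
    rw [LinearMap.neg_apply]
    linarith
  obtain ⟨ω0, hω0, hω0s⟩ := farkas T0 (fun k => (q k).der c) (-f.der c) hdir
  have hfam : ((T0.powerset).filter fun T : Finset K => ∃ ω : K → ℝ, (∀ k ∈ T, 0 ≤ ω k) ∧
      f.der c + ∑ k ∈ T, ω k • (q k).der c = 0).Nonempty := by
    refine ⟨T0, ?_⟩
    rw [Finset.mem_filter, Finset.mem_powerset]
    refine ⟨Finset.Subset.refl _, ω0, hω0, ?_⟩
    rw [← hω0s]
    exact add_neg_cancel _
  obtain ⟨T, hT, hTmin⟩ := Finset.exists_min_image _ Finset.card hfam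
  rw [Finset.mem_filter, Finset.mem_powerset] at hT
  obtain ⟨hTT0, ω, hω, hωs⟩ := hT
  have hTZ : T ⊆ Z := hTT0.trans (Finset.filter_subset _ _)
  have htight : ∀ k ∈ T, (q k).val c = 0 := by
    intro k hk
    have := hTT0 hk
    rw [hT0, Finset.mem_filter] at this
    exact this.2
  obtain ⟨v, hv⟩ := exists_neg (fun k => (q k).der c) (f.der c) T ω hω hωs (by
    intro T' hT' hex
    refine hTmin T' ?_
    rw [Finset.mem_filter, Finset.mem_powerset]
    exact ⟨hT'.trans hTT0, hex⟩)
  refine ⟨T, hTZ, ?_, c, hcF, ω, hω, hωs, fun k hk => ⟨(htight k hk).le, ?_⟩⟩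
  · have h1 : ∀ᶠ t : ℝ in 𝓝[>] 0, ∀ k ∈ T, (q k).val (c + t • v) < 0 := by
      rw [Filter.eventually_all_finset]
      intro k hk
      have h2 : Filter.Tendsto (fun t : ℝ => (q k).der c v + t * (q k).quad v) (𝓝[>] 0)
          (𝓝 ((q k).der c v)) := by
        have h3 : Continuous fun t : ℝ => (q k).der c v + t * (q k).quad v := by fun_prop
        have h4 := h3.tendsto 0
        simp only [zero_mul, add_zero] at h4
        exact h4.mono_left nhdsWithin_le_nhds
      filter_upwards [h2.eventually (gt_mem_nhds (hv k hk)), self_mem_nhdsWithin] with t ht ht0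
      have ht0' : (0 : ℝ) < t := ht0
      rw [CQ.line, htight k hk, zero_add]
      have h5 := mul_neg_of_pos_of_neg ht0' ht
      have h6 : t * (q k).der c v + t ^ 2 * (q k).quad v =
          t * ((q k).der c v + t * (q k).quad v) := by ring
      rw [h6]
      exact h5
    obtain ⟨t, ht⟩ := h1.exists
    exact ⟨c + t • v, ht⟩
  · rw [htight k hk, mul_zero]

end Pool.Agent.Helper94.UR
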