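import Pool.Agent.Helper94.UR.AppA
import Pool.Agent.Helper94.UR.Nsf
import Pool.Agent.Helper94.UR.Kkt
import Pool.Agent.Helper94.UR.Rc

/-!
# The reversed program of a packing
-/

set_option autoImplicit false

namespace Pool.Agent.Helper94.UR

open Pool.Agent.Helper20.Flip Topology

/-- the linear functional with the given coefficients -/
private noncomputable def lin {m : ℕ} (g : Fin m → Pt) : (Fin m → Pt) →ₗ[ℝ] ℝ :=
  ∑ l : Fin m, ((g l).1 • ((LinearMap.fst ℝ ℝ ℝ).comp (LinearMap.proj l)) +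
    (g l).2 • ((LinearMap.snd ℝ ℝ ℝ).comp (LinearMap.proj l)))

private theorem lin_apply {m : ℕ} (g v : Fin m → Pt) :
    lin g v = ∑ l, ((g l).1 * (v l).1 + (g l).2 * (v l).2) := by
  simp [lin, LinearMap.sum_apply]

private theorem lin_eq_zero_iff {m : ℕ} {g : Fin m → Pt} :
    lin g = 0 ↔ ∀ l, (g l).1 = 0 ∧ (g l).2 = 0 := by
  constructor
  · intro h l
    have h1 : ∀ v, lin g v = 0 := fun v => by rw [h]; rfl
    have h2 := h1 g
    rw [lin_apply] at h2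
    have h3 := (Finset.sum_eq_zero_iff_of_nonneg (fun l (_ : l ∈ Finset.univ) => by
      nlinarith [mul_self_nonneg (g l).1, mul_self_nonneg (g l).2])).1 h2 l (Finset.mem_univ l)
    constructor
    · have : (g l).1 * (g l).1 = 0 := by
        nlinarith [mul_self_nonneg (g l).1, mul_self_nonneg (g l).2]
      exact mul_self_eq_zero.1 this
    · have : (g l).2 * (g l).2 = 0 := by
        nlinarith [mul_self_nonneg (g l).1, mul_self_nonneg (g l).2]
      exact mul_self_eq_zero.1 this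
  · intro h
    refine LinearMap.ext fun v => ?_
    rw [lin_apply]
    simp [(h _).1, (h _).2]

private theorem sum_lin {m : ℕ} (K : Finset ℕ) (ω : ℕ → ℝ) (g : ℕ → Fin m → Pt) :
    ∑ k ∈ K, ω k • lin (g k) = lin fun l => (∑ k ∈ K, ω k * (g k l).1,
      ∑ k ∈ K, ω k * (g k l).2) := by
  refine LinearMap.ext fun v => ?_
  rw [LinearMap.sum_apply, lin_apply]
  simp only [LinearMap.smul_apply, lin_apply, smul_eq_mul, Finset.mul_sum, Finset.sum_mul]
  rw [Finset.sum_comm]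
  refine Finset.sum_congr rfl fun l _ => ?_
  rw [← Finset.sum_add_distrib]
  refine Finset.sum_congr rfl fun k _ => ?_
  ring

private theorem lin_add {m : ℕ} (f g : Fin m → Pt) :
    lin f + lin g = lin fun l => ((f l).1 + (g l).1, (f l).2 + (g l).2) := by
  refine LinearMap.ext fun v => ?_
  rw [LinearMap.add_apply, lin_apply, lin_apply, lin_apply, ← Finset.sum_add_distrib]
  refine Finset.sum_congr rfl fun k _ => ?_
  ring

open Classical in
/-- the convex quadratic functions of the constraints -/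
private noncomputable def qq (n m : ℕ) (V : ℕ → Pt) (ρ : ℕ → ℝ) (Z : ℕ → Con) (k : ℕ) :
    CQ (Fin m → Pt) :=
  if h : (Z k).Valid n m then Classical.choose (exists_conCQ V ρ h) else fCQ m

private theorem continuous_fCQ (m : ℕ) : Continuous (fCQ m).val := by
  change Continuous fun x : Fin m → Pt => ∑ l, ((x l).1 ^ 2 + (x l).2 ^ 2)
  fun_prop

private theorem continuous_qq (n m : ℕ) (V : ℕ → Pt) (ρ : ℕ → ℝ) (Z : ℕ → Con) (k : ℕ) :
    Continuous (qq n m V ρ Z k).val := by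
  unfold qq
  split_ifs with h
  · exact (Classical.choose_spec (exists_conCQ V ρ h)).1
  · exact continuous_fCQ m

private theorem qq_val {n m : ℕ} (V : ℕ → Pt) (ρ : ℕ → ℝ) {Z : ℕ → Con} {k : ℕ}
    (h : (Z k).Valid n m) (x : Fin m → Pt) :
    (qq n m V ρ Z k).val x = qR n V ρ (ext0 x) (Z k) := by
  unfold qq
  rw [dif_pos h]
  exact (Classical.choose_spec (exists_conCQ V ρ h)).2.1 x

private theorem qq_der {n m : ℕ} (V : ℕ → Pt) (ρ : ℕ → ℝ) {Z : ℕ → Con} {k : ℕ}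
    (h : (Z k).Valid n m) (x : Fin m → Pt) :
    (qq n m V ρ Z k).der x = lin fun l : Fin m => gR n V (ext0 x) (Z k) l := by
  unfold qq
  rw [dif_pos h]
  exact (Classical.choose_spec (exists_conCQ V ρ h)).2.2 x

private theorem fCQ_der {m : ℕ} (x : Fin m → Pt) :
    (fCQ m).der x = lin fun l : Fin m => (2 * (x l).1, 2 * (x l).2) := rfl

/-- restriction of a sequence of points to the first `m` points -/
private def res (m : ℕ) (x : ℕ → Pt) : Fin m → Pt := fun l => x l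

private theorem ext0_res {m : ℕ} (x : ℕ → Pt) {l : ℕ} (hl : l < m) : ext0 (res m x) l = x l := by
  simp [ext0, res, hl]

private theorem res_ext0 {m : ℕ} (x : Fin m → Pt) : res m (ext0 x) = x := by
  ext1 l
  simp [ext0, res]

private theorem qR_res {n m : ℕ} (V : ℕ → Pt) (ρ : ℕ → ℝ) (x : ℕ → Pt) {c : Con}
    (hc : c.Valid n m) : qR n V ρ (ext0 (res m x)) c = qR n V ρ x c := by
  rcases hc with ⟨h0, h1, h2, _⟩ | ⟨h1, _, h2, _⟩
  · simp only [qR, if_pos h0, ext0_res x h1, ext0_res x h2]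
  · simp only [qR, ext0_res x h2]
    have : ¬ c.1 = 0 := by omega
    simp only [if_neg this]

private theorem gR_res {n m : ℕ} (V : ℕ → Pt) (x : ℕ → Pt) {c : Con}
    (hc : c.Valid n m) (l : ℕ) : gR n V (ext0 (res m x)) c l = gR n V x c l := by
  rcases hc with ⟨h0, h1, h2, _⟩ | ⟨h1, _, h2, _⟩
  · simp only [gR, if_pos h0, ext0_res x h1, ext0_res x h2]
  · simp only [gR, ext0_res x h2]
    have : ¬ c.1 = 0 := by omega
    simp only [if_neg this]

private theorem qq_res {n m : ℕ} (V : ℕ → Pt) (ρ : ℕ → ℝ) {Z : ℕ → Con} {k : ℕ}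
    (h : (Z k).Valid n m) (x : ℕ → Pt) :
    (qq n m V ρ Z k).val (res m x) = qR n V ρ x (Z k) := by
  rw [qq_val V ρ h, qR_res V ρ x h]

private theorem qq_der_res {n m : ℕ} (V : ℕ → Pt) (ρ : ℕ → ℝ) {Z : ℕ → Con} {k : ℕ}
    (h : (Z k).Valid n m) (x : ℕ → Pt) :
    (qq n m V ρ Z k).der (res m x) = lin fun l : Fin m => gR n V x (Z k) l := by
  rw [qq_der V ρ h]
  congr 1
  ext1 l
  exact gR_res V x h l

private theorem sf_iff {n m : ℕ} (V : ℕ → Pt) (ρ : ℕ → ℝ) (Z : ℕ → Con) (K : Finset ℕ)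
    (hZ : ∀ k ∈ K, (Z k).Valid n m) : SFr n V ρ Z K ↔ SF (qq n m V ρ Z) K := by
  constructor
  · rintro ⟨z, hz⟩
    exact ⟨res m z, fun k hk => by rw [qq_res V ρ (hZ k hk)]; exact hz k hk⟩
  · rintro ⟨y, hy⟩
    exact ⟨ext0 y, fun k hk => by rw [← qq_val V ρ (hZ k hk)]; exact hy k hk⟩

private theorem kktr_iff {n m : ℕ} (V : ℕ → Pt) (ρ : ℕ → ℝ) (Z : ℕ → Con) (K : Finset ℕ)
    (hZ : ∀ k ∈ K, (Z k).Valid n m) (x : ℕ → Pt) (ω : ℕ → ℝ) :
    KKTr n m V ρ Z K x ω ↔ KKT (fCQ m) (qq n m V ρ Z) K (res m x) ω := by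
  have h1 : (fCQ m).der (res m x) + ∑ k ∈ K, ω k • (qq n m V ρ Z k).der (res m x) =
      lin fun l : Fin m => (2 * (x l).1 + ∑ k ∈ K, ω k * (gR n V x (Z k) l).1,
        2 * (x l).2 + ∑ k ∈ K, ω k * (gR n V x (Z k) l).2) := by
    rw [Finset.sum_congr rfl fun k hk => by rw [qq_der_res V ρ (hZ k hk)],
      sum_lin K ω fun k (l : Fin m) => gR n V x (Z k) l, fCQ_der, lin_add]
    rfl
  unfold KKTr KKT
  rw [h1, lin_eq_zero_iff]
  refine and_congr Iff.rfl (and_congr ?_ ?_)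
  · constructor
    · intro h l
      exact h l l.2
    · intro h l hl
      exact h ⟨l, hl⟩
  · refine forall₂_congr fun k hk => ?_
    rw [qq_res V ρ (hZ k hk)]

private theorem nsfr_iff {n m : ℕ} (V : ℕ → Pt) (ρ : ℕ → ℝ) (Z : ℕ → Con) (K : Finset ℕ)
    (hZ : ∀ k ∈ K, (Z k).Valid n m) : NSFr n m V ρ Z K ↔ NSF (qq n m V ρ Z) K := by
  have key : ∀ (x : ℕ → Pt) (ω : ℕ → ℝ), ((∀ k ∈ K, 0 ≤ ω k) ∧ ∑ k ∈ K, ω k = 1 ∧
      (∀ l < m, ∑ k ∈ K, ω k * (gR n V x (Z k) l).1 = 0 ∧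
        ∑ k ∈ K, ω k * (gR n V x (Z k) l).2 = 0) ∧
      0 ≤ ∑ k ∈ K, ω k * qR n V ρ x (Z k)) ↔ ((∀ k ∈ K, 0 ≤ ω k) ∧ ∑ k ∈ K, ω k = 1 ∧
      ∑ k ∈ K, ω k • (qq n m V ρ Z k).der (res m x) = 0 ∧
      0 ≤ ∑ k ∈ K, ω k * (qq n m V ρ Z k).val (res m x)) := by
    intro x ω
    have h1 : ∑ k ∈ K, ω k • (qq n m V ρ Z k).der (res m x) =
        lin fun l : Fin m => (∑ k ∈ K, ω k * (gR n V x (Z k) l).1,
          ∑ k ∈ K, ω k * (gR n V x (Z k) l).2) := by
      rw [Finset.sum_congr rfl fun k hk => by rw [qq_der_res V ρ (hZ k hk)],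
        sum_lin K ω fun k (l : Fin m) => gR n V x (Z k) l]
    rw [h1, lin_eq_zero_iff]
    refine and_congr Iff.rfl (and_congr Iff.rfl (and_congr ?_ ?_))
    · constructor
      · intro h l
        exact h l l.2
      · intro h l hl
        exact h ⟨l, hl⟩
    · have h2 : ∑ k ∈ K, ω k * (qq n m V ρ Z k).val (res m x) =
          ∑ k ∈ K, ω k * qR n V ρ x (Z k) :=
        Finset.sum_congr rfl fun k hk => by rw [qq_res V ρ (hZ k hk)]
      rw [h2]
  constructor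
  · rintro ⟨x, ω, h⟩
    exact ⟨ω, res m x, (key x ω).1 h⟩
  · rintro ⟨ω, x, h⟩
    refine ⟨ext0 x, ω, (key (ext0 x) ω).2 ?_⟩
    rwa [res_ext0]

/-- the failure of strict feasibility has a certificate -/
theorem not_sfr_iff {n m : ℕ} (V : ℕ → Pt) (ρ : ℕ → ℝ) (Z : ℕ → Con) (K : Finset ℕ)
    (hZ : ∀ k ∈ K, (Z k).Valid n m) : ¬ SFr n V ρ Z K ↔ NSFr n m V ρ Z K := by
  rw [sf_iff V ρ Z K hZ, nsfr_iff V ρ Z K hZ]
  exact not_sf_iff _ K

private theorem fCQ_compact (m : ℕ) (r : ℝ) : IsCompact {x : Fin m → Pt | (fCQ m).val x ≤ r} := by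
  refine Metric.isCompact_of_isClosed_isBounded
    (isClosed_le (continuous_fCQ m) continuous_const) ?_
  rw [isBounded_iff_forall_norm_le]
  refine ⟨√ r, fun x hx => ?_⟩
  have hx' : ∑ l, ((x l).1 ^ 2 + (x l).2 ^ 2) ≤ r := hx
  have h1 : ∀ l, (x l).1 ^ 2 + (x l).2 ^ 2 ≤ r := fun l =>
    (Finset.single_le_sum (f := fun l => (x l).1 ^ 2 + (x l).2 ^ 2)
      (fun i _ => by positivity) (Finset.mem_univ l)).trans hx'
  refine (pi_norm_le_iff_of_nonneg (Real.sqrt_nonneg _)).2 fun l => ?_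
  rw [Prod.norm_def]
  refine max_le ?_ ?_
  · rw [Real.norm_eq_abs]
    exact Real.abs_le_sqrt (by nlinarith [h1 l, sq_nonneg (x l).2])
  · rw [Real.norm_eq_abs]
    exact Real.abs_le_sqrt (by nlinarith [h1 l, sq_nonneg (x l).1])

/-- there is a point with multipliers -/
theorem exists_kktr {n m : ℕ} (V : ℕ → Pt) (ρ : ℕ → ℝ) (Z : ℕ → Con) (K : Finset ℕ)
    (hZ : ∀ k ∈ K, (Z k).Valid n m) (h : SFr n V ρ Z K) : ∃ x ω, KKTr n m V ρ Z K x ω := by
  obtain ⟨x, ω, hx⟩ := exists_kkt (continuous_fCQ m) (fCQ_compact m)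
    (continuous_qq n m V ρ Z) ((sf_iff V ρ Z K hZ).1 h)
  refine ⟨ext0 x, ω, (kktr_iff V ρ Z K hZ (ext0 x) ω).2 ?_⟩
  rwa [res_ext0]

private theorem fCQ_quad_pos {m : ℕ} (v : Fin m → Pt) (hv : v ≠ 0) : 0 < (fCQ m).quad v := by
  obtain ⟨l, hl⟩ := Function.ne_iff.1 hv
  have h1 : 0 < (v l).1 ^ 2 + (v l).2 ^ 2 := by
    rcases eq_or_ne (v l).1 0 with h | h
    · have h2 : (v l).2 ≠ 0 := by
        intro h2
        exact hl (Prod.ext h h2)
      positivity
    · positivity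
  exact lt_of_lt_of_le h1 (Finset.single_le_sum (f := fun l => (v l).1 ^ 2 + (v l).2 ^ 2)
    (fun i _ => by positivity) (Finset.mem_univ l))

/-- the point is unique -/
theorem kktr_unique {n m : ℕ} {V : ℕ → Pt} {ρ : ℕ → ℝ} {Z : ℕ → Con} {K : Finset ℕ}
    (hZ : ∀ k ∈ K, (Z k).Valid n m) {x x' : ℕ → Pt} {ω ω' : ℕ → ℝ}
    (h : KKTr n m V ρ Z K x ω) (h' : KKTr n m V ρ Z K x' ω') {l : ℕ} (hl : l < m) :
    x l = x' l := by
  have h1 := kkt_unique fCQ_quad_pos ((kktr_iff V ρ Z K hZ x ω).1 h)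
    ((kktr_iff V ρ Z K hZ x' ω').1 h')
  exact congrFun h1 ⟨l, hl⟩

/-- Points `x l` in a compact set `G` with constraints: some selection `K` of the constraints
gives a strictly feasible reversed program whose solution satisfies all constraints. -/
theorem exists_selr {n m : ℕ} (V : ℕ → Pt) (ρ : ℕ → ℝ) (Z : ℕ → Con) (N : Finset ℕ)
    (hZ : ∀ k ∈ N, (Z k).Valid n m) {G : Set Pt} (hG : IsCompact G)
    (hGo : ∀ x : ℕ → Pt, (∀ k ∈ N, 0 ≤ qR n V ρ x (Z k)) → (∀ l < m, x l ∈ G) →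
      ∀ l < m, G ∈ 𝓝 (x l))
    (hne : ∃ x : ℕ → Pt, (∀ k ∈ N, 0 ≤ qR n V ρ x (Z k)) ∧ ∀ l < m, x l ∈ G) :
    ∃ K, K ⊆ N ∧ SFr n V ρ Z K ∧ ∃ x ω, KKTr n m V ρ Z K x ω ∧
      (∀ k ∈ N, 0 ≤ qR n V ρ x (Z k)) ∧ ∀ l < m, x l ∈ G := by
  set F : Set (Fin m → Pt) := {x | (∀ k ∈ N, 0 ≤ (qq n m V ρ Z k).val x) ∧ ∀ l, x l ∈ G} with hF
  have hFc : IsCompact F := by
    have h1 : IsCompact (Set.pi Set.univ fun _ : Fin m => G) := isCompact_univ_pi fun _ => hG
    have h2 : IsClosed {x : Fin m → Pt | ∀ k ∈ N, 0 ≤ (qq n m V ρ Z k).val x} := by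
      simp only [Set.ofPred_forall]
      exact isClosed_biInter fun k _ => isClosed_le continuous_const (continuous_qq n m V ρ Z k)
    have h3 : F = (Set.pi Set.univ fun _ : Fin m => G) ∩
        {x : Fin m → Pt | ∀ k ∈ N, 0 ≤ (qq n m V ρ Z k).val x} := by
      ext x
      simp only [hF, Set.mem_ofPred_eq, Set.mem_inter_iff, Set.mem_pi, Set.mem_univ, true_imp_iff]
      exact and_comm
    rw [h3]
    exact h1.inter_right h2
  have hFne : F.Nonempty := by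
    obtain ⟨x, hx, hxG⟩ := hne
    exact ⟨res m x, fun k hk => by rw [qq_res V ρ (hZ k hk)]; exact hx k hk, fun l => hxG l l.2⟩
  obtain ⟨K, hK, hsf, x, hx, ω, hkkt⟩ := exists_selection (continuous_fCQ m)
    (continuous_qq n m V ρ Z) N hFc hFne (fun x hx => hx.1) (by
      intro x hx
      have h1 : ∀ l : Fin m, ∀ᶠ z in 𝓝 x, z l ∈ G := by
        intro l
        have h2 : G ∈ 𝓝 (ext0 x l) := by
          refine hGo (ext0 x) (fun k hk => ?_) (fun l' hl' => ?_) l l.2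
          · rw [← qq_val V ρ (hZ k hk)]
            exact hx.1 k hk
          · have : ext0 x l' = x ⟨l', hl'⟩ := by simp [ext0, hl']
            rw [this]
            exact hx.2 _
        have h3 : ext0 x l = x l := by simp [ext0]
        rw [h3] at h2
        exact (continuous_apply l).continuousAt.eventually_mem h2
      filter_upwards [Filter.eventually_all.2 h1] with z hz hzq
      exact ⟨hzq, hz⟩)
  have hKZ : ∀ k ∈ K, (Z k).Valid n m := fun k hk => hZ k (hK hk)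
  refine ⟨K, hK, (sf_iff V ρ Z K hKZ).2 hsf, ext0 x, ω,
    (kktr_iff V ρ Z K hKZ (ext0 x) ω).2 (by rwa [res_ext0]), fun k hk => ?_, fun l hl => ?_⟩
  · rw [← qq_val V ρ (hZ k hk)]
    exact hx.1 k hk
  · have : ext0 x l = x ⟨l, hl⟩ := by simp [ext0, hl]
    rw [this]
    exact hx.2 _

end Pool.Agent.Helper94.UR
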