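import Pool.Agent.Helper94.UR.Defs
import Pool.Agent.Helper96.PolyList

/-!
# Decoding
-/

set_option autoImplicit false

namespace Pool.Agent.Helper94.UR

open Pool.Agent.Helper20.Flip Pool.Agent.Helper96

/-- one step of reading a self-delimiting word -/
private def stepP (s : List Bool × List Bool × Bool) : List Bool × List Bool × Bool :=
  bif s.2.2 then s else
  bif s.2.1.headD false then (s.2.1.tail.headD false :: s.1, s.2.1.tail.tail, false)
  else (s.1, s.2.1.tail, true)

private theorem poly_stepP : Poly stepP := by
  unfold stepP
  fun_prop

private theorem tot_stepP (s : List Bool × List Bool × Bool) :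
    sz (stepP s).1 + sz (stepP s).2.1 ≤ sz s.1 + sz s.2.1 := by
  obtain ⟨acc, rest, done⟩ := s
  have ht : sz true = 3 := rfl
  have hf : sz false = 1 := rfl
  cases done
  · match rest with
    | [] => exact le_rfl
    | [true] =>
      simp only [stepP, List.headD, List.tail, cond_true, cond_false, sz_cons, sz_nil, ht, hf]
      omega
    | true :: b :: r =>
      simp only [stepP, List.headD, List.tail, cond_true, cond_false, sz_cons, ht]
      omega
    | false :: r =>
      simp only [stepP, List.headD, List.tail, cond_false, sz_cons, hf]
      omega
  · exact le_rfl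

private theorem tot_iterP (n : ℕ) (s : List Bool × List Bool × Bool) :
    sz (stepP^[n] s).1 + sz (stepP^[n] s).2.1 ≤ sz s.1 + sz s.2.1 := by
  induction n with
  | zero => exact le_rfl
  | succ n ih =>
    rw [Function.iterate_succ_apply']
    exact (tot_stepP _).trans ih

/-- the decoder of pairs -/
private def decP (w : List Bool) : List Bool × List Bool :=
  ((stepP^[w.length] ([], w, false)).1.reverse, (stepP^[w.length] ([], w, false)).2.1)

private theorem poly_iterP : Poly (fun w : List Bool => stepP^[w.length] ([], w, false)) := by
  refine Poly.iterate (n := fun w : List Bool => w.length)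
    (g := fun w : List Bool => (([] : List Bool), w, false))
    (h := fun _ s => stepP s) (by fun_prop) (by fun_prop)
    (Poly.comp (g := stepP) (f := fun q : List Bool × (List Bool × List Bool × Bool) => q.2)
      poly_stepP (by fun_prop)) (fun n => n + 6) (by fun_prop) ?_
  intro w i _
  have h1 := tot_iterP i ([], w, false)
  simp only [sz_nil] at h1
  have h2 : sz (stepP^[i] ([], w, false)) = sz (stepP^[i] ([], w, false)).1 +
      (sz (stepP^[i] ([], w, false)).2.1 + sz (stepP^[i] ([], w, false)).2.2 + 1) + 1 := rfl
  have h3 := sz_bool_le (stepP^[i] ([], w, false)).2.2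
  show sz (stepP^[i] ([], w, false)) ≤ sz w + 6
  omega

private theorem poly_decP : Poly decP := by
  unfold decP
  have := poly_iterP
  fun_prop

private theorem sz_decP (w : List Bool) : sz (decP w).1 + sz (decP w).2 ≤ sz w + 1 := by
  have h1 := tot_iterP w.length ([], w, false)
  simp only [sz_nil] at h1
  simp only [decP, sz_reverse]
  omega

private theorem iter_done (n : ℕ) (acc rest : List Bool) :
    stepP^[n] (acc, rest, true) = (acc, rest, true) := by
  induction n with
  | zero => rfl
  | succ n ih => rw [Function.iterate_succ_apply]; exact ih

private theorem iter_read (w y acc : List Bool) :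
    stepP^[w.length + 1] (acc, encBits w ++ y, false) = (w.reverse ++ acc, y, true) := by
  induction w generalizing acc with
  | nil => rfl
  | cons b w ih =>
    rw [List.length_cons, Function.iterate_succ_apply]
    have : stepP (acc, encBits (b :: w) ++ y, false) = (b :: acc, encBits w ++ y, false) := rfl
    rw [this, ih]
    simp

private theorem length_encBits (w : List Bool) : (encBits w).length = 2 * w.length + 1 := by
  induction w with
  | nil => rfl
  | cons b w ih =>
    have : encBits (b :: w) = true :: b :: encBits w := rfl
    rw [this, List.length_cons, List.length_cons, ih, List.length_cons]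
    ring

private theorem decP_pair (w y : List Bool) : decP (encBits w ++ y) = (w, y) := by
  have h1 : (encBits w ++ y).length = (w.length + y.length) + (w.length + 1) := by
    rw [List.length_append, length_encBits]; ring
  have h2 : stepP^[(encBits w ++ y).length] ([], encBits w ++ y, false) =
      (w.reverse, y, true) := by
    rw [h1, Function.iterate_add_apply, iter_read, List.append_nil, iter_done]
  simp only [decP, h2, List.reverse_reverse]

theorem exists_decPair : ∃ D : List Bool → List Bool × List Bool, Poly D ∧
    ∀ w y, D (pair w y) = (w, y) :=
  ⟨decP, poly_decP, decP_pair⟩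

/-- the decoder of rational numbers -/
private def decR (w : List Bool) : RatCode × List Bool :=
  ((w.headD false, (decP w.tail).1, (decP (decP w.tail).2).1), (decP (decP w.tail).2).2)

private theorem poly_decR : Poly decR := by
  have h1 : Poly (fun w : List Bool => decP w.tail) := poly_decP.comp (by fun_prop)
  have h2 : Poly (fun w : List Bool => decP (decP w.tail).2) := poly_decP.comp h1.snd
  exact Poly.prodMk (Poly.prodMk (by fun_prop) (Poly.prodMk h1.fst h2.fst)) h2.snd

private theorem sz_decR (w : List Bool) : sz (decR w).1 + sz (decR w).2 ≤ sz w + 6 := by
  have h1 := sz_decP w.tail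
  have h2 := sz_decP (decP w.tail).2
  have h3 : sz w.tail + sz (w.headD false) ≤ sz w + 1 := by
    cases w with
    | nil => exact le_rfl
    | cons b w => simp only [List.tail, List.headD, sz_cons]; omega
  have h4 : sz (decR w).1 = sz (w.headD false) + (sz (decP w.tail).1 +
    sz (decP (decP w.tail).2).1 + 1) + 1 := rfl
  have h5 : (decR w).2 = (decP (decP w.tail).2).2 := rfl
  rw [h4, h5]
  omega

private theorem decR_enc (r : RatCode) (y : List Bool) : decR (encRat r ++ y) = (r, y) := by
  obtain ⟨s, p, q⟩ := r
  have h1 : encRat (s, p, q) ++ y = s :: (encBits p ++ (encBits q ++ y)) := by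
    simp [encRat]
  rw [h1]
  simp only [decR, List.headD, List.tail, decP_pair]

/-- one step of reading a list of vertices -/
private def stepV (s : List (RatCode × RatCode) × List Bool × Bool) :
    List (RatCode × RatCode) × List Bool × Bool :=
  bif s.2.2 then s else
  bif s.2.1.headD false then
    (((decR s.2.1.tail).1, (decR (decR s.2.1.tail).2).1) :: s.1,
      (decR (decR s.2.1.tail).2).2, false)
  else (s.1, s.2.1.tail, true)

private theorem poly_stepV : Poly stepV := by
  have h1 : Poly (fun s : List (RatCode × RatCode) × List Bool × Bool => decR s.2.1.tail) :=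
    poly_decR.comp (by fun_prop)
  have h2 : Poly (fun s : List (RatCode × RatCode) × List Bool × Bool =>
      decR (decR s.2.1.tail).2) := poly_decR.comp h1.snd
  have h3 : Poly (fun s : List (RatCode × RatCode) × List Bool × Bool =>
      (((decR s.2.1.tail).1, (decR (decR s.2.1.tail).2).1) :: s.1,
        (decR (decR s.2.1.tail).2).2, false)) :=
    Poly.prodMk (Poly.cons (Poly.prodMk h1.fst h2.fst) (by fun_prop))
      (Poly.prodMk h2.snd (by fun_prop))
  exact Poly.cond (by fun_prop) (by fun_prop) (Poly.cond (by fun_prop) h3 (by fun_prop))

private theorem tot_stepV (s : List (RatCode × RatCode) × List Bool × Bool) :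
    sz (stepV s).1 + sz (stepV s).2.1 ≤ sz s.1 + sz s.2.1 + 14 := by
  obtain ⟨acc, rest, done⟩ := s
  cases done
  · match rest with
    | [] => exact Nat.le_add_right _ _
    | true :: r =>
      have h1 := sz_decR r
      have h2 := sz_decR (decR r).2
      have h3 : sz (stepV (acc, true :: r, false)).1 =
        (sz (decR r).1 + sz (decR (decR r).2).1 + 1) + sz acc + 1 := rfl
      have h4 : (stepV (acc, true :: r, false)).2.1 = (decR (decR r).2).2 := rfl
      rw [h3, h4]
      simp only [sz_cons]
      omega
    | false :: r =>
      simp only [stepV, List.headD, List.tail, cond_false, sz_cons]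
      omega
  · exact Nat.le_add_right _ _

private theorem tot_iterV (n : ℕ) (s : List (RatCode × RatCode) × List Bool × Bool) :
    sz (stepV^[n] s).1 + sz (stepV^[n] s).2.1 ≤ sz s.1 + sz s.2.1 + 14 * n := by
  induction n with
  | zero => exact le_rfl
  | succ n ih =>
    rw [Function.iterate_succ_apply']
    have := tot_stepV (stepV^[n] s)
    omega

private theorem poly_iterV : Poly (fun w : List Bool =>
    stepV^[w.length] (([] : List (RatCode × RatCode)), w, false)) := by
  refine Poly.iterate (n := fun w : List Bool => w.length)
    (g := fun w : List Bool => (([] : List (RatCode × RatCode)), w, false))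
    (h := fun _ s => stepV s) (by fun_prop) (by fun_prop)
    (Poly.comp (g := stepV)
      (f := fun q : List Bool × (List (RatCode × RatCode) × List Bool × Bool) => q.2)
      poly_stepV (by fun_prop)) (fun n => 15 * n + 6) (by fun_prop) ?_
  intro w i hi
  have h1 := tot_iterV i ([], w, false)
  simp only [sz_nil] at h1
  have h2 : sz (stepV^[i] ([], w, false)) = sz (stepV^[i] ([], w, false)).1 +
      (sz (stepV^[i] ([], w, false)).2.1 + sz (stepV^[i] ([], w, false)).2.2 + 1) + 1 := rfl
  have h3 := sz_bool_le (stepV^[i] ([], w, false)).2.2
  have h4 := length_lt_sz w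
  have hi' : i ≤ w.length := hi
  show sz (stepV^[i] ([], w, false)) ≤ 15 * sz w + 6
  omega

/-- the decoder of instances -/
private def decI (w : List Bool) : List (RatCode × RatCode) × List Bool :=
  ((stepV^[w.length] (([] : List (RatCode × RatCode)), w, false)).1.reverse,
    (decP (stepV^[w.length] (([] : List (RatCode × RatCode)), w, false)).2.1).1)

private theorem poly_decI : Poly decI := by
  have h1 := poly_iterV
  exact Poly.prodMk (Poly.reverse h1.fst) (poly_decP.comp h1.snd.fst).fst

private theorem iterV_done (n : ℕ) (acc : List (RatCode × RatCode)) (rest : List Bool) :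
    stepV^[n] (acc, rest, true) = (acc, rest, true) := by
  induction n with
  | zero => rfl
  | succ n ih => rw [Function.iterate_succ_apply]; exact ih

private theorem encInst_cons (q : RatCode × RatCode) (P : List (RatCode × RatCode))
    (k : List Bool) : encInst (q :: P) k = true :: (encRat q.1 ++ (encRat q.2 ++ encInst P k)) := by
  simp [encInst]

private theorem iterV_read (P : List (RatCode × RatCode)) (k : List Bool)
    (acc : List (RatCode × RatCode)) :
    stepV^[P.length + 1] (acc, encInst P k, false) = (P.reverse ++ acc, encBits k, true) := by
  induction P generalizing acc with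
  | nil => rfl
  | cons q P ih =>
    rw [List.length_cons, Function.iterate_succ_apply]
    have : stepV (acc, encInst (q :: P) k, false) = (q :: acc, encInst P k, false) := by
      rw [encInst_cons]
      simp only [stepV, List.headD, List.tail, cond_true, cond_false, decR_enc]
    rw [this, ih]
    simp

private theorem length_encInst (P : List (RatCode × RatCode)) (k : List Bool) :
    P.length + 1 ≤ (encInst P k).length := by
  induction P with
  | nil => simp [encInst]
  | cons q P ih =>
    rw [encInst_cons]
    simp only [List.length_cons, List.length_append]
    omega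

theorem exists_decInst : ∃ D : List Bool → List (RatCode × RatCode) × List Bool, Poly D ∧
    ∀ P k, D (encInst P k) = (P, k) := by
  refine ⟨decI, poly_decI, fun P k => ?_⟩
  obtain ⟨m, hm⟩ := Nat.exists_eq_add_of_le (length_encInst P k)
  have h2 : stepV^[(encInst P k).length] (([] : List (RatCode × RatCode)), encInst P k, false) =
      (P.reverse, encBits k, true) := by
    rw [hm, add_comm, Function.iterate_add_apply, iterV_read, List.append_nil, iterV_done]
  have h3 := decP_pair k []
  rw [List.append_nil] at h3
  simp only [decI, h2, List.reverse_reverse, h3]

end Pool.Agent.Helper94.UR
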