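import Pool.Agent.Helper97.UDP.Defs

/-!
# The existential theory of the reals, and problems with polynomially many guessed bits and a
predicate which is in `∃ℝ` and in `∀ℝ`
-/

set_option autoImplicit false

namespace Pool.Agent.Helper94.UR

open Pool.Agent.Helper20.Flip

/-- Terms in the variables `x 0, x 1, x 2, …`: polynomials with integer coefficients. -/
inductive Tm : Type
  | var (i : ℕ)
  | zero
  | one
  | add (s t : Tm)
  | neg (t : Tm)
  | mul (s t : Tm)

/-- The value of a term for the real values `v` of the variables. -/
def Tm.eval (v : ℕ → ℝ) : Tm → ℝ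
  | .var i => v i
  | .zero => 0
  | .one => 1
  | .add s t => s.eval v + t.eval v
  | .neg t => -t.eval v
  | .mul s t => s.eval v * t.eval v

/-- Quantifier-free formulas: Boolean combinations of polynomial equations and strict
inequalities with integer coefficients. -/
inductive Fm : Type
  | eq (s t : Tm)
  | lt (s t : Tm)
  | not (φ : Fm)
  | and (φ ψ : Fm)
  | or (φ ψ : Fm)

/-- The formula is true for the real values `v` of the variables. -/
def Fm.Holds (v : ℕ → ℝ) : Fm → Prop
  | .eq s t => s.eval v = t.eval v
  | .lt s t => s.eval v < t.eval v
  | .not φ => ¬ φ.Holds v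
  | .and φ ψ => φ.Holds v ∧ ψ.Holds v
  | .or φ ψ => φ.Holds v ∨ ψ.Holds v

/-- The word encoding a term, in prefix notation; the indices of the variables are in unary. -/
def Tm.code : Tm → List Bool
  | .var i => [false, false, false] ++ (List.replicate i true ++ [false])
  | .zero => [false, false, true]
  | .one => [false, true, false]
  | .add s t => [false, true, true] ++ (s.code ++ t.code)
  | .neg t => [true, false, false] ++ t.code
  | .mul s t => [true, false, true] ++ (s.code ++ t.code)

/-- The word encoding a formula, in prefix notation. -/
def Fm.code : Fm → List Bool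
  | .eq s t => [false, false, false] ++ (s.code ++ t.code)
  | .lt s t => [false, false, true] ++ (s.code ++ t.code)
  | .not φ => [false, true, false] ++ φ.code
  | .and φ ψ => [false, true, true] ++ (φ.code ++ ψ.code)
  | .or φ ψ => [true, false, false] ++ (φ.code ++ ψ.code)

/-- The existential theory of the reals: the words encoding a quantifier-free formula `φ` such
that the sentence `∃ x 0, ∃ x 1, …, φ` is true over the real numbers. -/
def ETR : Set (List Bool) := {w | ∃ φ : Fm, w = φ.code ∧ ∃ v : ℕ → ℝ, φ.Holds v}

/-- The complexity class `∃ℝ`: the problems that reduce to `ETR` by polynomial-time many-one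
reductions. -/
def InER (A : Set (List Bool)) : Prop := ∃ f, PTimeFun f ∧ ∀ w, w ∈ A ↔ f w ∈ ETR

/-- `∃ℝ`-hardness under polynomial-time many-one reductions. -/
def ERHard (A : Set (List Bool)) : Prop :=
  ∀ B, InER B → ∃ f, PTimeFun f ∧ ∀ w, w ∈ B ↔ f w ∈ A

/-- The class `∃ℝ ∩ ∀ℝ`: the problems which are in `∃ℝ` and whose complements are in `∃ℝ`. -/
def InBoth (A : Set (List Bool)) : Prop := InER A ∧ InER Aᶜ

/-- The word encoding a pair of words. -/
def pair (w y : List Bool) : List Bool := encBits w ++ y

/-- Polynomially many guessed bits before a predicate of the class `C`: the problems `A` for which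
there are a problem `R` in `C` and a polynomial `p` such that `w ∈ A` iff there is a word `y` with
at most `p |w|` letters such that the pair `(w, y)` is in `R`. -/
def InN (C : Set (List Bool) → Prop) (A : Set (List Bool)) : Prop :=
  ∃ (R : Set (List Bool)) (p : Polynomial ℕ), C R ∧
    ∀ w, w ∈ A ↔ ∃ y : List Bool, y.length ≤ p.eval w.length ∧ pair w y ∈ R

/-- Unit-disk packing: can `m` disks of radius `1` be packed into a given simple polygon with
rational vertices? -/
def UDP : Set (List Bool) := Pool.Agent.Helper97.UDP.PACKING fun _ _ => True

end Pool.Agent.Helper94.UR
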