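import Pool.Agent.Helper94.UR.CQ
import Pool.Agent.Helper1.SD.Cone

/-!
# Farkas' lemma for linear functionals
-/

set_option autoImplicit false

namespace Pool.Agent.Helper94.UR

/-- Farkas' lemma in a finite dimensional space (from `Helper1.SD.farkas_alt`, with a basis). -/
theorem farkas {E : Type*} [AddCommGroup E] [Module ℝ E] [FiniteDimensional ℝ E] {K : Type*}
    (T : Finset K) (g : K → E →ₗ[ℝ] ℝ) (h : E →ₗ[ℝ] ℝ)
    (H : ∀ v, (∀ k ∈ T, 0 ≤ g k v) → 0 ≤ h v) :
    ∃ ω : K → ℝ, (∀ k ∈ T, 0 ≤ ω k) ∧ h = ∑ k ∈ T, ω k • g k := by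
  classical
  set b := Module.finBasis ℝ E with hb
  set e := T.equivFin with he
  have key : ∀ (y : Fin (Module.finrank ℝ E) → ℝ) (l : E →ₗ[ℝ] ℝ),
      y ⬝ᵥ (fun i => l (b i)) = l (∑ i, y i • b i) := by
    intro y l
    simp [dotProduct, map_sum]
  rcases Helper1.SD.farkas_alt T.card (fun j i => g (e.symm j : K) (b i)) (fun i => h (b i)) with
    ⟨c, hc, hx⟩ | ⟨y, hy, hyx⟩
  · refine ⟨fun k => if hk : k ∈ T then c (e ⟨k, hk⟩) else 0, ?_, ?_⟩
    · intro k hk
      simp only [hk, dif_pos]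
      exact hc _
    · refine b.ext fun i => ?_
      have h1 : h (b i) = ∑ j, c j * g (e.symm j : K) (b i) := by
        have := congrFun hx i
        simpa [Finset.sum_apply] using this
      rw [h1, LinearMap.sum_apply, ← Finset.sum_coe_sort T, ← e.sum_comp]
      refine Finset.sum_congr rfl fun k _ => ?_
      simp
  · exfalso
    rw [key] at hyx
    refine absurd (H (∑ i, y i • b i) fun k hk => ?_) (not_le.2 hyx)
    have h2 := hy (e ⟨k, hk⟩)
    rw [key] at h2
    simpa using h2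

end Pool.Agent.Helper94.UR
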