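import Pool.Agent.Helper94.UR.Outer

/-!
# The inside test
-/

set_option autoImplicit false

namespace Pool.Agent.Helper94.UR

open Pool.Agent.Helper20.Flip Pool.Agent.Helper97.UDP Topology

variable {n : ℕ} {V : ZMod n → Pt}

/-- the point of the edge `a` at the abscissa `x` -/
theorem exists_ept {a : ZMod n} {x : ℝ}
    (h : ((V a).1 < x ∧ x < (V (a + 1)).1) ∨ ((V (a + 1)).1 < x ∧ x < (V a).1)) :
    (V (a + 1)).1 - (V a).1 ≠ 0 ∧ ∃ t : ℝ, 0 < t ∧ t < 1 ∧ ept V a t = (x, hgt V a x) := by
  have hD : (V (a + 1)).1 - (V a).1 ≠ 0 := by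
    rcases h with ⟨h1, h2⟩ | ⟨h1, h2⟩
    · exact (by linarith : 0 < (V (a + 1)).1 - (V a).1).ne'
    · exact (by linarith : (V (a + 1)).1 - (V a).1 < 0).ne
  refine ⟨hD, (x - (V a).1) / ((V (a + 1)).1 - (V a).1), ?_, ?_, ?_⟩
  · rcases h with ⟨h1, h2⟩ | ⟨h1, h2⟩
    · exact div_pos (by linarith) (by linarith)
    · exact div_pos_of_neg_of_neg (by linarith) (by linarith)
  · rcases h with ⟨h1, h2⟩ | ⟨h1, h2⟩
    · rw [div_lt_one (by linarith)]; linarith
    · rw [div_lt_one_of_neg (by linarith)]; linarith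
  · unfold ept hgt
    apply Prod.ext
    · show (V a).1 + _ * ((V (a + 1)).1 - (V a).1) = x
      rw [div_mul_cancel₀ _ hD]
      ring
    · show (V a).2 + _ * ((V (a + 1)).2 - (V a).2) = _
      simp only
      ring

theorem cross_eq {a : ZMod n} (hD : (V (a + 1)).1 - (V a).1 ≠ 0) (q : Pt) :
    cross (V a) (V (a + 1)) q = ((V (a + 1)).1 - (V a).1) * (q.2 - hgt V a q.1) := by
  unfold cross hgt
  field_simp
  ring

theorem above_of {p : Pt} {e : ZMod n} {y : ℝ}
    (h : ((V e).1 < p.1 ∧ p.1 < (V (e + 1)).1) ∨ ((V (e + 1)).1 < p.1 ∧ p.1 < (V e).1))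
    (hy : hgt V e p.1 = y) (hp : p.2 < y) : Above V e p :=
  ⟨h, by rw [hy]; exact hp⟩

/-- A point below (above) an edge, on a vertical line without vertices, with no other edge
between: it is on the right (left) side if the edge is directed to the right. -/
theorem mem_sideSet_of_below (hV : IsSimple V) {p : Pt} (hg : Gen V p) (hp : p ∉ curve V)
    {a : ZMod n} (ha : Above V a p) (hmin : ∀ e, Above V e p → hgt V a p.1 ≤ hgt V e p.1) :
    (0 < (V (a + 1)).1 - (V a).1 → p ∈ sideSet V (-1)) ∧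
      ((V (a + 1)).1 - (V a).1 < 0 → p ∈ sideSet V 1) := by
  obtain ⟨hD, t, ht, ht', hE⟩ := exists_ept ha.1
  have hseg : ∀ τ : ℝ, 0 < τ → τ ≤ 1 → ept V a t + τ • (p - ept V a t) ∉ curve V := by
    intro τ h1 h2 hmem
    have e1 : ept V a t + τ • (p - ept V a t) =
        (p.1, hgt V a p.1 + τ * (p.2 - hgt V a p.1)) := by
      rw [hE]
      apply Prod.ext
      · show p.1 + τ * (p.1 - p.1) = p.1
        ring
      · rfl
    rw [e1] at hmem
    have hg' : Gen V ((p.1, hgt V a p.1 + τ * (p.2 - hgt V a p.1)) : Pt) := hg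
    obtain ⟨e, he, hy⟩ := (mem_curve_iff hV hg').1 hmem
    simp only at he hy
    have h3 := ha.2
    rcases eq_or_lt_of_le h2 with h4 | h4
    · apply hp
      rw [mem_curve_iff hV hg]
      refine ⟨e, he, ?_⟩
      rw [h4] at hy
      linarith
    · have h5 : p.2 < hgt V e p.1 := by
        rw [← hy]
        nlinarith
      have h6 := hmin e ⟨he, h5⟩
      rw [← hy] at h6
      nlinarith
  have h1 := ha.2
  constructor
  · intro h
    refine ⟨a, t, ht, ht', ?_, hseg⟩
    rw [cross_eq hD]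
    nlinarith
  · intro h
    refine ⟨a, t, ht, ht', ?_, hseg⟩
    rw [cross_eq hD]
    nlinarith

/-- Points above the highest edge. -/
theorem mem_sideSet_of_above (hV : IsSimple V) {p : Pt} (hg : Gen V p)
    {b : ZMod n} (hb : Above V b p) (hmax : ∀ e, Above V e p → hgt V e p.1 ≤ hgt V b p.1) :
    ∃ q : Pt, q ∉ region V ∧ (0 < (V (b + 1)).1 - (V b).1 → q ∈ sideSet V 1) ∧
      ((V (b + 1)).1 - (V b).1 < 0 → q ∈ sideSet V (-1)) := by
  obtain ⟨hD, t, ht, ht', hE⟩ := exists_ept hb.1
  have hb2 := hb.2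
  set q : Pt := (p.1, hgt V b p.1 + 1) with hq
  have hgq : Gen V q := hg
  have hno : ∀ y : ℝ, hgt V b p.1 < y → ((p.1, y) : Pt) ∉ curve V := by
    intro y hy hmem
    have hg' : Gen V ((p.1, y) : Pt) := hg
    obtain ⟨e, he, hy'⟩ := (mem_curve_iff hV hg').1 hmem
    simp only at he hy'
    have h1 := hmax e ⟨he, by rw [← hy']; linarith⟩
    linarith
  have hqc : q ∉ curve V := hno _ (by linarith)
  have hseg : ∀ τ : ℝ, 0 < τ → τ ≤ 1 → ept V b t + τ • (q - ept V b t) ∉ curve V := by
    intro τ h1 h2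
    have e1 : ept V b t + τ • (q - ept V b t) = (p.1, hgt V b p.1 + τ) := by
      rw [hE, hq]
      apply Prod.ext
      · show p.1 + τ * (p.1 - p.1) = p.1
        ring
      · show hgt V b p.1 + τ * (hgt V b p.1 + 1 - hgt V b p.1) = _
        ring
    rw [e1]
    exact hno _ (by linarith)
  refine ⟨q, ?_, ?_, ?_⟩
  · refine outer_of_no_above hV hqc hgq ?_
    intro e he
    have h1 : q.2 < hgt V e p.1 := he.2
    have h2 : hgt V b p.1 + 1 < hgt V e p.1 := h1
    have h3 := hmax e ⟨he.1, by linarith⟩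
    linarith
  · intro h
    refine ⟨b, t, ht, ht', ?_, hseg⟩
    rw [cross_eq hD]
    have : q.2 - hgt V b q.1 = 1 := by
      show hgt V b p.1 + 1 - hgt V b p.1 = 1
      ring
    rw [this]
    linarith
  · intro h
    refine ⟨b, t, ht, ht', ?_, hseg⟩
    rw [cross_eq hD]
    have : q.2 - hgt V b q.1 = 1 := by
      show hgt V b p.1 + 1 - hgt V b p.1 = 1
      ring
    rw [this]
    linarith

theorem not_region_of_comp {p q : Pt} (hp : p ∉ curve V)
    (h : q ∈ connectedComponentIn (curve V)ᶜ p) (hq : q ∉ region V) : p ∉ region V := by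
  intro hpr
  apply hq
  rcases hpr with h1 | h1
  · exact absurd h1 hp
  · right
    rw [← connectedComponentIn_eq h]
    exact h1

/-- the inside test is correct -/
theorem region_iff_ins (hV : IsSimple V) {p : Pt} (hp : p ∉ curve V) (hg : Gen V p) :
    p ∈ region V ↔ Ins V p := by
  have hn : NeZero n := ⟨by have := hV.1; omega⟩
  constructor
  · intro hr
    have h1 : ∃ e, Above V e p := by
      by_contra h
      push Not at h
      exact outer_of_no_above hV hp hg h hr
    have hfin : {e | Above V e p}.Finite := Set.toFinite _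
    obtain ⟨a, ha, hmin⟩ := hfin.exists_minimalFor (fun e => hgt V e p.1) _ h1
    obtain ⟨b, hb, hmax⟩ := hfin.exists_maximalFor (fun e => hgt V e p.1) _ h1
    have hmin' : ∀ e, Above V e p → hgt V a p.1 ≤ hgt V e p.1 := by
      intro e he
      rcases le_total (hgt V a p.1) (hgt V e p.1) with h | h
      · exact h
      · exact hmin he h
    have hmax' : ∀ e, Above V e p → hgt V e p.1 ≤ hgt V b p.1 := by
      intro e he
      rcases le_total (hgt V e p.1) (hgt V b p.1) with h | h
      · exact h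
      · exact hmax he h
    refine ⟨a, b, ?_, ha, hb, fun e he => ⟨hmin' e he, hmax' e he⟩⟩
    by_contra hneg
    obtain ⟨h2, h3⟩ := mem_sideSet_of_below hV hg hp ha hmin'
    obtain ⟨q, hq, h4, h5⟩ := mem_sideSet_of_above hV hg hb hmax'
    have hDa := (exists_ept ha.1).1
    have hDb := (exists_ept hb.1).1
    rcases lt_or_gt_of_ne hDa with ha' | ha'
    · rcases lt_or_gt_of_ne hDb with hb' | hb'
      · exact hneg (mul_pos_of_neg_of_neg ha' hb')
      · exact not_region_of_comp hp (same_side hV (Or.inl rfl) (h3 ha') (h4 hb')) hq hr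
    · rcases lt_or_gt_of_ne hDb with hb' | hb'
      · exact not_region_of_comp hp (same_side hV (Or.inr rfl) (h2 ha') (h5 hb')) hq hr
      · exact hneg (mul_pos ha' hb')
  · rintro ⟨a, b, hab, ha, hb, h⟩
    obtain ⟨h2, h3⟩ := mem_sideSet_of_below hV hg hp ha (fun e he => (h e he).1)
    obtain ⟨q, hq, h4, h5⟩ := mem_sideSet_of_above hV hg hb (fun e he => (h e he).2)
    by_contra hr
    rcases pos_and_pos_or_neg_and_neg_of_mul_pos hab with ⟨ha', hb'⟩ | ⟨ha', hb'⟩
    · have := same_outer hV hq hr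
      exact sides_ne hV (h4 hb') (h2 ha') this
    · have := same_outer hV hr hq
      exact sides_ne hV (h3 ha') (h5 hb') this

end Pool.Agent.Helper94.UR
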