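import Pool.Agent.Helper94.UR.Gen

/-!
# The formulas are computable in polynomial time
-/

set_option autoImplicit false

namespace Pool.Agent.Helper94.UR

open Pool.Agent.Helper20.Flip Pool.Agent.Helper96

section
variable {α : Type} [Enc α]

@[fun_prop]
theorem Poly.pv {f g : α → ℕ} (hf : Poly f) (hg : Poly g) : Poly (fun a => pv (f a) (g a)) := by
  unfold UR.pv; fun_prop

@[fun_prop]
theorem Poly.vx {f : α → ℕ} (hf : Poly f) : Poly (fun a => vx (f a)) := by
  unfold UR.vx; fun_prop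

@[fun_prop]
theorem Poly.nx {f g : α → ℕ} (hf : Poly f) (hg : Poly g) : Poly (fun a => nx (f a) (g a)) := by
  unfold UR.nx; fun_prop

@[fun_prop]
theorem Poly.d2T {f g : α → PT} (hf : Poly f) (hg : Poly g) : Poly (fun a => d2T (f a) (g a)) := by
  unfold UR.d2T; fun_prop

@[fun_prop]
theorem Poly.ratF {f : α → RatCode} {g : α → Tm} (hf : Poly f) (hg : Poly g) :
    Poly (fun a => ratF (f a) (g a)) := by
  unfold UR.ratF; fun_prop

@[fun_prop]
theorem Poly.baseF {f : α → List (RatCode × RatCode)} (hf : Poly f) :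
    Poly (fun a => baseF (f a)) := by
  unfold UR.baseF; fun_prop

@[fun_prop]
theorem Poly.cα {f g h : α → ℕ} (hf : Poly f) (hg : Poly g) (hh : Poly h) :
    Poly (fun a => cα (f a) (g a) (h a)) := by
  unfold UR.cα; fun_prop

@[fun_prop]
theorem Poly.cr {f g h : α → ℕ} (hf : Poly f) (hg : Poly g) (hh : Poly h) :
    Poly (fun a => cr (f a) (g a) (h a)) := by
  unfold UR.cr; fun_prop

@[fun_prop]
theorem Poly.ce {f g : α → ℕ} (hf : Poly f) (hg : Poly g) : Poly (fun a => ce (f a) (g a)) := by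
  unfold UR.ce; fun_prop

@[fun_prop]
theorem Poly.qT {f g : α → ℕ} {h : α → Con} (hf : Poly f) (hg : Poly g) (hh : Poly h) :
    Poly (fun a => qT (f a) (g a) (h a)) := by
  unfold UR.qT; fun_prop

@[fun_prop]
theorem Poly.gT {f g l : α → ℕ} {h : α → Con} (hf : Poly f) (hg : Poly g) (hh : Poly h)
    (hl : Poly l) : Poly (fun a => gT (f a) (g a) (h a) (l a)) := by
  unfold UR.gT; fun_prop

@[fun_prop]
theorem Poly.zoneL {f g h : α → ℕ} {b b' : α → Bool} (hf : Poly f) (hg : Poly g) (hh : Poly h)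
    (hb : Poly b) (hb' : Poly b') : Poly (fun a => zoneL (f a) (g a) (h a) (b a) (b' a)) := by
  unfold UR.zoneL; fun_prop

@[fun_prop]
theorem Poly.consL {f g : α → ℕ} {y : α → List Bool} (hf : Poly f) (hg : Poly g) (hy : Poly y) :
    Poly (fun a => consL (f a) (g a) (y a)) := by
  unfold UR.consL; fun_prop

@[fun_prop]
theorem Poly.selL {f g : α → ℕ} {y : α → List Bool} (hf : Poly f) (hg : Poly g) (hy : Poly y) :
    Poly (fun a => selL (f a) (g a) (y a)) := by
  unfold UR.selL; fun_prop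

@[fun_prop]
theorem Poly.sfF {f g : α → ℕ} {y : α → List Bool} (hf : Poly f) (hg : Poly g) (hy : Poly y) :
    Poly (fun a => sfF (f a) (g a) (y a)) := by
  unfold UR.sfF; fun_prop

@[fun_prop]
theorem Poly.gradT {f g l : α → ℕ} {y : α → List Bool} (hf : Poly f) (hg : Poly g) (hy : Poly y)
    (hl : Poly l) : Poly (fun a => gradT (f a) (g a) (y a) (l a)) := by
  unfold UR.gradT; fun_prop

@[fun_prop]
theorem Poly.kktF {f g : α → ℕ} {y : α → List Bool} (hf : Poly f) (hg : Poly g) (hy : Poly y) :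
    Poly (fun a => kktF (f a) (g a) (y a)) := by
  unfold UR.kktF; fun_prop

@[fun_prop]
theorem Poly.nsfF {f g : α → ℕ} {y : α → List Bool} (hf : Poly f) (hg : Poly g) (hy : Poly y) :
    Poly (fun a => nsfF (f a) (g a) (y a)) := by
  unfold UR.nsfF; fun_prop

@[fun_prop]
theorem Poly.dxT {f g : α → ℕ} (hf : Poly f) (hg : Poly g) : Poly (fun a => dxT (f a) (g a)) := by
  unfold UR.dxT; fun_prop

@[fun_prop]
theorem Poly.htT {f g : α → ℕ} {h : α → PT} (hf : Poly f) (hg : Poly g) (hh : Poly h) :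
    Poly (fun a => htT (f a) (g a) (h a)) := by
  unfold UR.htT; fun_prop

@[fun_prop]
theorem Poly.abF {f g : α → ℕ} {h : α → PT} (hf : Poly f) (hg : Poly g) (hh : Poly h) :
    Poly (fun a => abF (f a) (g a) (h a)) := by
  unfold UR.abF; fun_prop

@[fun_prop]
theorem Poly.lowF {f g l : α → ℕ} {h : α → PT} (hf : Poly f) (hg : Poly g) (hl : Poly l)
    (hh : Poly h) : Poly (fun a => lowF (f a) (g a) (l a) (h a)) := by
  unfold UR.lowF; fun_prop

@[fun_prop]
theorem Poly.insF {f : α → ℕ} {h : α → PT} (hf : Poly f) (hh : Poly h) :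
    Poly (fun a => insF (f a) (h a)) := by
  unfold UR.insF; fun_prop

@[fun_prop]
theorem Poly.genF {f : α → ℕ} {h : α → PT} (hf : Poly f) (hh : Poly h) :
    Poly (fun a => genF (f a) (h a)) := by
  unfold UR.genF; fun_prop

@[fun_prop]
theorem Poly.nearF {f g : α → ℕ} (hf : Poly f) (hg : Poly g) :
    Poly (fun a => nearF (f a) (g a)) := by
  unfold UR.nearF; fun_prop

@[fun_prop]
theorem Poly.feasF {f g : α → ℕ} {y : α → List Bool} (hf : Poly f) (hg : Poly g) (hy : Poly y) :
    Poly (fun a => feasF (f a) (g a) (y a)) := by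
  unfold UR.feasF; fun_prop

@[fun_prop]
theorem Poly.nfeasF {f g : α → ℕ} {y : α → List Bool} (hf : Poly f) (hg : Poly g) (hy : Poly y) :
    Poly (fun a => nfeasF (f a) (g a) (y a)) := by
  unfold UR.nfeasF; fun_prop

@[fun_prop]
theorem Poly.affT {f g : α → ℕ} {h : α → PT} (hf : Poly f) (hg : Poly g) (hh : Poly h) :
    Poly (fun a => affT (f a) (g a) (h a)) := by
  unfold UR.affT; fun_prop

@[fun_prop]
theorem Poly.linT {f g : α → ℕ} {h l : α → PT} (hf : Poly f) (hg : Poly g) (hh : Poly h)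
    (hl : Poly l) : Poly (fun a => linT (f a) (g a) (h a) (l a)) := by
  unfold UR.linT; fun_prop

@[fun_prop]
theorem Poly.sepF {f g h : α → ℕ} (hf : Poly f) (hg : Poly g) (hh : Poly h) :
    Poly (fun a => sepF (f a) (g a) (h a)) := by
  unfold UR.sepF; fun_prop

@[fun_prop]
theorem Poly.ptEq {f g : α → PT} (hf : Poly f) (hg : Poly g) :
    Poly (fun a => ptEq (f a) (g a)) := by
  unfold UR.ptEq; fun_prop

@[fun_prop]
theorem Poly.simF {f : α → ℕ} (hf : Poly f) : Poly (fun a => simF (f a)) := by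
  unfold UR.simF; fun_prop

@[fun_prop]
theorem Poly.onF {f g h : α → ℕ} (hf : Poly f) (hg : Poly g) (hh : Poly h) :
    Poly (fun a => onF (f a) (g a) (h a)) := by
  unfold UR.onF; fun_prop

@[fun_prop]
theorem Poly.nsimF {f : α → ℕ} (hf : Poly f) : Poly (fun a => nsimF (f a)) := by
  unfold UR.nsimF; fun_prop

@[fun_prop]
theorem Poly.yesF {P : α → List (RatCode × RatCode)} {m : α → ℕ} {y : α → List Bool}
    (hP : Poly P) (hm : Poly m) (hy : Poly y) : Poly (fun a => yesF (P a) (m a) (y a)) := by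
  unfold UR.yesF; fun_prop

@[fun_prop]
theorem Poly.noF {P : α → List (RatCode × RatCode)} {m : α → ℕ} {y : α → List Bool}
    (hP : Poly P) (hm : Poly m) (hy : Poly y) : Poly (fun a => noF (P a) (m a) (y a)) := by
  unfold UR.noF; fun_prop

end

end Pool.Agent.Helper94.UR
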