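import Pool.Agent.Helper94.UR.SemIns

/-!
# The meaning of the formulas: simple polygons
-/

set_option autoImplicit false

namespace Pool.Agent.Helper94.UR

open Pool.Agent.Helper20.Flip

private theorem cast_nx {n a : ℕ} : ((nx n a : ℕ) : ZMod n) = (a : ZMod n) + 1 := by
  unfold nx
  split_ifs with h
  · have : ((a + 1 : ℕ) : ZMod n) = 0 := by
      rw [h]
      exact ZMod.natCast_self n
    push_cast at this
    rw [this, Nat.cast_zero]
  · push_cast
    rfl

private theorem cast_eq {n a b : ℕ} (ha : a < n) (hb : b < n) :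
    (a : ZMod n) = (b : ZMod n) ↔ a = b := by
  rw [ZMod.natCast_eq_natCast_iff', Nat.mod_eq_of_lt ha, Nat.mod_eq_of_lt hb]

private theorem exists_nat {n : ℕ} (hn : 3 ≤ n) (i : ZMod n) : ∃ a < n, (a : ZMod n) = i := by
  have : NeZero n := ⟨by omega⟩
  exact ⟨i.val, ZMod.val_lt i, ZMod.natCast_zmod_val i⟩

/-- the certificate for the pair of edges `a`, `b` -/
private def SepR (n : ℕ) (V : ℕ → Pt) (a b : ℕ) (α : Pt) (c : ℝ) : Prop :=
  a ≠ b → a ≠ nx n b →
    (b = nx n a → 1 ≤ dot α (V a - V b) ∧ dot α (V (nx n b) - V b) ≤ 0) ∧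
    (b ≠ nx n a → 1 ≤ dot α (V a) + c ∧ 1 ≤ dot α (V (nx n a)) + c ∧
      dot α (V b) + c ≤ -1 ∧ dot α (V (nx n b)) + c ≤ -1)

private theorem affT_eval (v : ℕ → ℝ) (a b : ℕ) (A : PT) : (affT a b A).eval v =
    dot (g3 v 6 (Nat.pair a b) 0, g3 v 6 (Nat.pair a b) 1) (ev v A) +
      g3 v 6 (Nat.pair a b) 2 := by
  simp [affT, dot, ev]

private theorem linT_eval (v : ℕ → ℝ) (a b : ℕ) (A B : PT) : (linT a b A B).eval v =
    dot (g3 v 6 (Nat.pair a b) 0, g3 v 6 (Nat.pair a b) 1) (ev v A - ev v B) := by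
  simp [linT, dot, ev]

private theorem sepF_iff {P : List (RatCode × RatCode)} {v : ℕ → ℝ} (hb : BaseR P v) {a b : ℕ}
    (ha : a < P.length) (hb' : b < P.length) : (sepF P.length a b).Holds v ↔
      SepR P.length (vert P) a b (g3 v 6 (Nat.pair a b) 0, g3 v 6 (Nat.pair a b) 1)
        (g3 v 6 (Nat.pair a b) 2) := by
  have h1 := (hb a ha).1
  have h2 := (hb b hb').1
  have h3 := (hb _ (nx_lt ha)).1
  have h4 := (hb _ (nx_lt hb')).1
  unfold sepF SepR
  split_ifs with c1 c2 c3
  · exact iff_of_true rfl fun h => absurd c1 h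
  · exact iff_of_true rfl fun _ h => absurd c2 h
  · rw [holds_and, holds_le, holds_le, linT_eval, linT_eval, h1, h2, h4, eval_one, eval_zero]
    constructor
    · intro h _ _
      exact ⟨fun _ => h, fun h' => absurd c3 h'⟩
    · intro h
      exact (h c1 c2).1 c3
  · rw [holds_and, holds_and, holds_and, holds_le, holds_le, holds_le, holds_le, affT_eval,
      affT_eval, affT_eval, affT_eval, h1, h2, h3, h4, eval_neg, eval_one]
    constructor
    · rintro ⟨⟨h5, h6⟩, h7, h8⟩ _ _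
      exact ⟨fun h' => absurd h' c3, fun _ => ⟨h5, h6, h7, h8⟩⟩
    · intro h
      obtain ⟨h5, h6, h7, h8⟩ := (h c1 c2).2 c3
      exact ⟨⟨h5, h6⟩, h7, h8⟩

private theorem ptEq_iff (v : ℕ → ℝ) (A B : PT) : (ptEq A B).Holds v ↔ ev v A = ev v B := by
  unfold ptEq ev
  rw [holds_and, holds_eq, holds_eq, Prod.ext_iff]

private theorem simF_iff {P : List (RatCode × RatCode)} {v : ℕ → ℝ} (hb : BaseR P v) :
    (simF P.length).Holds v ↔ (∀ a < P.length, vert P a ≠ vert P (nx P.length a)) ∧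
      ∀ a < P.length, ∀ b < P.length, SepR P.length (vert P) a b
        (g3 v 6 (Nat.pair a b) 0, g3 v 6 (Nat.pair a b) 1) (g3 v 6 (Nat.pair a b) 2) := by
  unfold simF
  rw [holds_and]
  refine and_congr ?_ ?_
  · simp only [holds_all, List.mem_map, List.mem_range, forall_exists_index, and_imp,
      forall_apply_eq_imp_iff₂]
    refine forall₂_congr fun a ha => ?_
    rw [holds_not, ptEq_iff, (hb a ha).1, (hb _ (nx_lt ha)).1]
  · rw [holds_all]
    constructor
    · intro h a ha b hb'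
      rw [← sepF_iff hb ha hb']
      apply h
      rw [List.mem_flatMap]
      exact ⟨a, List.mem_range.2 ha, List.mem_map.2 ⟨b, List.mem_range.2 hb', rfl⟩⟩
    · intro h φ hφ
      rw [List.mem_flatMap] at hφ
      obtain ⟨a, ha, hφ⟩ := hφ
      rw [List.mem_map] at hφ
      obtain ⟨b, hb', rfl⟩ := hφ
      rw [List.mem_range] at ha hb'
      rw [sepF_iff hb ha hb']
      exact h a ha b hb'

theorem simC_of_simF {P : List (RatCode × RatCode)} {v : ℕ → ℝ} (hb : BaseR P v)
    (hn : 3 ≤ P.length) (h : (simF P.length).Holds v) : SimC (polygon P) := by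
  rw [simF_iff hb] at h
  obtain ⟨h1, h2⟩ := h
  constructor
  · intro i
    obtain ⟨a, ha, rfl⟩ := exists_nat hn i
    rw [polygon_vert ha, polygon_nx ha]
    exact h1 a ha
  · intro i j hij hij'
    obtain ⟨a, ha, rfl⟩ := exists_nat hn i
    obtain ⟨b, hb', rfl⟩ := exists_nat hn j
    have e1 : a ≠ b := fun e => hij (by rw [e])
    have e2 : a ≠ nx P.length b := fun e => hij' (by rw [e, cast_nx])
    obtain ⟨h3, h4⟩ := h2 a ha b hb' e1 e2
    rw [polygon_vert ha, polygon_vert hb', polygon_nx ha, polygon_nx hb']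
    constructor
    · intro e
      rw [← cast_nx, cast_eq hb' (nx_lt ha)] at e
      exact ⟨_, h3 e⟩
    · intro e
      have e' : b ≠ nx P.length a := fun e'' => e (by rw [e'', cast_nx])
      exact ⟨_, _, h4 e'⟩

theorem exists_simF {P : List (RatCode × RatCode)} (hn : 3 ≤ P.length)
    (h : SimC (polygon P)) : ∃ g : ℕ → ℕ → ℝ, ∀ v, BaseR P v → (∀ i j, g3 v 6 i j = g i j) →
      (simF P.length).Holds v := by
  obtain ⟨h1, h2⟩ := h
  have key : ∀ a b : ℕ, ∃ t : Pt × ℝ, a < P.length → b < P.length →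
      SepR P.length (vert P) a b t.1 t.2 := by
    intro a b
    by_cases ha : a < P.length
    swap
    · exact ⟨((0, 0), 0), fun h => absurd h ha⟩
    by_cases hb' : b < P.length
    swap
    · exact ⟨((0, 0), 0), fun _ h => absurd h hb'⟩
    by_cases e1 : a = b
    · exact ⟨((0, 0), 0), fun _ _ h => absurd e1 h⟩
    by_cases e2 : a = nx P.length b
    · exact ⟨((0, 0), 0), fun _ _ _ h => absurd e2 h⟩
    have f1 : (a : ZMod P.length) ≠ b := fun e => e1 ((cast_eq ha hb').1 e)
    have f2 : (a : ZMod P.length) ≠ (b : ZMod P.length) + 1 := fun e => by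
      rw [← cast_nx, cast_eq ha (nx_lt hb')] at e
      exact e2 e
    obtain ⟨h3, h4⟩ := h2 a b f1 f2
    rw [polygon_vert ha, polygon_vert hb', polygon_nx hb'] at h3
    rw [polygon_vert ha, polygon_vert hb', polygon_nx ha, polygon_nx hb'] at h4
    by_cases e3 : b = nx P.length a
    · obtain ⟨α, hα⟩ := h3 (by rw [e3, cast_nx])
      exact ⟨(α, 0), fun _ _ _ _ => ⟨fun _ => hα, fun h => absurd e3 h⟩⟩
    · obtain ⟨α, c, hα⟩ := h4 (fun e => by
        rw [← cast_nx, cast_eq hb' (nx_lt ha)] at e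
        exact e3 e)
      exact ⟨(α, c), fun _ _ _ _ => ⟨fun h => absurd h e3, fun _ => hα⟩⟩
  choose t ht using key
  refine ⟨fun i j => if j = 0 then (t i.unpair.1 i.unpair.2).1.1
    else if j = 1 then (t i.unpair.1 i.unpair.2).1.2 else (t i.unpair.1 i.unpair.2).2, ?_⟩
  intro v hb hv
  rw [simF_iff hb]
  constructor
  · intro a ha
    have := h1 a
    rw [polygon_vert ha, polygon_nx ha] at this
    exact this
  · intro a ha b hb'
    rw [hv, hv, hv]
    simp only [Nat.unpair_pair, if_true, one_ne_zero, if_false, OfNat.ofNat_ne_zero,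
      OfNat.ofNat_ne_one]
    exact ht a b ha hb'

/-- `X` is the point with the parameter `t` of the segment `A B` -/
private def OnR (A B X : Pt) (t : ℝ) : Prop :=
  0 ≤ t ∧ t ≤ 1 ∧ X.1 = A.1 + t * (B.1 - A.1) ∧ X.2 = A.2 + t * (B.2 - A.2)

private theorem mem_segment_of_onR {A B X : Pt} {t : ℝ} (h : OnR A B X t) :
    X ∈ segment ℝ A B := by
  obtain ⟨h0, h1, h2, h3⟩ := h
  rw [segment_eq_image]
  refine ⟨t, ⟨h0, h1⟩, ?_⟩
  apply Prod.ext
  · show (1 - t) * A.1 + t * B.1 = X.1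
    rw [h2]
    ring
  · show (1 - t) * A.2 + t * B.2 = X.2
    rw [h3]
    ring

private theorem exists_onR {A B X : Pt} (h : X ∈ segment ℝ A B) : ∃ t, OnR A B X t := by
  rw [segment_eq_image] at h
  obtain ⟨t, ⟨h0, h1⟩, rfl⟩ := h
  refine ⟨t, h0, h1, ?_, ?_⟩
  · show (1 - t) * A.1 + t * B.1 = _
    ring
  · show (1 - t) * A.2 + t * B.2 = _
    ring

private theorem onF_iff {P : List (RatCode × RatCode)} {v : ℕ → ℝ} (hb : BaseR P v) {a : ℕ}
    (ha : a < P.length) (j : ℕ) : (onF P.length a j).Holds v ↔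
      OnR (vert P a) (vert P (nx P.length a)) (g3 v 7 0 0, g3 v 7 0 1) (g3 v 7 j 0) := by
  have h1 := (hb a ha).1
  have h3 := (hb _ (nx_lt ha)).1
  unfold ev at h1 h3
  unfold onF OnR
  rw [← h1, ← h3]
  simp only [holds_and, holds_le, holds_eq, eval_add, eval_mul, eval_sub, eval_v3, eval_zero,
    eval_one, and_assoc]

private theorem nsimF_iff {P : List (RatCode × RatCode)} {v : ℕ → ℝ} (hb : BaseR P v) :
    (nsimF P.length).Holds v ↔ (∃ a < P.length, vert P a = vert P (nx P.length a)) ∨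
      ∃ a < P.length, ∃ b < P.length, a ≠ b ∧
        OnR (vert P a) (vert P (nx P.length a)) (g3 v 7 0 0, g3 v 7 0 1) (g3 v 7 1 0) ∧
        OnR (vert P b) (vert P (nx P.length b)) (g3 v 7 0 0, g3 v 7 0 1) (g3 v 7 2 0) ∧
        (b = nx P.length a → (g3 v 7 0 0, g3 v 7 0 1) ≠ vert P b) ∧
        (a = nx P.length b → (g3 v 7 0 0, g3 v 7 0 1) ≠ vert P a) := by
  unfold nsimF
  rw [holds_or, holds_any, holds_any]
  refine or_congr ?_ ?_
  · simp only [List.mem_map, List.mem_range]
    constructor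
    · rintro ⟨φ, ⟨a, ha, rfl⟩, h⟩
      rw [ptEq_iff, (hb a ha).1, (hb _ (nx_lt ha)).1] at h
      exact ⟨a, ha, h⟩
    · rintro ⟨a, ha, h⟩
      refine ⟨_, ⟨a, ha, rfl⟩, ?_⟩
      rw [ptEq_iff, (hb a ha).1, (hb _ (nx_lt ha)).1]
      exact h
  · have key : ∀ a < P.length, ∀ b < P.length, (Fm.Holds v (if a = b then .ff else
        .and (.and (onF P.length a 1) (onF P.length b 2))
        (.and (if b = nx P.length a then .not (ptEq (pv 7 0) (vx b)) else .tt)
          (if a = nx P.length b then .not (ptEq (pv 7 0) (vx a)) else .tt))) ↔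
        (a ≠ b ∧
        OnR (vert P a) (vert P (nx P.length a)) (g3 v 7 0 0, g3 v 7 0 1) (g3 v 7 1 0) ∧
        OnR (vert P b) (vert P (nx P.length b)) (g3 v 7 0 0, g3 v 7 0 1) (g3 v 7 2 0) ∧
        (b = nx P.length a → (g3 v 7 0 0, g3 v 7 0 1) ≠ vert P b) ∧
        (a = nx P.length b → (g3 v 7 0 0, g3 v 7 0 1) ≠ vert P a))) := by
      intro a ha b hb'
      by_cases e1 : a = b
      · rw [if_pos e1]
        exact iff_of_false (holds_ff v) fun h => h.1 e1
      · rw [if_neg e1, holds_and, holds_and, holds_and, onF_iff hb ha, onF_iff hb hb']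
        have k1 : (Fm.Holds v (if b = nx P.length a then .not (ptEq (pv 7 0) (vx b)) else .tt)) ↔
            (b = nx P.length a → (g3 v 7 0 0, g3 v 7 0 1) ≠ vert P b) := by
          split_ifs with c
          · rw [holds_not, ptEq_iff, (hb b hb').1]
            exact ⟨fun h _ => h, fun h => h c⟩
          · exact iff_of_true rfl fun h => absurd h c
        have k2 : (Fm.Holds v (if a = nx P.length b then .not (ptEq (pv 7 0) (vx a)) else .tt)) ↔
            (a = nx P.length b → (g3 v 7 0 0, g3 v 7 0 1) ≠ vert P a) := by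
          split_ifs with c
          · rw [holds_not, ptEq_iff, (hb a ha).1]
            exact ⟨fun h _ => h, fun h => h c⟩
          · exact iff_of_true rfl fun h => absurd h c
        rw [k1, k2]
        constructor
        · rintro ⟨⟨h1, h2⟩, h3, h4⟩
          exact ⟨e1, h1, h2, h3, h4⟩
        · rintro ⟨-, h1, h2, h3, h4⟩
          exact ⟨⟨h1, h2⟩, h3, h4⟩
    constructor
    · rintro ⟨φ, hφ, h⟩
      rw [List.mem_flatMap] at hφ
      obtain ⟨a, ha, hφ⟩ := hφ
      rw [List.mem_map] at hφ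
      obtain ⟨b, hb', rfl⟩ := hφ
      rw [List.mem_range] at ha hb'
      exact ⟨a, ha, b, hb', (key a ha b hb').1 h⟩
    · rintro ⟨a, ha, b, hb', h⟩
      refine ⟨_, ?_, (key a ha b hb').2 h⟩
      rw [List.mem_flatMap]
      exact ⟨a, List.mem_range.2 ha, List.mem_map.2 ⟨b, List.mem_range.2 hb', rfl⟩⟩

theorem not_simple_of_nsimF {P : List (RatCode × RatCode)} {v : ℕ → ℝ} (hb : BaseR P v)
    (hn : 3 ≤ P.length) (h : (nsimF P.length).Holds v) : ¬ IsSimple (polygon P) := by
  rintro ⟨-, h1, h2⟩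
  rw [nsimF_iff hb] at h
  rcases h with ⟨a, ha, h⟩ | ⟨a, ha, b, hb', e1, h3, h4, h5, h6⟩
  · apply h1 a
    rw [polygon_vert ha, polygon_nx ha]
    exact h
  · have f1 : (a : ZMod P.length) ≠ b := fun e => e1 ((cast_eq ha hb').1 e)
    have := h2 a b f1 (g3 v 7 0 0, g3 v 7 0 1)
    rw [polygon_vert ha, polygon_nx ha, polygon_vert hb', polygon_nx hb'] at this
    rcases this (mem_segment_of_onR h3) (mem_segment_of_onR h4) with ⟨e, h7⟩ | ⟨e, h7⟩
    · rw [← cast_nx, cast_eq hb' (nx_lt ha)] at e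
      exact h5 e h7
    · rw [← cast_nx, cast_eq ha (nx_lt hb')] at e
      exact h6 e h7

theorem exists_nsimF {P : List (RatCode × RatCode)} (hn : 3 ≤ P.length)
    (h : ¬ IsSimple (polygon P)) :
    ∃ g : ℕ → ℕ → ℝ, ∀ v, BaseR P v → (∀ i j, g3 v 7 i j = g i j) →
      (nsimF P.length).Holds v := by
  by_cases h1 : ∀ i, polygon P i ≠ polygon P (i + 1)
  swap
  · push Not at h1
    obtain ⟨i, hi⟩ := h1
    obtain ⟨a, ha, rfl⟩ := exists_nat hn i
    rw [polygon_vert ha, polygon_nx ha] at hi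
    exact ⟨fun _ _ => 0, fun v hb _ => (nsimF_iff hb).2 (Or.inl ⟨a, ha, hi⟩)⟩
  · have h2 : ∃ i j : ZMod P.length, i ≠ j ∧ ∃ X ∈ segment ℝ (polygon P i) (polygon P (i + 1)),
        X ∈ segment ℝ (polygon P j) (polygon P (j + 1)) ∧
        ¬ ((j = i + 1 ∧ X = polygon P j) ∨ (i = j + 1 ∧ X = polygon P i)) := by
      by_contra hc
      push Not at hc
      apply h
      exact ⟨hn, h1, fun i j hij X hX hX' => hc i j hij X hX hX'⟩
    obtain ⟨i, j, hij, X, hX, hX', hne⟩ := h2
    obtain ⟨a, ha, rfl⟩ := exists_nat hn i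
    obtain ⟨b, hb', rfl⟩ := exists_nat hn j
    rw [polygon_vert ha, polygon_nx ha] at hX
    rw [polygon_vert hb', polygon_nx hb'] at hX'
    rw [polygon_vert ha, polygon_vert hb'] at hne
    obtain ⟨t, ht⟩ := exists_onR hX
    obtain ⟨t', ht'⟩ := exists_onR hX'
    refine ⟨fun i j => if i = 0 then (if j = 0 then X.1 else X.2) else if i = 1 then t else t',
      fun v hb hv => (nsimF_iff hb).2 (Or.inr ⟨a, ha, b, hb', ?_, ?_, ?_, ?_, ?_⟩)⟩
    · exact fun e => hij (by rw [e])
    · rw [hv, hv, hv]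
      simpa using ht
    · rw [hv, hv, hv]
      simpa using ht'
    · intro e hX2
      apply hne
      left
      refine ⟨by rw [e, cast_nx], ?_⟩
      rw [hv, hv] at hX2
      simpa using hX2
    · intro e hX2
      apply hne
      right
      refine ⟨by rw [e, cast_nx], ?_⟩
      rw [hv, hv] at hX2
      simpa using hX2

end Pool.Agent.Helper94.UR
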