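import Pool.Agent.Helper94.UR.Real

/-!
# Certificates for simple polygons
-/

set_option autoImplicit false

namespace Pool.Agent.Helper94.UR

open Pool.Agent.Helper20.Flip

private theorem simC_two {n : ℕ} (hn : 3 ≤ n) (j : ZMod n) : j ≠ j + 1 + 1 := by
  intro h
  have h2 : ((2 : ℕ) : ZMod n) = 0 := by
    have : j + 0 = j + (1 + 1) := by rw [add_zero, ← add_assoc]; exact h
    have h3 := add_left_cancel this
    push_cast
    rw [← one_add_one_eq_two]
    exact h3.symm
  rw [ZMod.natCast_eq_zero_iff] at h2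
  have := Nat.le_of_dvd (by norm_num) h2
  omega

private theorem simC_adj {a v b X α : Pt} (h1 : 1 ≤ dot α (a - v)) (h2 : dot α (b - v) ≤ 0)
    (hX : X ∈ segment ℝ a v) (hX' : X ∈ segment ℝ v b) : X = v := by
  obtain ⟨s, t, hs, ht, hst, rfl⟩ := hX
  obtain ⟨s', t', hs', ht', hst', hh⟩ := hX'
  have e1 := congrArg Prod.fst hh
  have e2 := congrArg Prod.snd hh
  simp only [Prod.fst_add, Prod.snd_add, Prod.smul_fst, Prod.smul_snd, smul_eq_mul] at e1 e2
  simp only [dot, Prod.fst_sub, Prod.snd_sub] at h1 h2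
  have ht1 : t = 1 - s := by linarith
  have hs1 : s' = 1 - t' := by linarith
  subst ht1 hs1
  have e3 : s * (α.1 * (a.1 - v.1) + α.2 * (a.2 - v.2)) =
      t' * (α.1 * (b.1 - v.1) + α.2 * (b.2 - v.2)) := by
    linear_combination (-α.1) * e1 + (-α.2) * e2
  have e4 : t' * (α.1 * (b.1 - v.1) + α.2 * (b.2 - v.2)) ≤ 0 :=
    mul_nonpos_of_nonneg_of_nonpos ht' h2
  have e5 : s ≤ 0 := by nlinarith
  have e6 : s = 0 := le_antisymm e5 hs
  subst e6
  simp

private theorem simC_far {a b a' b' X α : Pt} {c : ℝ} (h1 : 1 ≤ dot α a + c)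
    (h2 : 1 ≤ dot α b + c) (h3 : dot α a' + c ≤ -1) (h4 : dot α b' + c ≤ -1)
    (hX : X ∈ segment ℝ a b) (hX' : X ∈ segment ℝ a' b') : False := by
  obtain ⟨s, t, hs, ht, hst, rfl⟩ := hX
  obtain ⟨s', t', hs', ht', hst', hh⟩ := hX'
  have e1 := congrArg Prod.fst hh
  have e2 := congrArg Prod.snd hh
  simp only [Prod.fst_add, Prod.snd_add, Prod.smul_fst, Prod.smul_snd, smul_eq_mul] at e1 e2
  simp only [dot] at h1 h2 h3 h4
  have e3 : s * (α.1 * a.1 + α.2 * a.2 + c) + t * (α.1 * b.1 + α.2 * b.2 + c) =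
      s' * (α.1 * a'.1 + α.2 * a'.2 + c) + t' * (α.1 * b'.1 + α.2 * b'.2 + c) := by
    linear_combination (-α.1) * e1 + (-α.2) * e2 + c * hst - c * hst'
  have e4 := mul_le_mul_of_nonneg_left h1 hs
  have e5 := mul_le_mul_of_nonneg_left h2 ht
  have e6 := mul_le_mul_of_nonneg_left h3 hs'
  have e7 := mul_le_mul_of_nonneg_left h4 ht'
  linarith

private theorem simC_adj' {a v b : Pt} (ha : a ≠ v) (hb : v ≠ b)
    (h : ∀ X ∈ segment ℝ a v, X ∈ segment ℝ v b → X = v) :
    ∃ α : Pt, 1 ≤ dot α (a - v) ∧ dot α (b - v) ≤ 0 := by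
  set p : ℝ := a.1 - v.1 with hp
  set q : ℝ := a.2 - v.2 with hq
  set x : ℝ := b.1 - v.1 with hx
  set y : ℝ := b.2 - v.2 with hy
  have hpq : 0 < p ^ 2 + q ^ 2 := by
    rcases lt_or_eq_of_le (by positivity : 0 ≤ p ^ 2 + q ^ 2) with h0 | h0
    · exact h0
    · exfalso
      apply ha
      have h1 : p = 0 := by nlinarith [sq_nonneg p, sq_nonneg q]
      have h2 : q = 0 := by nlinarith [sq_nonneg p, sq_nonneg q]
      exact Prod.ext (by linarith) (by linarith)
  have hxy : 0 < x ^ 2 + y ^ 2 := by
    rcases lt_or_eq_of_le (by positivity : 0 ≤ x ^ 2 + y ^ 2) with h0 | h0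
    · exact h0
    · exfalso
      apply hb
      have h1 : x = 0 := by nlinarith [sq_nonneg x, sq_nonneg y]
      have h2 : y = 0 := by nlinarith [sq_nonneg x, sq_nonneg y]
      exact Prod.ext (by linarith) (by linarith)
  by_cases hc : p * y - q * x = 0
  · -- parallel
    have hneg : p * x + q * y < 0 := by
      by_contra hcon
      have hcon : 0 ≤ p * x + q * y := not_lt.1 hcon
      -- `(p, q) = μ (x, y)` with `μ > 0`
      set μ : ℝ := (p * x + q * y) / (x ^ 2 + y ^ 2) with hμ
      have e1 : p = μ * x := by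
        rw [hμ]; field_simp; linear_combination y * hc
      have e2 : q = μ * y := by
        rw [hμ]; field_simp; linear_combination (-x) * hc
      have hμ0 : 0 ≤ μ := by positivity
      have hμ1 : μ ≠ 0 := by
        intro h0
        rw [h0] at e1 e2
        rw [e1, e2] at hpq
        simp at hpq
      have hμ2 : 0 < μ := lt_of_le_of_ne hμ0 (Ne.symm hμ1)
      set s : ℝ := min 1 μ with hs
      have hs0 : 0 < s := lt_min one_pos hμ2
      have hs1 : s ≤ 1 := min_le_left _ _
      have hs2 : s ≤ μ := min_le_right _ _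
      have hX := h ((1 - s) • v + s • b) ?_ ?_
      · have f1 := congrArg Prod.fst hX
        have f2 := congrArg Prod.snd hX
        simp only [Prod.fst_add, Prod.snd_add, Prod.smul_fst, Prod.smul_snd, smul_eq_mul] at f1 f2
        have g1 : s * x = 0 := by rw [hx]; linear_combination f1
        have g2 : s * y = 0 := by rw [hy]; linear_combination f2
        have g3 : x = 0 := by
          rcases mul_eq_zero.1 g1 with h0 | h0
          · exact absurd h0 hs0.ne'
          · exact h0
        have g4 : y = 0 := by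
          rcases mul_eq_zero.1 g2 with h0 | h0
          · exact absurd h0 hs0.ne'
          · exact h0
        rw [g3, g4] at hxy
        simp at hxy
      · refine ⟨s / μ, 1 - s / μ, by positivity, ?_, by ring, ?_⟩
        · have : s / μ ≤ 1 := (div_le_one hμ2).2 hs2
          linarith
        · apply Prod.ext
          · simp only [Prod.fst_add, Prod.smul_fst, smul_eq_mul]
            have : s / μ * p = s * x := by rw [e1]; field_simp
            rw [hp, hx] at this
            linear_combination this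
          · simp only [Prod.snd_add, Prod.smul_snd, smul_eq_mul]
            have : s / μ * q = s * y := by rw [e2]; field_simp
            rw [hq, hy] at this
            linear_combination this
      · exact ⟨1 - s, s, by linarith, hs0.le, by ring, rfl⟩
    refine ⟨(p / (p ^ 2 + q ^ 2), q / (p ^ 2 + q ^ 2)), ?_, ?_⟩
    · simp only [dot, Prod.fst_sub, Prod.snd_sub]
      rw [← hp, ← hq]
      apply le_of_eq
      field_simp
    · simp only [dot, Prod.fst_sub, Prod.snd_sub]
      rw [← hx, ← hy]
      have : p / (p ^ 2 + q ^ 2) * x + q / (p ^ 2 + q ^ 2) * y =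
          (p * x + q * y) / (p ^ 2 + q ^ 2) := by ring
      rw [this]
      exact div_nonpos_of_nonpos_of_nonneg hneg.le hpq.le
  · refine ⟨(y / (p * y - q * x), -x / (p * y - q * x)), ?_, ?_⟩
    · simp only [dot, Prod.fst_sub, Prod.snd_sub]
      rw [← hp, ← hq]
      have : y / (p * y - q * x) * p + -x / (p * y - q * x) * q =
          (p * y - q * x) / (p * y - q * x) := by ring
      rw [this, div_self hc]
    · simp only [dot, Prod.fst_sub, Prod.snd_sub]
      rw [← hx, ← hy]
      apply le_of_eq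
      ring

private theorem simC_far' {a b a' b' : Pt}
    (h : ∀ X ∈ segment ℝ a b, X ∈ segment ℝ a' b' → False) :
    ∃ (α : Pt) (c : ℝ), 1 ≤ dot α a + c ∧ 1 ≤ dot α b + c ∧
      dot α a' + c ≤ -1 ∧ dot α b' + c ≤ -1 := by
  have hcomp : ∀ u w : Pt, IsCompact (segment ℝ u w) := fun u w => by
    rw [segment_eq_image]
    exact isCompact_Icc.image (by fun_prop)
  obtain ⟨f, u, v, hu, huv, hv⟩ := geometric_hahn_banach_compact_closed
    (convex_segment a' b') (hcomp a' b') (convex_segment a b) (hcomp a b).isClosed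
    (Set.disjoint_left.2 fun X h1 h2 => h X h2 h1)
  have hf : ∀ x : Pt, f x = f (1, 0) * x.1 + f (0, 1) * x.2 := by
    intro x
    have : x = x.1 • ((1, 0) : Pt) + x.2 • ((0, 1) : Pt) := by
      apply Prod.ext <;> simp
    conv_lhs => rw [this]
    rw [map_add, map_smul, map_smul, smul_eq_mul, smul_eq_mul]
    ring
  have huv' : 0 < v - u := by linarith
  have h1 := hv a (left_mem_segment ℝ a b)
  have h2 := hv b (right_mem_segment ℝ a b)
  have h3 := hu a' (left_mem_segment ℝ a' b')
  have h4 := hu b' (right_mem_segment ℝ a' b')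
  have key : ∀ x : Pt, dot (2 / (v - u) * f (1, 0), 2 / (v - u) * f (0, 1)) x +
      -(u + v) / (v - u) = (2 * f x - (u + v)) / (v - u) := by
    intro x
    rw [hf x]
    simp only [dot]
    field_simp
    ring
  refine ⟨(2 / (v - u) * f (1, 0), 2 / (v - u) * f (0, 1)), -(u + v) / (v - u), ?_, ?_, ?_, ?_⟩
  · rw [key, le_div_iff₀ huv']; linarith
  · rw [key, le_div_iff₀ huv']; linarith
  · rw [key, div_le_iff₀ huv']; linarith
  · rw [key, div_le_iff₀ huv']; linarith

/-- A polygon is simple iff there are separating affine functions. -/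
theorem simC_iff {n : ℕ} {V : ZMod n → Pt} (hn : 3 ≤ n) : SimC V ↔ IsSimple V := by
  constructor
  · rintro ⟨h0, h1⟩
    refine ⟨hn, h0, fun i j hij X hX hX' => ?_⟩
    by_cases h2 : i = j + 1
    · right
      refine ⟨h2, ?_⟩
      obtain ⟨α, ha, hb⟩ := (h1 j i (Ne.symm hij) (by
        rw [h2]; exact simC_two hn j)).1 h2
      rw [← h2] at hX'
      exact simC_adj ha hb hX' hX
    · by_cases h3 : j = i + 1
      · left
        refine ⟨h3, ?_⟩
        obtain ⟨α, ha, hb⟩ := (h1 i j hij h2).1 h3
        rw [← h3] at hX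
        exact simC_adj ha hb hX hX'
      · obtain ⟨α, c, ha, hb, hc, hd⟩ := (h1 i j hij h2).2 h3
        exact (simC_far ha hb hc hd hX hX').elim
  · rintro ⟨-, h0, h1⟩
    refine ⟨h0, fun i j hij h2 => ⟨fun h3 => ?_, fun h3 => ?_⟩⟩
    · apply simC_adj'
      · rw [h3]; exact h0 i
      · exact h0 j
      · intro X hX hX'
        rw [h3] at hX
        rcases h1 i j hij X hX hX' with h4 | h4
        · exact h4.2
        · exact absurd h4.1 h2
    · apply simC_far'
      intro X hX hX'
      rcases h1 i j hij X hX hX' with h4 | h4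
      · exact h3 h4.1
      · exact h2 h4.1

end Pool.Agent.Helper94.UR
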