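import Pool.Agent.Helper94.UR.Packs
import Pool.Agent.Helper94.UR.SemSim
import Pool.Agent.Helper94.UR.SimpleC
import Pool.Agent.Helper94.UR.Inside
import Pool.Agent.Helper94.UR.PGen
import Pool.Agent.Helper94.UR.Decode
import Pool.Agent.Helper69.TM.Equiv

/-!
# Unit-disk packing: guessed bits and a predicate in `∃ℝ ∩ ∀ℝ`
-/

set_option autoImplicit false

namespace Pool.Agent.Helper94.UR

open Pool.Agent.Helper20.Flip Pool.Agent.Helper97.UDP Pool.Agent.Helper96 Topology

/-! ### the inside test for the centres -/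

theorem near_iff_pos {n : ℕ} {V : ZMod n → Pt} (hV : IsSimple V) {c : Pt}
    (hc : ∀ i, Far (V i) (V (i + 1)) c) :
    c ∈ region V ↔ ∃ p, d2 p c < 1 ∧ Gen V p ∧ Ins V p := by
  constructor
  · intro h
    obtain ⟨p, hp, hg⟩ := exists_near_gen hV c
    obtain ⟨h1, h2⟩ := near_same hV hc hp
    exact ⟨p, hp, hg, (region_iff_ins hV h1 hg).1 (h2.2 h)⟩
  · rintro ⟨p, hp, hg, hi⟩
    obtain ⟨h1, h2⟩ := near_same hV hc hp
    exact h2.1 ((region_iff_ins hV h1 hg).2 hi)

theorem near_iff_neg {n : ℕ} {V : ZMod n → Pt} (hV : IsSimple V) {c : Pt}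
    (hc : ∀ i, Far (V i) (V (i + 1)) c) :
    c ∉ region V ↔ ∃ p, d2 p c < 1 ∧ Gen V p ∧ ¬ Ins V p := by
  constructor
  · intro h
    obtain ⟨p, hp, hg⟩ := exists_near_gen hV c
    obtain ⟨h1, h2⟩ := near_same hV hc hp
    exact ⟨p, hp, hg, fun hi => h (h2.1 ((region_iff_ins hV h1 hg).2 hi))⟩
  · rintro ⟨p, hp, hg, hi⟩ h
    obtain ⟨h1, h2⟩ := near_same hV hc hp
    exact hi ((region_iff_ins hV h1 hg).1 (h2.2 h))

/-! ### the two sentences -/

theorem ev_pv (v : ℕ → ℝ) (κ i : ℕ) : ev v (pv κ i) = (g3 v κ i 0, g3 v κ i 1) := rfl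

/-- the coordinates of a family of points as a function of two indices -/
def co (x : ℕ → Pt) (l j : ℕ) : ℝ := if j = 0 then (x l).1 else (x l).2

theorem XP_of {v : ℕ → ℝ} {κ : ℕ} {x : ℕ → Pt} (h : ∀ i j, g3 v κ i j = co x i j) :
    XP κ v = x := by
  funext l
  show (g3 v κ l 0, g3 v κ l 1) = x l
  rw [h, h]
  simp [co]

/-- values of the variables by kinds -/
noncomputable def mkV (P : List (RatCode × RatCode)) (z x : ℕ → Pt) (ω : ℕ → ℝ) (p : ℕ → Pt)
    (g g' : ℕ → ℕ → ℝ) : ℕ → ℝ :=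
  m3 fun k i j =>
    if k = 0 then co (vert P) i j else if k = 1 then rho P i else if k = 2 then co z i j
    else if k = 3 then co x i j else if k = 4 then ω i else if k = 5 then co p i j
    else if k = 6 then g i j else g' i j

section
variable {P : List (RatCode × RatCode)} {z x : ℕ → Pt} {ω : ℕ → ℝ} {p : ℕ → Pt}
  {g g' : ℕ → ℕ → ℝ}

theorem mkV_base : BaseR P (mkV P z x ω p g g') := by
  intro a ha
  constructor
  · show (g3 _ 0 a 0, g3 _ 0 a 1) = vert P a
    simp [mkV, co]
  · simp [mkV]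

theorem mkV_two : XP 2 (mkV P z x ω p g g') = z := XP_of (by intro i j; simp [mkV])
theorem mkV_three : XP 3 (mkV P z x ω p g g') = x := XP_of (by intro i j; simp [mkV])
theorem mkV_four : (fun k => g3 (mkV P z x ω p g g') 4 k 0) = ω := by funext i; simp [mkV]
theorem mkV_five : XP 5 (mkV P z x ω p g g') = p := XP_of (by intro i j; simp [mkV])
theorem mkV_six (i j : ℕ) : g3 (mkV P z x ω p g g') 6 i j = g i j := by simp [mkV]
theorem mkV_seven (i j : ℕ) : g3 (mkV P z x ω p g g') 7 i j = g' i j := by simp [mkV]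

end

theorem sel_valid {n m : ℕ} {y : List Bool} : ∀ k ∈ Ks n m y, (Zf n m y k).Valid n m :=
  fun _ hk => Zf_valid (lt_of_mem_Ks hk)

theorem far_of_cons {P : List (RatCode × RatCode)} {m : ℕ} {y : List Bool} {x : ℕ → Pt}
    (hV : IsSimple (polygon P)) (h : ∀ k < (consL P.length m y).length,
      0 ≤ qR P.length (vert P) (rho P) x (Zf P.length m y k)) {l : ℕ} (hl : l < m) :
    ∀ i, Far (polygon P i) (polygon P (i + 1)) (x l) := by
  rw [forall_Zf (p := fun c => 0 ≤ qR P.length (vert P) (rho P) x c)] at h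
  exact (far_iff_vert hV _).2 ((cons_iff h).1 l hl)

theorem feasF_iff {P : List (RatCode × RatCode)} {v : ℕ → ℝ} (hb : BaseR P v)
    (hn : P.length ≠ 0) (m : ℕ) (y : List Bool) : (feasF P.length m y).Holds v ↔
      (∀ k < (consL P.length m y).length,
        0 ≤ qR P.length (vert P) (rho P) (XP 3 v) (Zf P.length m y k)) ∧
      ∀ l < m, (d2 (XP 5 v l) (XP 3 v l) < 1 ∧ Gen (polygon P) (XP 5 v l)) ∧
        Ins (polygon P) (XP 5 v l) := by
  unfold feasF
  rw [holds_and, cons_le_iff hb, holds_all]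
  refine and_congr_right fun _ => ?_
  simp only [List.mem_map, List.mem_range, forall_exists_index, and_imp,
    forall_apply_eq_imp_iff₂, holds_and, nearF_iff hb hn, insF_iff hb hn]
  rfl

theorem nfeasF_iff {P : List (RatCode × RatCode)} {v : ℕ → ℝ} (hb : BaseR P v)
    (hn : P.length ≠ 0) (m : ℕ) (y : List Bool) : (nfeasF P.length m y).Holds v ↔
      (∃ k < (consL P.length m y).length,
        qR P.length (vert P) (rho P) (XP 3 v) (Zf P.length m y k) < 0) ∨
      ∃ l < m, (d2 (XP 5 v l) (XP 3 v l) < 1 ∧ Gen (polygon P) (XP 5 v l)) ∧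
        ¬ Ins (polygon P) (XP 5 v l) := by
  unfold nfeasF
  rw [holds_or, cons_lt_iff hb, holds_any]
  refine or_congr_right ?_
  constructor
  · rintro ⟨φ, hφ, h⟩
    obtain ⟨l, hl, rfl⟩ := List.mem_map.1 hφ
    rw [holds_and, nearF_iff hb hn, holds_not, insF_iff hb hn] at h
    exact ⟨l, List.mem_range.1 hl, h⟩
  · rintro ⟨l, hl, h⟩
    refine ⟨_, List.mem_map.2 ⟨l, List.mem_range.2 hl, rfl⟩, ?_⟩
    rw [holds_and, nearF_iff hb hn, holds_not, insF_iff hb hn]
    exact h

/-- the first sentence expresses the predicate -/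
theorem yesF_iff {P : List (RatCode × RatCode)}
    (hden : ∀ q ∈ P, val q.1.2.2 ≠ 0 ∧ val q.2.2.2 ≠ 0) (hn : 3 ≤ P.length) (m : ℕ)
    (y : List Bool) : (∃ v, (yesF P m y).Holds v) ↔ Good P m y := by
  constructor
  · rintro ⟨v, h⟩
    unfold yesF at h
    simp only [holds_and] at h
    obtain ⟨hb, h1, h2, h3, h4⟩ := h
    rw [baseF_iff hden] at hb
    have hV : IsSimple (polygon P) := (simC_iff hn).1 (simC_of_simF hb hn h1)
    rw [sfF_iff hb] at h2
    rw [kktF_iff hb] at h3
    rw [feasF_iff hb (by omega)] at h4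
    refine ⟨hV, ⟨_, h2⟩, _, _, h3, h4.1, fun l hl => ?_⟩
    rw [near_iff_pos hV (far_of_cons hV h4.1 hl)]
    obtain ⟨⟨h5, h6⟩, h7⟩ := h4.2 l hl
    exact ⟨_, h5, h6, h7⟩
  · rintro ⟨hV, ⟨z, hz⟩, x, ω, h1, h2, h3⟩
    obtain ⟨g, hg⟩ := exists_simF hn ((simC_iff hn).2 hV)
    have h4 : ∀ l, ∃ p, l < m → d2 p (x l) < 1 ∧ Gen (polygon P) p ∧ Ins (polygon P) p := by
      intro l
      by_cases hl : l < m
      · obtain ⟨p, hp⟩ := (near_iff_pos hV (far_of_cons hV h2 hl)).1 (h3 l hl)
        exact ⟨p, fun _ => hp⟩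
      · exact ⟨0, fun h => absurd h hl⟩
    choose p hp using h4
    refine ⟨mkV P z x ω p g g, ?_⟩
    have hb : BaseR P (mkV P z x ω p g g) := mkV_base
    unfold yesF
    simp only [holds_and]
    refine ⟨(baseF_iff hden _).2 hb, hg _ hb mkV_six, ?_, ?_, ?_⟩
    · rw [sfF_iff hb, mkV_two]
      exact hz
    · rw [kktF_iff hb, mkV_three, mkV_four]
      exact h1
    · rw [feasF_iff hb (by omega), mkV_three, mkV_five]
      exact ⟨h2, fun l hl => ⟨⟨(hp l hl).1, (hp l hl).2.1⟩, (hp l hl).2.2⟩⟩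

/-- the second sentence expresses the negation of the predicate -/
theorem noF_iff {P : List (RatCode × RatCode)}
    (hden : ∀ q ∈ P, val q.1.2.2 ≠ 0 ∧ val q.2.2.2 ≠ 0) (hn : 3 ≤ P.length) (m : ℕ)
    (y : List Bool) : (∃ v, (noF P m y).Holds v) ↔ ¬ Good P m y := by
  constructor
  · rintro ⟨v, h⟩ ⟨hV, hsf, x, ω, h1, h2, h3⟩
    unfold noF at h
    simp only [holds_and, holds_or] at h
    obtain ⟨hb, h | h | ⟨h4, h5⟩⟩ := h
    · rw [baseF_iff hden] at hb
      exact not_simple_of_nsimF hb hn h hV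
    · rw [baseF_iff hden] at hb
      rw [nsfF_iff hb] at h
      exact (not_sfr_iff _ _ _ _ sel_valid).2 ⟨_, _, h⟩ hsf
    · rw [baseF_iff hden] at hb
      rw [kktF_iff hb] at h4
      have hx : ∀ l < m, XP 3 v l = x l := fun l hl => kktr_unique sel_valid h4 h1 hl
      rw [nfeasF_iff hb (by omega)] at h5
      rcases h5 with ⟨k, hk, h6⟩ | ⟨l, hl, ⟨h6, h7⟩, h8⟩
      · have h9 := h2 k hk
        have h10 : qR P.length (vert P) (rho P) (XP 3 v) (Zf P.length m y k) =
            qR P.length (vert P) (rho P) x (Zf P.length m y k) := by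
          have hv := Zf_valid hk
          rcases hv with ⟨e1, e2, e3, -⟩ | ⟨e1, -, e2, -⟩
          · unfold qR
            rw [if_pos e1, if_pos e1, hx _ e2, hx _ e3]
          · have e0 : ¬ (Zf P.length m y k).1 = 0 := by omega
            unfold qR
            rw [hx _ e2, if_neg e0, if_neg e0]
        rw [h10] at h6
        exact absurd h6 (not_lt.2 h9)
      · rw [hx l hl] at h6
        exact (near_iff_neg hV (far_of_cons hV h2 hl)).2 ⟨_, h6, h7, h8⟩ (h3 l hl)
  · intro h
    by_cases hV : IsSimple (polygon P)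
    · by_cases hsf : SFr P.length (vert P) (rho P) (Zf P.length m y) (Ks P.length m y)
      · obtain ⟨x, ω, h1⟩ := exists_kktr (vert P) (rho P) (Zf P.length m y) (Ks P.length m y)
          sel_valid hsf
        by_cases h2 : ∀ k < (consL P.length m y).length,
            0 ≤ qR P.length (vert P) (rho P) x (Zf P.length m y k)
        · have h3 : ∃ l < m, x l ∉ region (polygon P) := by
            by_contra h4
            push Not at h4
            exact h ⟨hV, hsf, x, ω, h1, h2, h4⟩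
          obtain ⟨l, hl, h3⟩ := h3
          obtain ⟨p, hp⟩ := (near_iff_neg hV (far_of_cons hV h2 hl)).1 h3
          refine ⟨mkV P x x ω (fun _ => p) (fun _ _ => 0) (fun _ _ => 0), ?_⟩
          have hb : BaseR P (mkV P x x ω (fun _ => p) (fun _ _ => 0) (fun _ _ => 0)) := mkV_base
          unfold noF
          simp only [holds_and, holds_or]
          refine ⟨(baseF_iff hden _).2 hb, Or.inr (Or.inr ⟨?_, ?_⟩)⟩
          · rw [kktF_iff hb, mkV_three, mkV_four]
            exact h1
          · rw [nfeasF_iff hb (by omega), mkV_three, mkV_five]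
            exact Or.inr ⟨l, hl, ⟨hp.1, hp.2.1⟩, hp.2.2⟩
        · push Not at h2
          refine ⟨mkV P x x ω x (fun _ _ => 0) (fun _ _ => 0), ?_⟩
          have hb : BaseR P (mkV P x x ω x (fun _ _ => 0) (fun _ _ => 0)) := mkV_base
          unfold noF
          simp only [holds_and, holds_or]
          refine ⟨(baseF_iff hden _).2 hb, Or.inr (Or.inr ⟨?_, ?_⟩)⟩
          · rw [kktF_iff hb, mkV_three, mkV_four]
            exact h1
          · rw [nfeasF_iff hb (by omega), mkV_three, mkV_five]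
            exact Or.inl h2
      · obtain ⟨x, ω, h1⟩ := (not_sfr_iff _ _ _ _ sel_valid).1 hsf
        refine ⟨mkV P x x ω x (fun _ _ => 0) (fun _ _ => 0), ?_⟩
        have hb : BaseR P (mkV P x x ω x (fun _ _ => 0) (fun _ _ => 0)) := mkV_base
        unfold noF
        simp only [holds_and, holds_or]
        refine ⟨(baseF_iff hden _).2 hb, Or.inr (Or.inl ?_)⟩
        rw [nsfF_iff hb, mkV_three]
        have h2 : ∀ k, g3 (mkV P x x ω x (fun _ _ => 0) (fun _ _ => 0)) 4 k 0 = ω k :=
          fun k => congrFun mkV_four k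
        simp only [h2]
        exact h1
    · obtain ⟨g, hg⟩ := exists_nsimF hn hV
      refine ⟨mkV P (fun _ => 0) (fun _ => 0) (fun _ => 0) (fun _ => 0) g g, ?_⟩
      have hb : BaseR P (mkV P (fun _ => 0) (fun _ => 0) (fun _ => 0) (fun _ => 0) g g) :=
        mkV_base
      unfold noF
      simp only [holds_and, holds_or]
      exact ⟨(baseF_iff hden _).2 hb, Or.inl (hg _ hb mkV_seven)⟩

end Pool.Agent.Helper94.UR
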