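import Pool.Agent.Helper94.UR.PForm

/-!
# The formulas
-/

set_option autoImplicit false

namespace Pool.Agent.Helper94.UR

open Pool.Agent.Helper20.Flip Pool.Agent.Helper96

/-- pairs of terms, as points -/
abbrev PT := Tm × Tm

/-- value of a pair of terms -/
def ev (v : ℕ → ℝ) (p : PT) : Pt := (p.1.eval v, p.2.eval v)

/-- the point with the variables `(κ, i, 0)` and `(κ, i, 1)` -/
def pv (κ i : ℕ) : PT := (v3 κ i 0, v3 κ i 1)

/-- the next index modulo `n` -/
def nx (n a : ℕ) : ℕ := if a + 1 = n then 0 else a + 1

def d2T (A B : PT) : Tm := .add (.sq (.sub A.1 B.1)) (.sq (.sub A.2 B.2))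

/-! ### the polygon: kind 0 for the vertices, kind 1 for the lengths of the edges -/

def vx (a : ℕ) : PT := pv 0 a

/-- the equations of the vertices; the numbers `v3 1 a 0` are the lengths of the edges -/
def ratF (r : RatCode) (x : Tm) : Fm :=
  .eq (.mul (.nat r.2.2) x) (if r.1 then .neg (.nat r.2.1) else .nat r.2.1)

def baseF (P : List (RatCode × RatCode)) : Fm :=
  .all ((List.range P.length).map fun a =>
    .and (.and (ratF (P.getD a default).1 (vx a).1) (ratF (P.getD a default).2 (vx a).2))
      (.and (.le .zero (v3 1 a 0))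
        (.eq (.sq (v3 1 a 0)) (d2T (vx a) (vx (nx P.length a))))))

/-! ### constraints -/

/-- Codes of constraints: `(0, i, j)` for the pair of the disks `i`, `j`, and `(k, i, a)`,
`1 ≤ k ≤ 5`, for the disk `i` and the vertex or edge `a`: `1` the vertex `a` has distance at
least `1`; `2` the projection is before the edge; `3` the projection is after the edge; `4`, `5`:
the centre is at distance at least `1` to the left (right) of the line. -/
abbrev Con := ℕ × ℕ × ℕ

/-- linear part -/
def cα (n k a : ℕ) : PT :=
  if k = 1 then (.zero, .zero)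
  else if k = 2 then (.sub (vx a).1 (vx (nx n a)).1, .sub (vx a).2 (vx (nx n a)).2)
  else if k = 3 then (.sub (vx (nx n a)).1 (vx a).1, .sub (vx (nx n a)).2 (vx a).2)
  else if k = 4 then (.sub (vx a).2 (vx (nx n a)).2, .sub (vx (nx n a)).1 (vx a).1)
  else (.sub (vx (nx n a)).2 (vx a).2, .sub (vx a).1 (vx (nx n a)).1)

/-- reference point -/
def cr (n k a : ℕ) : PT := if k = 3 then vx (nx n a) else vx a

/-- constant -/
def ce (k a : ℕ) : Tm :=
  if k = 1 then .one else if k = 2 then .zero else if k = 3 then .zero else v3 1 a 0

/-- the value of the constraint `c` at the centres of kind `κ` -/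
def qT (n κ : ℕ) (c : Con) : Tm :=
  if c.1 = 0 then .sub (d2T (pv κ c.2.1) (pv κ c.2.2)) .four
  else .add (if c.1 = 1 then d2T (pv κ c.2.1) (cr n c.1 c.2.2) else .zero)
    (.sub (.add (.mul (cα n c.1 c.2.2).1 (.sub (pv κ c.2.1).1 (cr n c.1 c.2.2).1))
      (.mul (cα n c.1 c.2.2).2 (.sub (pv κ c.2.1).2 (cr n c.1 c.2.2).2))) (ce c.1 c.2.2))

/-- the gradient of the constraint `c` with respect to the centre `l` -/
def gT (n κ : ℕ) (c : Con) (l : ℕ) : PT :=
  if c.1 = 0 then
    (if l = c.2.1 then (.mul .two (.sub (pv κ c.2.1).1 (pv κ c.2.2).1),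
        .mul .two (.sub (pv κ c.2.1).2 (pv κ c.2.2).2))
      else if l = c.2.2 then (.mul .two (.sub (pv κ c.2.2).1 (pv κ c.2.1).1),
        .mul .two (.sub (pv κ c.2.2).2 (pv κ c.2.1).2))
      else (.zero, .zero))
  else if l = c.2.1 then
    (.add (if c.1 = 1 then .mul .two (.sub (pv κ c.2.1).1 (cr n c.1 c.2.2).1) else .zero)
        (cα n c.1 c.2.2).1,
      .add (if c.1 = 1 then .mul .two (.sub (pv κ c.2.1).2 (cr n c.1 c.2.2).2) else .zero)
        (cα n c.1 c.2.2).2)
  else (.zero, .zero)

/-- the zone constraints for the disk `i` and the edge `a` -/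
def zoneL (n i a : ℕ) (b b' : Bool) : List Con :=
  if b then [(if b' then 4 else 5, i, a)]
  else if b' then [(1, i, nx n a), (3, i, a)] else [(1, i, a), (2, i, a)]

/-- all constraints, for a guess `y` (even positions) -/
def consL (n m : ℕ) (y : List Bool) : List Con :=
  (List.range m).flatMap (fun i => (List.range i).map fun j => (0, i, j)) ++
  (List.range m).flatMap (fun i => (List.range n).flatMap fun a =>
    zoneL n i a (y.getD (2 * (2 * (i * n + a))) false) (y.getD (2 * (2 * (i * n + a) + 1)) false))

/-- the indices of the selected constraints, for a guess `y` (odd positions) -/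
def selL (n m : ℕ) (y : List Bool) : List ℕ :=
  (List.range (consL n m y).length).filter fun k => y.getD (2 * k + 1) false

/-! ### the parts of the sentences: kind 2 for the strictly feasible point, kind 3 for the centres,
kind 4 for the multipliers, kind 5 for points near the centres -/

/-- strict feasibility of the reversed constraints -/
def sfF (n m : ℕ) (y : List Bool) : Fm :=
  .all ((selL n m y).map fun k => .lt (qT n 2 ((consL n m y).getD k default)) .zero)

/-- the sum of the multipliers times the gradients -/
def gradT (n m : ℕ) (y : List Bool) (l : ℕ) : PT :=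
  (.sum ((selL n m y).map fun k => .mul (v3 4 k 0) (gT n 3 ((consL n m y).getD k default) l).1),
    .sum ((selL n m y).map fun k => .mul (v3 4 k 0) (gT n 3 ((consL n m y).getD k default) l).2))

/-- the conditions of Karush, Kuhn and Tucker -/
def kktF (n m : ℕ) (y : List Bool) : Fm :=
  .and (.all ((selL n m y).map fun k => .le .zero (v3 4 k 0)))
    (.and (.all ((List.range m).map fun l =>
        .and (.eq (.add (.mul .two (v3 3 l 0)) (gradT n m y l).1) .zero)
          (.eq (.add (.mul .two (v3 3 l 1)) (gradT n m y l).2) .zero)))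
      (.all ((selL n m y).map fun k =>
        .and (.le (qT n 3 ((consL n m y).getD k default)) .zero)
          (.eq (.mul (v3 4 k 0) (qT n 3 ((consL n m y).getD k default))) .zero))))

/-- the certificate for the failure of strict feasibility -/
def nsfF (n m : ℕ) (y : List Bool) : Fm :=
  .and (.all ((selL n m y).map fun k => .le .zero (v3 4 k 0)))
    (.and (.eq (.sum ((selL n m y).map fun k => v3 4 k 0)) .one)
      (.and (.all ((List.range m).map fun l =>
          .and (.eq (gradT n m y l).1 .zero) (.eq (gradT n m y l).2 .zero)))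
        (.le .zero (.sum ((selL n m y).map fun k =>
          .mul (v3 4 k 0) (qT n 3 ((consL n m y).getD k default)))))))

/-- the horizontal extent of the edge `a` -/
def dxT (n a : ℕ) : Tm := .sub (vx (nx n a)).1 (vx a).1

/-- height of the line of the edge `a` at the abscissa of `p`, times the extent -/
def htT (n a : ℕ) (p : PT) : Tm :=
  .add (.mul (vx a).2 (dxT n a))
    (.mul (.sub p.1 (vx a).1) (.sub (vx (nx n a)).2 (vx a).2))

/-- the edge `a` is above the point `p` -/
def abF (n a : ℕ) (p : PT) : Fm :=
  .and (.or (.and (.lt (vx a).1 p.1) (.lt p.1 (vx (nx n a)).1))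
      (.and (.lt (vx (nx n a)).1 p.1) (.lt p.1 (vx a).1)))
    (.lt (.mul p.2 (.sq (dxT n a))) (.mul (htT n a p) (dxT n a)))

/-- at the abscissa of `p` the edge `a` is not higher than the edge `e` -/
def lowF (n a e : ℕ) (p : PT) : Fm :=
  .le (.mul (.mul (htT n a p) (dxT n a)) (.sq (dxT n e)))
    (.mul (.mul (htT n e p) (dxT n e)) (.sq (dxT n a)))

/-- the inside test: the lowest and the highest edge above `p` have the same direction -/
def insF (n : ℕ) (p : PT) : Fm :=
  .any ((List.range n).flatMap fun a => (List.range n).map fun b =>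
    .and (.lt .zero (.mul (dxT n a) (dxT n b)))
      (.and (.and (abF n a p) (abF n b p))
        (.all ((List.range n).map fun e =>
          .imp (abF n e p) (.and (lowF n a e p) (lowF n e b p))))))

/-- `p` is not vertically above or below a vertex -/
def genF (n : ℕ) (p : PT) : Fm := .all ((List.range n).map fun a => .not (.eq (vx a).1 p.1))

/-- `p` is generic and at distance less than one from the centre `l` -/
def nearF (n l : ℕ) : Fm :=
  .and (.lt (d2T (pv 5 l) (pv 3 l)) .one) (genF n (pv 5 l))

/-- the centres are feasible -/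
def feasF (n m : ℕ) (y : List Bool) : Fm :=
  .and (.all ((consL n m y).map fun c => .le .zero (qT n 3 c)))
    (.all ((List.range m).map fun l => .and (nearF n l) (insF n (pv 5 l))))

/-- the centres are not feasible -/
def nfeasF (n m : ℕ) (y : List Bool) : Fm :=
  .or (.any ((consL n m y).map fun c => .lt (qT n 3 c) .zero))
    (.any ((List.range m).map fun l => .and (nearF n l) (.not (insF n (pv 5 l)))))

/-! ### simple polygons: kind 6 for separating lines, kind 7 for a point of two edges -/

/-- value of the affine function with the coefficients of kind 6 -/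
def affT (a b : ℕ) (A : PT) : Tm :=
  .add (.add (.mul (v3 6 (Nat.pair a b) 0) A.1) (.mul (v3 6 (Nat.pair a b) 1) A.2))
    (v3 6 (Nat.pair a b) 2)

/-- the linear part of the affine function with the coefficients of kind 6 -/
def linT (a b : ℕ) (A B : PT) : Tm :=
  .add (.mul (v3 6 (Nat.pair a b) 0) (.sub A.1 B.1))
    (.mul (v3 6 (Nat.pair a b) 1) (.sub A.2 B.2))

/-- certificate for the pair of edges `a`, `b` -/
def sepF (n a b : ℕ) : Fm :=
  if a = b then .tt
  else if a = nx n b then .tt
  else if b = nx n a then .and (.le .one (linT a b (vx a) (vx b)))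
    (.le (linT a b (vx (nx n b)) (vx b)) .zero)
  else .and (.and (.le .one (affT a b (vx a))) (.le .one (affT a b (vx (nx n a)))))
    (.and (.le (affT a b (vx b)) (.neg .one)) (.le (affT a b (vx (nx n b))) (.neg .one)))

def ptEq (A B : PT) : Fm := .and (.eq A.1 B.1) (.eq A.2 B.2)

/-- certificate for a simple polygon -/
def simF (n : ℕ) : Fm :=
  .and (.all ((List.range n).map fun a => .not (ptEq (vx a) (vx (nx n a)))))
    (.all ((List.range n).flatMap fun a => (List.range n).map fun b => sepF n a b))

/-- the point `v3 7 0` is the point with the parameter `v3 7 j 0` of the edge `a` -/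
def onF (n a j : ℕ) : Fm :=
  .and (.and (.le .zero (v3 7 j 0)) (.le (v3 7 j 0) .one))
    (.and (.eq (v3 7 0 0) (.add (vx a).1 (.mul (v3 7 j 0) (.sub (vx (nx n a)).1 (vx a).1))))
      (.eq (v3 7 0 1) (.add (vx a).2 (.mul (v3 7 j 0) (.sub (vx (nx n a)).2 (vx a).2)))))

/-- certificate for a polygon which is not simple -/
def nsimF (n : ℕ) : Fm :=
  .or (.any ((List.range n).map fun a => ptEq (vx a) (vx (nx n a))))
    (.any ((List.range n).flatMap fun a => (List.range n).map fun b =>
      if a = b then .ff else .and (.and (onF n a 1) (onF n b 2))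
        (.and (if b = nx n a then .not (ptEq (pv 7 0) (vx b)) else .tt)
          (if a = nx n b then .not (ptEq (pv 7 0) (vx a)) else .tt))))

/-! ### the two sentences -/

/-- the sentence for membership -/
def yesF (P : List (RatCode × RatCode)) (m : ℕ) (y : List Bool) : Fm :=
  .and (baseF P) (.and (simF P.length)
    (.and (sfF P.length m y) (.and (kktF P.length m y) (feasF P.length m y))))

/-- the sentence for non-membership -/
def noF (P : List (RatCode × RatCode)) (m : ℕ) (y : List Bool) : Fm :=
  .and (baseF P) (.or (nsimF P.length)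
    (.or (nsfF P.length m y) (.and (kktF P.length m y) (nfeasF P.length m y))))

end Pool.Agent.Helper94.UR
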