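import Pool.Agent.Helper94.UR.Sem

/-!
# Guesses
-/

set_option autoImplicit false

namespace Pool.Agent.Helper94.UR

open Pool.Agent.Helper20.Flip

/-- the guess with given letters at the even and at the odd positions -/
def mkY (L : ℕ) (zb tb : ℕ → Bool) : List Bool :=
  (List.range L).map fun r => if r % 2 = 0 then zb (r / 2) else tb (r / 2)

theorem length_mkY (L : ℕ) (zb tb : ℕ → Bool) : (mkY L zb tb).length = L := by
  simp [mkY]

theorem mkY_even {L : ℕ} (zb tb : ℕ → Bool) {k : ℕ} (h : 2 * k < L) :
    (mkY L zb tb).getD (2 * k) false = zb k := by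
  rw [List.getD_eq_getElem _ _ (by rw [length_mkY]; exact h)]
  simp [mkY]

theorem mkY_odd {L : ℕ} (zb tb : ℕ → Bool) {k : ℕ} (h : 2 * k + 1 < L) :
    (mkY L zb tb).getD (2 * k + 1) false = tb k := by
  rw [List.getD_eq_getElem _ _ (by rw [length_mkY]; exact h)]
  simp only [mkY, List.getElem_map, List.getElem_range]
  rw [if_neg (by omega), show (2 * k + 1) / 2 = k by omega]

/-- the letters for the zones -/
def zbits (n : ℕ) (b b' : ℕ → ℕ → Bool) (k : ℕ) : Bool :=
  if k % 2 = 0 then b (k / 2 / n) (k / 2 % n) else b' (k / 2 / n) (k / 2 % n)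

theorem zbits_even {n : ℕ} (b b' : ℕ → ℕ → Bool) {i a : ℕ} (ha : a < n) :
    zbits n b b' (2 * (i * n + a)) = b i a := by
  unfold zbits
  have h1 : 2 * (i * n + a) % 2 = 0 := by omega
  have h2 : 2 * (i * n + a) / 2 = i * n + a := by omega
  rw [if_pos h1, h2]
  have h3 : (i * n + a) / n = i := by
    rw [mul_comm, Nat.mul_add_div (by omega), Nat.div_eq_of_lt ha, add_zero]
  have h4 : (i * n + a) % n = a := by
    rw [mul_comm, Nat.mul_add_mod, Nat.mod_eq_of_lt ha]
  rw [h3, h4]

theorem zbits_odd {n : ℕ} (b b' : ℕ → ℕ → Bool) {i a : ℕ} (ha : a < n) :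
    zbits n b b' (2 * (i * n + a) + 1) = b' i a := by
  unfold zbits
  have h1 : ¬ (2 * (i * n + a) + 1) % 2 = 0 := by omega
  have h2 : (2 * (i * n + a) + 1) / 2 = i * n + a := by omega
  rw [if_neg h1, h2]
  have h3 : (i * n + a) / n = i := by
    rw [mul_comm, Nat.mul_add_div (by omega), Nat.div_eq_of_lt ha, add_zero]
  have h4 : (i * n + a) % n = a := by
    rw [mul_comm, Nat.mul_add_mod, Nat.mod_eq_of_lt ha]
  rw [h3, h4]

theorem mem_consL {n m : ℕ} {y : List Bool} {c : Con} : c ∈ consL n m y ↔
    (∃ i < m, ∃ j < i, c = (0, i, j)) ∨ ∃ i < m, ∃ a < n,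
      c ∈ zoneL n i a (y.getD (2 * (2 * (i * n + a))) false)
        (y.getD (2 * (2 * (i * n + a) + 1)) false) := by
  unfold consL
  simp only [List.mem_append, List.mem_flatMap, List.mem_range, List.mem_map]
  constructor
  · rintro (⟨i, hi, j, hj, rfl⟩ | ⟨i, hi, a, ha, h⟩)
    · exact Or.inl ⟨i, hi, j, hj, rfl⟩
    · exact Or.inr ⟨i, hi, a, ha, h⟩
  · rintro (⟨i, hi, j, hj, rfl⟩ | ⟨i, hi, a, ha, h⟩)
    · exact Or.inl ⟨i, hi, j, hj, rfl⟩
    · exact Or.inr ⟨i, hi, a, ha, h⟩

theorem consL_congr {n m : ℕ} {y y' : List Bool}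
    (h : ∀ k < 2 * (m * n), y.getD (2 * k) false = y'.getD (2 * k) false) :
    consL n m y = consL n m y' := by
  unfold consL
  congr 1
  refine List.flatMap_congr fun i hi => List.flatMap_congr fun a ha => ?_
  have h0 : i * n + a < m * n := by
    have h1 := List.mem_range.1 hi
    have h2 := List.mem_range.1 ha
    nlinarith
  rw [h (2 * (i * n + a)) (by omega), h (2 * (i * n + a) + 1) (by omega)]

theorem length_zoneL_le (n i a : ℕ) (b b' : Bool) : (zoneL n i a b b').length ≤ 2 := by
  unfold zoneL
  split_ifs <;> simp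

theorem length_flatMap_range_le {α : Type*} (m B : ℕ) (f : ℕ → List α)
    (h : ∀ i < m, (f i).length ≤ B) : ((List.range m).flatMap f).length ≤ m * B := by
  induction m with
  | zero => simp
  | succ m ih =>
    rw [List.range_succ, List.flatMap_append, List.length_append]
    have h1 := ih fun i hi => h i (by omega)
    have h2 := h m (by omega)
    simp only [List.flatMap_cons, List.flatMap_nil, List.append_nil]
    rw [add_mul, one_mul]
    omega

theorem length_consL_le (n m : ℕ) (y : List Bool) :
    (consL n m y).length ≤ m * m + m * (n * 2) := by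
  unfold consL
  rw [List.length_append]
  refine add_le_add (length_flatMap_range_le m m _ fun i hi => ?_)
    (length_flatMap_range_le m (n * 2) _ fun i hi =>
      length_flatMap_range_le n 2 _ fun a ha => length_zoneL_le _ _ _ _ _)
  simp
  omega

/-- the bound for the length of the guess -/
def bnd (n m : ℕ) : ℕ := 4 * (m * n) + 2 * (m * m + m * (n * 2)) + 2

/-- every choice of zones and every selection is coded by a guess of small length -/
theorem exists_guess (n m : ℕ) (b b' : ℕ → ℕ → Bool) (K : List Con → Finset ℕ)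
    (hK : ∀ Z, K Z ⊆ Finset.range Z.length) :
    ∃ y : List Bool, y.length ≤ bnd n m ∧
      (∀ i < m, ∀ a < n, y.getD (2 * (2 * (i * n + a))) false = b i a ∧
        y.getD (2 * (2 * (i * n + a) + 1)) false = b' i a) ∧
      Ks n m y = K (consL n m y) := by
  classical
  set y₀ := mkY (bnd n m) (zbits n b b') (fun _ => false) with hy₀
  set y := mkY (bnd n m) (zbits n b b') (fun k => decide (k ∈ K (consL n m y₀))) with hy
  have h1 : consL n m y = consL n m y₀ := by
    apply consL_congr
    intro k hk
    have h2 : 2 * k < bnd n m := by unfold bnd; omega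
    rw [hy, hy₀, mkY_even _ _ h2, mkY_even _ _ h2]
  refine ⟨y, (length_mkY _ _ _).le, ?_, ?_⟩
  · intro i hi a ha
    have h0 : i * n + a < m * n := by nlinarith
    rw [hy, mkY_even _ _ (by unfold bnd; omega), mkY_even _ _ (by unfold bnd; omega)]
    exact ⟨zbits_even b b' ha, zbits_odd b b' ha⟩
  · have hlen := length_consL_le n m y₀
    rw [h1]
    ext k
    unfold Ks selL
    rw [List.mem_toFinset, List.mem_filter, List.mem_range, h1]
    constructor
    · rintro ⟨h2, h3⟩
      rw [hy, mkY_odd _ _ (by unfold bnd; omega)] at h3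
      simpa using h3
    · intro h2
      have h3 : k < (consL n m y₀).length := Finset.mem_range.1 (hK _ h2)
      refine ⟨h3, ?_⟩
      rw [hy, mkY_odd _ _ (by unfold bnd; omega)]
      simpa using h2

end Pool.Agent.Helper94.UR
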