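import Pool.Agent.Helper94.UR.Main

/-!
# Consequences of hardness
-/

set_option autoImplicit false

namespace Pool.Agent.Helper94.UR

open Pool.Agent.Helper20.Flip Pool.Agent.Helper96

theorem ff_not_mem : Fm.ff.code ∉ ETR := by
  rw [mem_ETR]
  rintro ⟨v, hv⟩
  exact holds_ff v hv

theorem tt_mem : Fm.tt.code ∈ ETR := by
  rw [mem_ETR]
  exact ⟨fun _ => 0, holds_tt _⟩

/-- The class `N·(∃ℝ ∩ ∀ℝ)` is closed under polynomial time reductions. -/
theorem inN_of_red {A B : Set (List Bool)} {g : List Bool → List Bool} (hg : PTimeFun g)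
    (hgA : ∀ w, w ∈ A ↔ g w ∈ B) (hB : InN InBoth B) : InN InBoth A := by
  obtain ⟨R, p, ⟨⟨f1, hf1, hR1⟩, f2, hf2, hR2⟩, hp⟩ := hB
  obtain ⟨D, hD, hDs⟩ := exists_decPair
  rw [ptime_iff] at hg hf1 hf2
  -- the test
  let ok : List Bool → Bool := fun u => decide (pair (D u).1 (D u).2 = u) &&
    decide ((D u).2.length ≤ p.eval (g (D u).1).length)
  have hok : Poly ok := by
    refine Poly.and (Poly.decide_eq (poly_pair (Poly.fst hD) (Poly.snd hD)) Poly.id') ?_
    exact Poly.decide_le (Poly.length (Poly.snd hD))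
      (Pool.Agent.Helper69.poly_eval p (Poly.length (Poly.comp hg (Poly.fst hD))))
  let R' : Set (List Bool) := {u | ok u = true ∧ pair (g (D u).1) (D u).2 ∈ R}
  have hpp : Poly (fun u => pair (g (D u).1) (D u).2) :=
    poly_pair (Poly.comp hg (Poly.fst hD)) (Poly.snd hD)
  obtain ⟨k, hk⟩ := hg.sz_le
  obtain ⟨l, hl⟩ := Pool.Agent.Helper69.TM.isPB_eval p
  refine ⟨R', ((4 * Polynomial.X + 3) ^ k + 2) ^ l, ⟨⟨fun u => if ok u = true then
      f1 (pair (g (D u).1) (D u).2) else Fm.ff.code, ?_, ?_⟩, fun u => if ok u = true then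
      f2 (pair (g (D u).1) (D u).2) else Fm.tt.code, ?_, ?_⟩, ?_⟩
  · rw [ptime_iff]
    exact Poly.ite' hok (Poly.comp hf1 hpp) (Pool.Agent.Helper96.Poly.const _)
  · intro u
    show (ok u = true ∧ _) ↔ _
    beta_reduce
    by_cases h : ok u = true
    · rw [if_pos h, ← hR1]
      exact and_iff_right h
    · rw [if_neg h]
      exact ⟨fun h1 => absurd h1.1 h, fun h1 => absurd h1 ff_not_mem⟩
  · rw [ptime_iff]
    exact Poly.ite' hok (Poly.comp hf2 hpp) (Pool.Agent.Helper96.Poly.const _)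
  · intro u
    show (¬ (ok u = true ∧ _)) ↔ _
    beta_reduce
    by_cases h : ok u = true
    · rw [if_pos h, ← hR2]
      constructor
      · intro h1 h2
        exact h1 ⟨h, h2⟩
      · intro h1 h2
        exact h1 h2.2
    · rw [if_neg h]
      exact ⟨fun _ => tt_mem, fun _ h1 => h h1.1⟩
  · intro w
    rw [hgA, hp]
    have hok' : ∀ y, ok (pair w y) = true ↔ y.length ≤ p.eval (g w).length := by
      intro y
      show (decide _ && decide _) = true ↔ _
      rw [hDs]
      simp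
    have hmem : ∀ y, pair w y ∈ R' ↔ y.length ≤ p.eval (g w).length ∧ pair (g w) y ∈ R := by
      intro y
      show (ok (pair w y) = true ∧ _) ↔ _
      rw [hok', hDs]
    constructor
    · rintro ⟨y, hy, hyR⟩
      refine ⟨y, ?_, (hmem y).2 ⟨hy, hyR⟩⟩
      refine hy.trans ((hl _).trans ?_)
      have h1 := hk w
      have h2 := length_lt_sz (g w)
      have h3 := Pool.Agent.Helper69.TM.sz_list_bool w
      have h4 : (sz w + 2) ^ k ≤ (4 * w.length + 3) ^ k := Nat.pow_le_pow_left (by omega) k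
      simp only [Polynomial.eval_pow, Polynomial.eval_add, Polynomial.eval_mul,
        Polynomial.eval_X, Polynomial.eval_ofNat]
      exact Nat.pow_le_pow_left (by omega) l
    · rintro ⟨y, -, hyR⟩
      obtain ⟨h1, h2⟩ := (hmem y).1 hyR
      exact ⟨y, h1, h2⟩

/-- if unit-disk packing is `∃ℝ`-hard then `∃ℝ` is contained in `N·(∃ℝ ∩ ∀ℝ)` -/
theorem collapse (h : ERHard UDP) {A : Set (List Bool)} (hA : InER A) : InN InBoth A := by
  obtain ⟨f, hf, hfA⟩ := h A hA
  exact inN_of_red hf hfA inN_UDP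

end Pool.Agent.Helper94.UR
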