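import Pool.Agent.Helper94.UR.Defs

/-!
# Unique readability
-/

set_option autoImplicit false

namespace Pool.Agent.Helper94.UR

theorem unary_inj : ∀ (i j : ℕ) (r r' : List Bool),
    List.replicate i true ++ [false] ++ r = List.replicate j true ++ [false] ++ r' →
      i = j ∧ r = r' := by
  intro i
  induction i with
  | zero =>
    intro j r r' h
    cases j with
    | zero => exact ⟨rfl, by simpa using h⟩
    | succ j => simp [List.replicate_succ] at h
  | succ i ih =>
    intro j r r' h
    cases j with
    | zero => simp [List.replicate_succ] at h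
    | succ j =>
      have h1 : List.replicate i true ++ [false] ++ r = List.replicate j true ++ [false] ++ r' := by
        simpa [List.replicate_succ] using h
      obtain ⟨h2, h3⟩ := ih j r r' h1
      exact ⟨by rw [h2], h3⟩

theorem Tm.code_append_inj : ∀ (s t : Tm) (r r' : List Bool), s.code ++ r = t.code ++ r' →
    s = t ∧ r = r' := by
  intro s
  induction s with
  | var i =>
    intro t r r' h
    cases t with
    | var j =>
      simp only [Tm.code, List.cons_append, List.nil_append, List.cons.injEq, true_and] at h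
      obtain ⟨h1, h2⟩ := unary_inj i j r r' h
      exact ⟨by rw [h1], h2⟩
    | _ => simp [Tm.code] at h
  | zero =>
    intro t r r' h
    cases t with
    | zero => exact ⟨rfl, by simpa [Tm.code] using h⟩
    | _ => simp [Tm.code] at h
  | one =>
    intro t r r' h
    cases t with
    | one => exact ⟨rfl, by simpa [Tm.code] using h⟩
    | _ => simp [Tm.code] at h
  | add s1 s2 ih1 ih2 =>
    intro t r r' h
    cases t with
    | add t1 t2 =>
      simp only [Tm.code, List.cons_append, List.nil_append, List.cons.injEq, true_and,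
        List.append_assoc] at h
      obtain ⟨h1, h2⟩ := ih1 _ _ _ h
      obtain ⟨h3, h4⟩ := ih2 _ _ _ h2
      exact ⟨by rw [h1, h3], h4⟩
    | _ => simp [Tm.code] at h
  | neg s ih =>
    intro t r r' h
    cases t with
    | neg t =>
      simp only [Tm.code, List.cons_append, List.nil_append, List.cons.injEq, true_and] at h
      obtain ⟨h1, h2⟩ := ih _ _ _ h
      exact ⟨by rw [h1], h2⟩
    | _ => simp [Tm.code] at h
  | mul s1 s2 ih1 ih2 =>
    intro t r r' h
    cases t with
    | mul t1 t2 =>
      simp only [Tm.code, List.cons_append, List.nil_append, List.cons.injEq, true_and,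
        List.append_assoc] at h
      obtain ⟨h1, h2⟩ := ih1 _ _ _ h
      obtain ⟨h3, h4⟩ := ih2 _ _ _ h2
      exact ⟨by rw [h1, h3], h4⟩
    | _ => simp [Tm.code] at h

theorem Tm.code_injective : Function.Injective Tm.code := by
  intro s t h
  exact (Tm.code_append_inj s t [] [] (by rw [h])).1

theorem Fm.code_append_inj : ∀ (φ ψ : Fm) (r r' : List Bool), φ.code ++ r = ψ.code ++ r' →
    φ = ψ ∧ r = r' := by
  intro φ
  induction φ with
  | eq s1 s2 =>
    intro ψ r r' h
    cases ψ with
    | eq t1 t2 =>
      simp only [Fm.code, List.cons_append, List.nil_append, List.cons.injEq, true_and,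
        List.append_assoc] at h
      obtain ⟨h1, h2⟩ := Tm.code_append_inj _ _ _ _ h
      obtain ⟨h3, h4⟩ := Tm.code_append_inj _ _ _ _ h2
      exact ⟨by rw [h1, h3], h4⟩
    | _ => simp [Fm.code] at h
  | lt s1 s2 =>
    intro ψ r r' h
    cases ψ with
    | lt t1 t2 =>
      simp only [Fm.code, List.cons_append, List.nil_append, List.cons.injEq, true_and,
        List.append_assoc] at h
      obtain ⟨h1, h2⟩ := Tm.code_append_inj _ _ _ _ h
      obtain ⟨h3, h4⟩ := Tm.code_append_inj _ _ _ _ h2
      exact ⟨by rw [h1, h3], h4⟩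
    | _ => simp [Fm.code] at h
  | not φ ih =>
    intro ψ r r' h
    cases ψ with
    | not ψ =>
      simp only [Fm.code, List.cons_append, List.nil_append, List.cons.injEq, true_and] at h
      obtain ⟨h1, h2⟩ := ih _ _ _ h
      exact ⟨by rw [h1], h2⟩
    | _ => simp [Fm.code] at h
  | and φ1 φ2 ih1 ih2 =>
    intro ψ r r' h
    cases ψ with
    | and ψ1 ψ2 =>
      simp only [Fm.code, List.cons_append, List.nil_append, List.cons.injEq, true_and,
        List.append_assoc] at h
      obtain ⟨h1, h2⟩ := ih1 _ _ _ h
      obtain ⟨h3, h4⟩ := ih2 _ _ _ h2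
      exact ⟨by rw [h1, h3], h4⟩
    | _ => simp [Fm.code] at h
  | or φ1 φ2 ih1 ih2 =>
    intro ψ r r' h
    cases ψ with
    | or ψ1 ψ2 =>
      simp only [Fm.code, List.cons_append, List.nil_append, List.cons.injEq, true_and,
        List.append_assoc] at h
      obtain ⟨h1, h2⟩ := ih1 _ _ _ h
      obtain ⟨h3, h4⟩ := ih2 _ _ _ h2
      exact ⟨by rw [h1, h3], h4⟩
    | _ => simp [Fm.code] at h

theorem Fm.code_injective : Function.Injective Fm.code := by
  intro s t h
  exact (Fm.code_append_inj s t [] [] (by rw [h])).1

theorem mem_ETR (φ : Fm) : φ.code ∈ ETR ↔ ∃ v : ℕ → ℝ, φ.Holds v := by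
  constructor
  · rintro ⟨ψ, h, hv⟩
    rw [Fm.code_injective h]
    exact hv
  · intro h
    exact ⟨φ, rfl, h⟩

end Pool.Agent.Helper94.UR
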