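import Pool.Agent.Helper94.UR.Final

/-!
# Unit-disk packing is in `N·(∃ℝ ∩ ∀ℝ)`
-/

set_option autoImplicit false

namespace Pool.Agent.Helper94.UR

open Pool.Agent.Helper20.Flip Pool.Agent.Helper97.UDP Pool.Agent.Helper96 Topology

theorem ptime_iff (f : List Bool → List Bool) : PTimeFun f ↔ Poly f :=
  Pool.Agent.Helper69.polyTimeFun_iff f

/-- syntactically valid instances -/
def OkInst (P : List (RatCode × RatCode)) (k : List Bool) : Bool :=
  (decide (3 ≤ P.length) && decide (0 < k.length)) &&
    (k.all (fun b => b) && P.all fun q => (q.1.2.2.any fun b => b) && (q.2.2.2.any fun b => b))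

theorem val_ne_zero_iff (l : List Bool) : val l ≠ 0 ↔ (l.any fun b => b) = true := by
  induction l with
  | nil => simp [val]
  | cons b l ih =>
    cases b
    · simp only [val, List.any_cons, Bool.false_or]
      rw [← ih]
      simp
    · simp [val]

theorem okInst_iff {P : List (RatCode × RatCode)} {k : List Bool} : OkInst P k = true ↔
    3 ≤ P.length ∧ 0 < k.length ∧ k = List.replicate k.length true ∧
      ∀ q ∈ P, val q.1.2.2 ≠ 0 ∧ val q.2.2.2 ≠ 0 := by
  unfold OkInst
  simp only [Bool.and_eq_true, decide_eq_true_eq, List.all_eq_true, val_ne_zero_iff]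
  constructor
  · rintro ⟨⟨h1, h2⟩, h3, h4⟩
    exact ⟨h1, h2, List.eq_replicate_iff.2 ⟨rfl, h3⟩, h4⟩
  · rintro ⟨h1, h2, h3, h4⟩
    exact ⟨⟨h1, h2⟩, (List.eq_replicate_iff.1 h3).2, h4⟩

/-- The predicate on pairs of words. -/
def RR : Set (List Bool) :=
  {u | ∃ (P : List (RatCode × RatCode)) (k y : List Bool), u = pair (encInst P k) y ∧
    OkInst P k = true ∧ Good P k.length y}

theorem encBits_append_inj : ∀ (w w' y y' : List Bool), encBits w ++ y = encBits w' ++ y' →
    w = w' ∧ y = y' := by
  intro w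
  induction w with
  | nil =>
    intro w' y y' h
    cases w' with
    | nil => exact ⟨rfl, by simpa [encBits] using h⟩
    | cons b w' => simp [encBits] at h
  | cons b w ih =>
    intro w' y y' h
    cases w' with
    | nil => simp [encBits] at h
    | cons b' w' =>
      have h1 : b = b' ∧ encBits w ++ y = encBits w' ++ y' := by
        simpa [encBits] using h
      obtain ⟨h2, h3⟩ := ih _ _ _ h1.2
      exact ⟨by rw [h1.1, h2], h3⟩

theorem pair_inj {w w' y y' : List Bool} (h : pair w y = pair w' y') : w = w' ∧ y = y' :=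
  encBits_append_inj _ _ _ _ h

theorem pair_mem_RR {w y : List Bool} : pair w y ∈ RR ↔
    ∃ (P : List (RatCode × RatCode)) (k : List Bool), w = encInst P k ∧
      OkInst P k = true ∧ Good P k.length y := by
  constructor
  · rintro ⟨P, k, y', h, h1, h2⟩
    obtain ⟨rfl, rfl⟩ := pair_inj h
    exact ⟨P, k, rfl, h1, h2⟩
  · rintro ⟨P, k, rfl, h1, h2⟩
    exact ⟨P, k, y, rfl, h1, h2⟩

section decoders

variable (D : List Bool → List Bool × List Bool)
  (D' : List Bool → List (RatCode × RatCode) × List Bool)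

/-- is the word a pair of a syntactically valid instance and a word? -/
def okW (u : List Bool) : Bool :=
  decide (pair (encInst (D' (D u).1).1 (D' (D u).1).2) (D u).2 = u) &&
    OkInst (D' (D u).1).1 (D' (D u).1).2

/-- the two reductions to `ETR` -/
def red1 (u : List Bool) : List Bool :=
  (if okW D D' u then yesF (D' (D u).1).1 (D' (D u).1).2.length (D u).2 else Fm.ff).code

def red2 (u : List Bool) : List Bool :=
  (if okW D D' u then noF (D' (D u).1).1 (D' (D u).1).2.length (D u).2 else Fm.tt).code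

theorem poly_encInst {α : Type} [Enc α] {f : α → List (RatCode × RatCode)}
    {g : α → List Bool} (hf : Poly f) (hg : Poly g) : Poly (fun a => encInst (f a) (g a)) := by
  unfold encInst encRat encBits
  fun_prop

theorem poly_pair {α : Type} [Enc α] {f g : α → List Bool} (hf : Poly f) (hg : Poly g) :
    Poly (fun a => pair (f a) (g a)) := by
  unfold pair encBits
  fun_prop

theorem poly_okInst {α : Type} [Enc α] {f : α → List (RatCode × RatCode)}
    {g : α → List Bool} (hf : Poly f) (hg : Poly g) : Poly (fun a => OkInst (f a) (g a)) := by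
  unfold OkInst
  fun_prop

theorem poly_okW (hD : Poly D) (hD' : Poly D') : Poly (okW D D') := by
  unfold okW
  have h1 : Poly (fun u => D' (D u).1) := Poly.comp hD' (Poly.fst hD)
  exact Poly.and (Poly.decide_eq (poly_pair (poly_encInst (Poly.fst h1) (Poly.snd h1))
    (Poly.snd hD)) Poly.id') (poly_okInst (Poly.fst h1) (Poly.snd h1))

theorem poly_red1 (hD : Poly D) (hD' : Poly D') : Poly (red1 D D') := by
  unfold red1
  have h1 : Poly (fun u => D' (D u).1) := Poly.comp hD' (Poly.fst hD)
  have h2 := poly_okW D D' hD hD'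
  have h3 : Poly (fun u => (D' (D u).1).2.length) := Poly.length (Poly.snd h1)
  exact Poly.fmCode (Poly.ite' h2 (Poly.yesF (Poly.fst h1) h3 (Poly.snd hD))
    (Pool.Agent.Helper96.Poly.const _))

theorem poly_red2 (hD : Poly D) (hD' : Poly D') : Poly (red2 D D') := by
  unfold red2
  have h1 : Poly (fun u => D' (D u).1) := Poly.comp hD' (Poly.fst hD)
  have h2 := poly_okW D D' hD hD'
  have h3 : Poly (fun u => (D' (D u).1).2.length) := Poly.length (Poly.snd h1)
  exact Poly.fmCode (Poly.ite' h2 (Poly.noF (Poly.fst h1) h3 (Poly.snd hD))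
    (Pool.Agent.Helper96.Poly.const _))

theorem mem_RR_iff (hD : ∀ w y, D (pair w y) = (w, y)) (hD' : ∀ P k, D' (encInst P k) = (P, k))
    (u : List Bool) : u ∈ RR ↔ okW D D' u = true ∧
      Good (D' (D u).1).1 (D' (D u).1).2.length (D u).2 := by
  constructor
  · rintro ⟨P, k, y, rfl, h1, h2⟩
    unfold okW
    rw [hD]
    simp only [hD']
    rw [h1]
    exact ⟨by simp, h2⟩
  · rintro ⟨h1, h2⟩
    unfold okW at h1
    rw [Bool.and_eq_true, decide_eq_true_eq] at h1
    exact ⟨_, _, _, h1.1.symm, h1.2, h2⟩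

theorem red1_iff (hD : ∀ w y, D (pair w y) = (w, y)) (hD' : ∀ P k, D' (encInst P k) = (P, k))
    (u : List Bool) : u ∈ RR ↔ red1 D D' u ∈ ETR := by
  rw [mem_RR_iff D D' hD hD']
  unfold red1
  rw [mem_ETR]
  by_cases h : okW D D' u = true
  · rw [if_pos h]
    have h1 := h
    unfold okW at h1
    rw [Bool.and_eq_true, okInst_iff] at h1
    obtain ⟨-, h2, h3, h4, h5⟩ := h1
    rw [yesF_iff h5 h2]
    simp [h]
  · rw [if_neg h]
    constructor
    · rintro ⟨h1, -⟩
      exact absurd h1 h
    · rintro ⟨v, hv⟩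
      exact absurd hv (holds_ff v)

theorem red2_iff (hD : ∀ w y, D (pair w y) = (w, y)) (hD' : ∀ P k, D' (encInst P k) = (P, k))
    (u : List Bool) : u ∉ RR ↔ red2 D D' u ∈ ETR := by
  rw [mem_RR_iff D D' hD hD']
  unfold red2
  rw [mem_ETR]
  by_cases h : okW D D' u = true
  · rw [if_pos h]
    have h1 := h
    unfold okW at h1
    rw [Bool.and_eq_true, okInst_iff] at h1
    obtain ⟨-, h2, h3, h4, h5⟩ := h1
    rw [noF_iff h5 h2]
    simp [h]
  · rw [if_neg h]
    constructor
    · intro _
      exact ⟨fun _ => 0, holds_tt _⟩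
    · intro _ h1
      exact absurd h1.1 h

end decoders

/-- the predicate is in `∃ℝ ∩ ∀ℝ` -/
theorem inBoth_RR : InBoth RR := by
  obtain ⟨D, hD, hD1⟩ := exists_decPair
  obtain ⟨D', hD', hD1'⟩ := exists_decInst
  exact ⟨⟨red1 D D', (ptime_iff _).2 (poly_red1 D D' hD hD'), red1_iff D D' hD1 hD1'⟩,
    ⟨red2 D D', (ptime_iff _).2 (poly_red2 D D' hD hD'), red2_iff D D' hD1 hD1'⟩⟩

theorem length_encBits (l : List Bool) : (encBits l).length = 2 * l.length + 1 := by
  unfold encBits
  simp [List.length_flatMap]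
  omega

theorem length_encInst_ge (P : List (RatCode × RatCode)) (k : List Bool) :
    P.length ≤ (encInst P k).length ∧ k.length ≤ (encInst P k).length := by
  unfold encInst
  rw [List.length_append, List.length_cons, length_encBits]
  constructor
  · have : P.length ≤ (P.flatMap fun q => true :: (encRat q.1 ++ encRat q.2)).length := by
      induction P with
      | nil => simp
      | cons q P ih =>
        rw [List.flatMap_cons, List.length_append, List.length_cons, List.length_cons]
        omega
    omega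
  · omega

/-- the polynomial that bounds the length of the guess -/
noncomputable def bpoly : Polynomial ℕ := 10 * Polynomial.X ^ 2 + 2

theorem bnd_le {n m N : ℕ} (hn : n ≤ N) (hm : m ≤ N) : bnd n m ≤ bpoly.eval N := by
  unfold bnd bpoly
  simp only [Polynomial.eval_add, Polynomial.eval_mul, Polynomial.eval_pow, Polynomial.eval_X,
    Polynomial.eval_ofNat]
  have h1 : m * n ≤ N * N := Nat.mul_le_mul hm hn
  have h2 : m * m ≤ N * N := Nat.mul_le_mul hm hm
  nlinarith

theorem encInst_injective {P P' : List (RatCode × RatCode)} {k k' : List Bool}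
    (h : encInst P k = encInst P' k') : P = P' ∧ k = k' := by
  obtain ⟨D', -, hD⟩ := exists_decInst
  have h1 := hD P k
  rw [h, hD P' k'] at h1
  exact ⟨(congrArg Prod.fst h1).symm, (congrArg Prod.snd h1).symm⟩

/-- unit-disk packing: guessed bits and a predicate in `∃ℝ ∩ ∀ℝ` -/
theorem inN_UDP : InN InBoth UDP := by
  refine ⟨RR, bpoly, inBoth_RR, fun w => ?_⟩
  constructor
  · rintro ⟨P, m, rfl, hm, hden, hV, -, hp⟩
    obtain ⟨y, hy, hg⟩ := (packs_iff hV).1 hp
    have h1 := length_encInst_ge P (List.replicate m true)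
    rw [List.length_replicate] at h1
    refine ⟨y, hy.trans (bnd_le h1.1 h1.2), pair_mem_RR.2 ⟨P, List.replicate m true, rfl, ?_, ?_⟩⟩
    · rw [okInst_iff]
      exact ⟨hV.1, by simpa using hm, by simp, hden⟩
    · rw [List.length_replicate]
      exact hg
  · rintro ⟨y, -, hy⟩
    obtain ⟨P, k, rfl, h1, h2⟩ := pair_mem_RR.1 hy
    rw [okInst_iff] at h1
    obtain ⟨h3, h4, h5, h6⟩ := h1
    have h7 : Packs (polygon P) k.length := packs_of_good h2
    exact ⟨P, k.length, by rw [← h5], h4, h6, h2.1, trivial, h7⟩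

end Pool.Agent.Helper94.UR
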