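import Pool.Agent.Helper94.UR.Inj
import Pool.Agent.Helper96.PolyList

/-!
# Derived terms and formulas, their meaning, and polynomial time
-/

set_option autoImplicit false

namespace Pool.Agent.Helper94.UR

open Pool.Agent.Helper20.Flip Pool.Agent.Helper96

/-! ### derived terms and formulas -/

def Tm.sub (s t : Tm) : Tm := .add s (.neg t)
def Tm.two : Tm := .add .one .one
def Tm.four : Tm := .add .two .two
def Tm.sq (t : Tm) : Tm := .mul t t

/-- sum of a list of terms -/
def Tm.sum : List Tm → Tm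
  | [] => .zero
  | t :: l => .add t (Tm.sum l)

/-- the natural number with given binary digits -/
def Tm.nat : List Bool → Tm
  | [] => .zero
  | b :: l => .add (if b then .one else .zero) (.mul .two (Tm.nat l))

/-- the variables with three indices -/
def v3 (k i j : ℕ) : Tm := .var (Nat.pair k (Nat.pair i j))

/-- the values of the variables with three indices -/
def g3 (v : ℕ → ℝ) (k i j : ℕ) : ℝ := v (Nat.pair k (Nat.pair i j))

/-- values of the variables from a function of three indices -/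
def m3 (g : ℕ → ℕ → ℕ → ℝ) (n : ℕ) : ℝ :=
  g (Nat.unpair n).1 (Nat.unpair (Nat.unpair n).2).1 (Nat.unpair (Nat.unpair n).2).2

def Fm.tt : Fm := .eq .zero .zero
def Fm.ff : Fm := .lt .zero .zero
def Fm.le (s t : Tm) : Fm := .not (.lt t s)
def Fm.imp (φ ψ : Fm) : Fm := .or (.not φ) ψ

/-- conjunction of a list of formulas -/
def Fm.all : List Fm → Fm
  | [] => .tt
  | φ :: l => .and φ (Fm.all l)

/-- disjunction of a list of formulas -/
def Fm.any : List Fm → Fm
  | [] => .ff
  | φ :: l => .or φ (Fm.any l)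

/-! ### meaning -/

section
variable (v : ℕ → ℝ)

@[simp] theorem eval_zero : Tm.eval v .zero = 0 := rfl
@[simp] theorem eval_one : Tm.eval v .one = 1 := rfl
@[simp] theorem eval_add (s t : Tm) : Tm.eval v (.add s t) = s.eval v + t.eval v := rfl
@[simp] theorem eval_neg (t : Tm) : Tm.eval v (.neg t) = - t.eval v := rfl
@[simp] theorem eval_mul (s t : Tm) : Tm.eval v (.mul s t) = s.eval v * t.eval v := rfl
@[simp] theorem eval_sub (s t : Tm) : Tm.eval v (.sub s t) = s.eval v - t.eval v := by
  simp [Tm.sub, sub_eq_add_neg]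
@[simp] theorem eval_two : Tm.eval v .two = 2 := by simp [Tm.two]; norm_num
@[simp] theorem eval_four : Tm.eval v .four = 4 := by simp [Tm.four]; norm_num
@[simp] theorem eval_sq (t : Tm) : Tm.eval v (.sq t) = t.eval v ^ 2 := by simp [Tm.sq, sq]
@[simp] theorem eval_v3 (k i j : ℕ) : Tm.eval v (v3 k i j) = g3 v k i j := rfl
@[simp] theorem g3_m3 (g : ℕ → ℕ → ℕ → ℝ) (k i j : ℕ) : g3 (m3 g) k i j = g k i j := by
  simp [g3, m3, Nat.unpair_pair]

@[simp] theorem eval_sum (l : List Tm) : (Tm.sum l).eval v = (l.map (Tm.eval v)).sum := by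
  induction l with
  | nil => rfl
  | cons t l ih => simp [Tm.sum, ih]

@[simp] theorem eval_nat (l : List Bool) : (Tm.nat l).eval v = (val l : ℝ) := by
  induction l with
  | nil => simp [Tm.nat, val]
  | cons b l ih => cases b <;> simp [Tm.nat, val, ih]

@[simp] theorem holds_eq (s t : Tm) : (Fm.eq s t).Holds v ↔ s.eval v = t.eval v := Iff.rfl
@[simp] theorem holds_lt (s t : Tm) : (Fm.lt s t).Holds v ↔ s.eval v < t.eval v := Iff.rfl
@[simp] theorem holds_le (s t : Tm) : (Fm.le s t).Holds v ↔ s.eval v ≤ t.eval v := by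
  show ¬ (t.eval v < s.eval v) ↔ _
  exact not_lt
@[simp] theorem holds_not (φ : Fm) : (Fm.not φ).Holds v ↔ ¬ φ.Holds v := Iff.rfl
@[simp] theorem holds_and (φ ψ : Fm) : (Fm.and φ ψ).Holds v ↔ φ.Holds v ∧ ψ.Holds v := Iff.rfl
@[simp] theorem holds_or (φ ψ : Fm) : (Fm.or φ ψ).Holds v ↔ φ.Holds v ∨ ψ.Holds v := Iff.rfl
@[simp] theorem holds_imp (φ ψ : Fm) : (Fm.imp φ ψ).Holds v ↔ (φ.Holds v → ψ.Holds v) := by
  show (¬ _ ∨ _) ↔ _
  exact imp_iff_not_or.symm
@[simp] theorem holds_tt : Fm.tt.Holds v := rfl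
@[simp] theorem holds_ff : ¬ Fm.ff.Holds v := lt_irrefl _

@[simp] theorem holds_all (l : List Fm) : (Fm.all l).Holds v ↔ ∀ φ ∈ l, φ.Holds v := by
  induction l with
  | nil => simp [Fm.all]
  | cons φ l ih => simp [Fm.all, ih]

@[simp] theorem holds_any (l : List Fm) : (Fm.any l).Holds v ↔ ∃ φ ∈ l, φ.Holds v := by
  induction l with
  | nil => simp [Fm.any]
  | cons φ l ih => simp [Fm.any, ih]

end

/-! ### encodings -/

instance : Enc Tm := ⟨fun t => enc t.code, fun _ _ h => Tm.code_injective (Enc.inj h)⟩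

instance : Enc Fm := ⟨fun t => enc t.code, fun _ _ h => Fm.code_injective (Enc.inj h)⟩

section
variable {α β γ : Type} [Enc α] [Enc β] [Enc γ]

@[fun_prop]
theorem Poly.tmCode {f : α → Tm} (hf : Poly f) : Poly (fun a => (f a).code) :=
  hf.recast fun _ => rfl

@[fun_prop]
theorem Poly.fmCode {f : α → Fm} (hf : Poly f) : Poly (fun a => (f a).code) :=
  hf.recast fun _ => rfl

theorem Poly.tm_of_code {f : α → Tm} (hf : Poly (fun a => (f a).code)) : Poly f :=
  hf.recast fun _ => rfl

theorem Poly.fm_of_code {f : α → Fm} (hf : Poly (fun a => (f a).code)) : Poly f :=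
  hf.recast fun _ => rfl

@[fun_prop]
theorem Poly.tmVar {f : α → ℕ} (hf : Poly f) : Poly (fun a => Tm.var (f a)) := by
  apply Poly.tm_of_code
  simp only [Tm.code]
  fun_prop

@[fun_prop]
theorem Poly.tmAdd {f g : α → Tm} (hf : Poly f) (hg : Poly g) :
    Poly (fun a => Tm.add (f a) (g a)) := by
  apply Poly.tm_of_code
  simp only [Tm.code]
  fun_prop

@[fun_prop]
theorem Poly.tmNeg {f : α → Tm} (hf : Poly f) : Poly (fun a => Tm.neg (f a)) := by
  apply Poly.tm_of_code
  simp only [Tm.code]
  fun_prop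

@[fun_prop]
theorem Poly.tmMul {f g : α → Tm} (hf : Poly f) (hg : Poly g) :
    Poly (fun a => Tm.mul (f a) (g a)) := by
  apply Poly.tm_of_code
  simp only [Tm.code]
  fun_prop

@[fun_prop]
theorem Poly.tmSub {f g : α → Tm} (hf : Poly f) (hg : Poly g) :
    Poly (fun a => Tm.sub (f a) (g a)) := by
  unfold Tm.sub; fun_prop

@[fun_prop]
theorem Poly.tmSq {f : α → Tm} (hf : Poly f) : Poly (fun a => Tm.sq (f a)) := by
  unfold Tm.sq; fun_prop

theorem code_sum (l : List Tm) :
    (Tm.sum l).code = l.flatMap (fun t => [false, true, true] ++ t.code) ++ Tm.zero.code := by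
  induction l with
  | nil => rfl
  | cons t l ih => simp [Tm.sum, Tm.code, ih]

@[fun_prop]
theorem Poly.tmSum {f : α → List Tm} (hf : Poly f) : Poly (fun a => Tm.sum (f a)) := by
  apply Poly.tm_of_code
  simp only [code_sum]
  fun_prop

theorem code_nat (l : List Bool) :
    (Tm.nat l).code = l.flatMap (fun b => [false, true, true] ++
      ((if b then Tm.one else Tm.zero).code ++ ([true, false, true] ++ Tm.two.code))) ++
        Tm.zero.code := by
  induction l with
  | nil => rfl
  | cons t l ih => simp [Tm.nat, Tm.code, ih]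

@[fun_prop]
theorem Poly.tmNat {f : α → List Bool} (hf : Poly f) : Poly (fun a => Tm.nat (f a)) := by
  apply Poly.tm_of_code
  simp only [code_nat]
  fun_prop

@[fun_prop]
theorem Poly.natPair {f g : α → ℕ} (hf : Poly f) (hg : Poly g) :
    Poly (fun a => Nat.pair (f a) (g a)) := by
  unfold Nat.pair
  fun_prop

@[fun_prop]
theorem Poly.v3 {f g h : α → ℕ} (hf : Poly f) (hg : Poly g) (hh : Poly h) :
    Poly (fun a => v3 (f a) (g a) (h a)) := by
  unfold UR.v3; fun_prop

@[fun_prop]
theorem Poly.fmEq {f g : α → Tm} (hf : Poly f) (hg : Poly g) :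
    Poly (fun a => Fm.eq (f a) (g a)) := by
  apply Poly.fm_of_code
  simp only [Fm.code]
  fun_prop

@[fun_prop]
theorem Poly.fmLt {f g : α → Tm} (hf : Poly f) (hg : Poly g) :
    Poly (fun a => Fm.lt (f a) (g a)) := by
  apply Poly.fm_of_code
  simp only [Fm.code]
  fun_prop

@[fun_prop]
theorem Poly.fmNot {f : α → Fm} (hf : Poly f) : Poly (fun a => Fm.not (f a)) := by
  apply Poly.fm_of_code
  simp only [Fm.code]
  fun_prop

@[fun_prop]
theorem Poly.fmAnd {f g : α → Fm} (hf : Poly f) (hg : Poly g) :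
    Poly (fun a => Fm.and (f a) (g a)) := by
  apply Poly.fm_of_code
  simp only [Fm.code]
  fun_prop

@[fun_prop]
theorem Poly.fmOr {f g : α → Fm} (hf : Poly f) (hg : Poly g) :
    Poly (fun a => Fm.or (f a) (g a)) := by
  apply Poly.fm_of_code
  simp only [Fm.code]
  fun_prop

@[fun_prop]
theorem Poly.fmLe {f g : α → Tm} (hf : Poly f) (hg : Poly g) :
    Poly (fun a => Fm.le (f a) (g a)) := by
  unfold Fm.le; fun_prop

@[fun_prop]
theorem Poly.fmImp {f g : α → Fm} (hf : Poly f) (hg : Poly g) :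
    Poly (fun a => Fm.imp (f a) (g a)) := by
  unfold Fm.imp; fun_prop

theorem code_all (l : List Fm) :
    (Fm.all l).code = l.flatMap (fun t => [false, true, true] ++ t.code) ++ Fm.tt.code := by
  induction l with
  | nil => rfl
  | cons t l ih => simp [Fm.all, Fm.code, ih]

theorem code_any (l : List Fm) :
    (Fm.any l).code = l.flatMap (fun t => [true, false, false] ++ t.code) ++ Fm.ff.code := by
  induction l with
  | nil => rfl
  | cons t l ih => simp [Fm.any, Fm.code, ih]

@[fun_prop]
theorem Poly.fmAll {f : α → List Fm} (hf : Poly f) : Poly (fun a => Fm.all (f a)) := by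
  apply Poly.fm_of_code
  simp only [code_all]
  fun_prop

@[fun_prop]
theorem Poly.fmAny {f : α → List Fm} (hf : Poly f) : Poly (fun a => Fm.any (f a)) := by
  apply Poly.fm_of_code
  simp only [code_any]
  fun_prop

end

end Pool.Agent.Helper94.UR
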