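import Pool.Agent.Helper94.UR.Sem

/-!
# The meaning of the formulas: the inside test
-/

set_option autoImplicit false

namespace Pool.Agent.Helper94.UR

open Pool.Agent.Helper20.Flip

theorem polygon_vert {P : List (RatCode × RatCode)} {a : ℕ} (ha : a < P.length) :
    polygon P (a : ZMod P.length) = vert P a := by
  unfold polygon vert
  rw [ZMod.val_natCast_of_lt ha, List.getD_eq_getElem _ _ (by simpa using ha),
    List.getD_eq_getElem _ _ ha, List.getElem_map]

theorem polygon_nx {P : List (RatCode × RatCode)} {a : ℕ} (ha : a < P.length) :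
    polygon P ((a : ZMod P.length) + 1) = vert P (nx P.length a) := by
  have h : ((a : ZMod P.length) + 1) = ((nx P.length a : ℕ) : ZMod P.length) := by
    unfold nx
    split_ifs with h
    · have : ((a + 1 : ℕ) : ZMod P.length) = 0 := by
        rw [h]
        exact ZMod.natCast_self _
      push_cast at this ⊢
      exact this
    · push_cast
      rfl
  rw [h]
  exact polygon_vert (nx_lt ha)

private theorem ev_vx {P : List (RatCode × RatCode)} {v : ℕ → ℝ} (hb : BaseR P v) {a : ℕ}
    (ha : a < P.length) : ev v (vx a) = polygon P (a : ZMod P.length) := by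
  rw [polygon_vert ha]
  exact (hb a ha).1

private theorem ev_vnx {P : List (RatCode × RatCode)} {v : ℕ → ℝ} (hb : BaseR P v) {a : ℕ}
    (ha : a < P.length) :
    ev v (vx (nx P.length a)) = polygon P ((a : ZMod P.length) + 1) := by
  rw [polygon_nx ha]
  exact (hb _ (nx_lt ha)).1

private theorem cast_val {n : ℕ} (hn : n ≠ 0) (i : ZMod n) : ∃ a < n, (a : ZMod n) = i := by
  have : NeZero n := ⟨hn⟩
  exact ⟨i.val, ZMod.val_lt i, ZMod.natCast_zmod_val i⟩

theorem genF_iff {P : List (RatCode × RatCode)} {v : ℕ → ℝ} (hb : BaseR P v)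
    (hn : P.length ≠ 0) (p : PT) :
    (genF P.length p).Holds v ↔ Gen (polygon P) (ev v p) := by
  unfold genF Gen
  rw [holds_all]
  constructor
  · intro h i hi
    obtain ⟨a, ha, rfl⟩ := cast_val hn i
    have h1 := h (.not (.eq (vx a).1 p.1)) (List.mem_map.2 ⟨a, List.mem_range.2 ha, rfl⟩)
    rw [holds_not, holds_eq] at h1
    apply h1
    rw [← ev_vx hb ha] at hi
    exact hi
  · intro h φ hφ
    obtain ⟨a, ha, rfl⟩ := List.mem_map.1 hφ
    rw [List.mem_range] at ha
    rw [holds_not, holds_eq]
    have h1 := h (a : ZMod P.length)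
    rw [← ev_vx hb ha] at h1
    exact h1

theorem nearF_iff {P : List (RatCode × RatCode)} {v : ℕ → ℝ} (hb : BaseR P v)
    (hn : P.length ≠ 0) (l : ℕ) :
    (nearF P.length l).Holds v ↔ d2 (XP 5 v l) (XP 3 v l) < 1 ∧ Gen (polygon P) (XP 5 v l) := by
  unfold nearF
  rw [holds_and, genF_iff hb hn, holds_lt]
  simp only [d2T, d2, XP, ev, eval_add, eval_sq, eval_sub, eval_one]

private theorem dx_eval {P : List (RatCode × RatCode)} {v : ℕ → ℝ} (hb : BaseR P v) {a : ℕ}
    (ha : a < P.length) : (dxT P.length a).eval v =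
      (polygon P ((a : ZMod P.length) + 1)).1 - (polygon P (a : ZMod P.length)).1 := by
  unfold dxT
  rw [eval_sub, ← ev_vnx hb ha, ← ev_vx hb ha]
  rfl

private theorem ht_eval {P : List (RatCode × RatCode)} {v : ℕ → ℝ} (hb : BaseR P v) {a : ℕ}
    (ha : a < P.length) (p : PT) (hD : (dxT P.length a).eval v ≠ 0) :
    (htT P.length a p).eval v * (dxT P.length a).eval v =
      hgt (polygon P) (a : ZMod P.length) (ev v p).1 * (dxT P.length a).eval v ^ 2 := by
  have h1 : (htT P.length a p).eval v = (polygon P (a : ZMod P.length)).2 *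
      (dxT P.length a).eval v + ((ev v p).1 - (polygon P (a : ZMod P.length)).1) *
      ((polygon P ((a : ZMod P.length) + 1)).2 - (polygon P (a : ZMod P.length)).2) := by
    unfold htT
    rw [← ev_vnx hb ha, ← ev_vx hb ha]
    simp only [ev, eval_add, eval_mul, eval_sub]
  rw [h1]
  unfold hgt
  rw [← dx_eval hb ha]
  field_simp

private theorem abF_iff {P : List (RatCode × RatCode)} {v : ℕ → ℝ} (hb : BaseR P v) {a : ℕ}
    (ha : a < P.length) (p : PT) :
    (abF P.length a p).Holds v ↔ Above (polygon P) (a : ZMod P.length) (ev v p) := by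
  unfold abF Above
  rw [holds_and, holds_or, holds_and, holds_and, holds_lt, holds_lt, holds_lt, holds_lt, holds_lt]
  have e1 : (vx a).1.eval v = (polygon P (a : ZMod P.length)).1 := by
    rw [← ev_vx hb ha]
    rfl
  have e2 : (vx (nx P.length a)).1.eval v = (polygon P ((a : ZMod P.length) + 1)).1 := by
    rw [← ev_vnx hb ha]
    rfl
  have e3 : p.1.eval v = (ev v p).1 := rfl
  rw [e1, e2, e3]
  apply and_congr_right
  intro h
  have hD : (dxT P.length a).eval v ≠ 0 := by
    rw [dx_eval hb ha]
    rcases h with h | h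
    · have := h.1.trans h.2
      exact (sub_pos.2 this).ne'
    · have := h.1.trans h.2
      exact (sub_neg.2 this).ne
  rw [eval_mul, eval_mul, eval_sq, ht_eval hb ha p hD]
  have hD2 : 0 < (dxT P.length a).eval v ^ 2 := by positivity
  exact mul_lt_mul_iff_left₀ hD2

private theorem lowF_iff {P : List (RatCode × RatCode)} {v : ℕ → ℝ} (hb : BaseR P v) {a e : ℕ}
    (ha : a < P.length) (he : e < P.length) (p : PT) (hD : (dxT P.length a).eval v ≠ 0)
    (hE : (dxT P.length e).eval v ≠ 0) :
    (lowF P.length a e p).Holds v ↔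
      hgt (polygon P) (a : ZMod P.length) (ev v p).1 ≤
        hgt (polygon P) (e : ZMod P.length) (ev v p).1 := by
  unfold lowF
  rw [holds_le, eval_mul, eval_mul, eval_mul, eval_mul, eval_sq, eval_sq, ht_eval hb ha p hD,
    ht_eval hb he p hE]
  have hD2 : 0 < (dxT P.length a).eval v ^ 2 := by positivity
  have hE2 : 0 < (dxT P.length e).eval v ^ 2 := by positivity
  have hDE := mul_pos hD2 hE2
  rw [mul_assoc, mul_assoc, mul_comm ((dxT P.length e).eval v ^ 2)]
  exact mul_le_mul_iff_left₀ hDE

private theorem dx_ne_of_above {P : List (RatCode × RatCode)} {v : ℕ → ℝ} (hb : BaseR P v)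
    {a : ℕ} (ha : a < P.length) {q : Pt} (h : Above (polygon P) (a : ZMod P.length) q) :
    (dxT P.length a).eval v ≠ 0 := by
  rw [dx_eval hb ha]
  rcases h.1 with h | h
  · have := h.1.trans h.2
    exact (sub_pos.2 this).ne'
  · have := h.1.trans h.2
    exact (sub_neg.2 this).ne

theorem insF_iff {P : List (RatCode × RatCode)} {v : ℕ → ℝ} (hb : BaseR P v)
    (hn : P.length ≠ 0) (p : PT) :
    (insF P.length p).Holds v ↔ Ins (polygon P) (ev v p) := by
  have key : ∀ a < P.length, ∀ b < P.length,
      ((Fm.and (.lt .zero (.mul (dxT P.length a) (dxT P.length b)))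
      (.and (.and (abF P.length a p) (abF P.length b p))
        (.all ((List.range P.length).map fun e =>
          .imp (abF P.length e p)
            (.and (lowF P.length a e p) (lowF P.length e b p)))))).Holds v ↔
      0 < ((polygon P ((a : ZMod P.length) + 1)).1 - (polygon P (a : ZMod P.length)).1) *
          ((polygon P ((b : ZMod P.length) + 1)).1 - (polygon P (b : ZMod P.length)).1) ∧
        Above (polygon P) (a : ZMod P.length) (ev v p) ∧
        Above (polygon P) (b : ZMod P.length) (ev v p) ∧
        ∀ e, Above (polygon P) e (ev v p) →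
          hgt (polygon P) (a : ZMod P.length) (ev v p).1 ≤ hgt (polygon P) e (ev v p).1 ∧
          hgt (polygon P) e (ev v p).1 ≤
            hgt (polygon P) (b : ZMod P.length) (ev v p).1) := by
    intro a ha b hb'
    rw [holds_and, holds_and, holds_and, holds_lt, eval_zero, eval_mul, dx_eval hb ha,
      dx_eval hb hb', abF_iff hb ha, abF_iff hb hb', holds_all, and_assoc]
    apply and_congr_right
    intro _
    apply and_congr_right
    intro hAa
    apply and_congr_right
    intro hAb
    have hDa := dx_ne_of_above hb ha hAa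
    have hDb := dx_ne_of_above hb hb' hAb
    constructor
    · intro h i hi
      obtain ⟨e, he, rfl⟩ := cast_val hn i
      have h1 := h _ (List.mem_map.2 ⟨e, List.mem_range.2 he, rfl⟩)
      have hDe := dx_ne_of_above hb he hi
      rw [holds_imp, abF_iff hb he, holds_and, lowF_iff hb ha he p hDa hDe,
        lowF_iff hb he hb' p hDe hDb] at h1
      exact h1 hi
    · intro h φ hφ
      obtain ⟨e, he, rfl⟩ := List.mem_map.1 hφ
      rw [List.mem_range] at he
      rw [holds_imp, abF_iff hb he]
      intro hAe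
      have hDe := dx_ne_of_above hb he hAe
      rw [holds_and, lowF_iff hb ha he p hDa hDe, lowF_iff hb he hb' p hDe hDb]
      exact h _ hAe
  unfold insF Ins
  rw [holds_any]
  constructor
  · rintro ⟨φ, hφ, h⟩
    obtain ⟨a, ha, hφ'⟩ := List.mem_flatMap.1 hφ
    obtain ⟨b, hb', rfl⟩ := List.mem_map.1 hφ'
    rw [List.mem_range] at ha hb'
    exact ⟨(a : ZMod P.length), (b : ZMod P.length), (key a ha b hb').1 h⟩
  · rintro ⟨i, j, h⟩
    obtain ⟨a, ha, rfl⟩ := cast_val hn i
    obtain ⟨b, hb', rfl⟩ := cast_val hn j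
    exact ⟨_, List.mem_flatMap.2 ⟨a, List.mem_range.2 ha, List.mem_map.2
      ⟨b, List.mem_range.2 hb', rfl⟩⟩, (key a ha b hb').2 h⟩

end Pool.Agent.Helper94.UR
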