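import Pool.Agent.Helper94.UR.Real

/-!
# Distance at least one from a segment, by zones
-/

set_option autoImplicit false

namespace Pool.Agent.Helper94.UR

open Pool.Agent.Helper20.Flip

private theorem d2_pos {A B : Pt} (hAB : A ≠ B) : 0 < d2 A B := by
  unfold d2
  by_contra h
  have h1 := sq_nonneg (A.1 - B.1)
  have h2 := sq_nonneg (A.2 - B.2)
  have h3 : (A.1 - B.1) ^ 2 = 0 := by linarith
  have h4 : (A.2 - B.2) ^ 2 = 0 := by linarith
  exact hAB (Prod.ext (sub_eq_zero.1 (pow_eq_zero_iff two_ne_zero |>.1 h3))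
    (sub_eq_zero.1 (pow_eq_zero_iff two_ne_zero |>.1 h4)))

/-- The points of the segment. -/
private theorem exists_param {A B X : Pt} (hX : X ∈ segment ℝ A B) :
    ∃ t : ℝ, 0 ≤ t ∧ t ≤ 1 ∧ X.1 = A.1 + t * (B.1 - A.1) ∧ X.2 = A.2 + t * (B.2 - A.2) := by
  rw [segment_eq_image'] at hX
  obtain ⟨t, ht, rfl⟩ := hX
  exact ⟨t, ht.1, ht.2, by simp, by simp⟩

private theorem param_mem {A B : Pt} {t : ℝ} (h0 : 0 ≤ t) (h1 : t ≤ 1) :
    (A.1 + t * (B.1 - A.1), A.2 + t * (B.2 - A.2)) ∈ segment ℝ A B := by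
  rw [segment_eq_image']
  exact ⟨t, ⟨h0, h1⟩, by ext <;> simp⟩

/-- The first zone. -/
private theorem far_of_zone {A B c X : Pt} (h1 : 1 ≤ d2 c A) (h2 : 0 ≤ dot (A - B) (c - A))
    (hX : X ∈ segment ℝ A B) : 1 ≤ d2 X c := by
  obtain ⟨t, h0, -, hx, hy⟩ := exists_param hX
  unfold d2 at h1 ⊢
  unfold dot at h2
  simp only [Prod.fst_sub, Prod.snd_sub] at h2
  rw [hx, hy]
  nlinarith [mul_nonneg h0 h2, sq_nonneg (t * (B.1 - A.1)), sq_nonneg (t * (B.2 - A.2))]

/-- The third zone. -/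
private theorem far_of_side {A B c X ν : Pt} (hAB : A ≠ B) (hν : ν.1 ^ 2 + ν.2 ^ 2 = d2 A B)
    (hν' : ν.1 * (B.1 - A.1) + ν.2 * (B.2 - A.2) = 0) (h : 0 ≤ dot ν (c - A) - √ (d2 A B))
    (hX : X ∈ segment ℝ A B) : 1 ≤ d2 X c := by
  obtain ⟨t, -, -, hx, hy⟩ := exists_param hX
  have hd := d2_pos hAB
  have hs : √ (d2 A B) ^ 2 = d2 A B := Real.sq_sqrt hd.le
  have hs' : 0 ≤ √ (d2 A B) := Real.sqrt_nonneg _
  have h1 : dot ν (c - A) = ν.1 * (c.1 - X.1) + ν.2 * (c.2 - X.2) := by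
    unfold dot
    simp only [Prod.fst_sub, Prod.snd_sub]
    rw [hx, hy]
    linear_combination t * hν'
  have h2 : dot ν (c - A) ^ 2 ≤ d2 A B * d2 X c := by
    rw [h1, ← hν]
    unfold d2
    nlinarith [sq_nonneg (ν.1 * (c.2 - X.2) - ν.2 * (c.1 - X.1))]
  have h3 : d2 A B ≤ dot ν (c - A) ^ 2 := by
    rw [← hs]
    exact pow_le_pow_left₀ hs' (by linarith) 2
  have h4 : d2 A B * 1 ≤ d2 A B * d2 X c := by linarith
  exact le_of_mul_le_mul_left h4 hd

/-- A point has distance at least one from the segment iff it is in one of the four zones. -/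
theorem far_iff_zones {A B : Pt} (hAB : A ≠ B) (c : Pt) : Far A B c ↔ Zones A B c := by
  have hd := d2_pos hAB
  constructor
  · intro h
    by_cases h1 : 0 ≤ dot (A - B) (c - A)
    · left
      refine ⟨?_, h1⟩
      have h2 := h A (left_mem_segment ℝ A B)
      unfold d2 at h2 ⊢
      nlinarith
    by_cases h2 : 0 ≤ dot (B - A) (c - B)
    · right
      left
      refine ⟨?_, h2⟩
      have h3 := h B (right_mem_segment ℝ A B)
      unfold d2 at h3 ⊢
      nlinarith
    right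
    right
    push Not at h1 h2
    unfold dot at h1 h2
    simp only [Prod.fst_sub, Prod.snd_sub] at h1 h2
    set t : ℝ := ((c.1 - A.1) * (B.1 - A.1) + (c.2 - A.2) * (B.2 - A.2)) / d2 A B with ht
    have htd : t * d2 A B = (c.1 - A.1) * (B.1 - A.1) + (c.2 - A.2) * (B.2 - A.2) :=
      div_mul_cancel₀ _ hd.ne'
    have h0 : 0 ≤ t := by
      rw [ht]
      refine div_nonneg ?_ hd.le
      nlinarith
    have h1' : t ≤ 1 := by
      rw [ht, div_le_one hd]
      unfold d2
      nlinarith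
    have h3 := h _ (param_mem (A := A) (B := B) h0 h1')
    set e : ℝ := (A.2 - B.2) * (c.1 - A.1) + (B.1 - A.1) * (c.2 - A.2) with he
    have h4 : d2 A B * d2 (A.1 + t * (B.1 - A.1), A.2 + t * (B.2 - A.2)) c = e ^ 2 := by
      have h5 : d2 (A.1 + t * (B.1 - A.1), A.2 + t * (B.2 - A.2)) c =
          (c.1 - A.1) ^ 2 + (c.2 - A.2) ^ 2 -
            2 * t * ((c.1 - A.1) * (B.1 - A.1) + (c.2 - A.2) * (B.2 - A.2)) +
              t ^ 2 * d2 A B := by
        unfold d2
        ring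
      rw [h5, ← htd]
      have h6 : d2 A B * ((c.1 - A.1) ^ 2 + (c.2 - A.2) ^ 2 - 2 * t * (t * d2 A B) +
          t ^ 2 * d2 A B) = d2 A B * ((c.1 - A.1) ^ 2 + (c.2 - A.2) ^ 2) - (t * d2 A B) ^ 2 := by
        ring
      rw [h6, htd, he]
      unfold d2
      ring
    have h5 : d2 A B ≤ e ^ 2 := by
      rw [← h4]
      nlinarith
    have h6 : √ (d2 A B) ≤ |e| := by
      rw [← Real.sqrt_sq_eq_abs]
      exact Real.sqrt_le_sqrt h5
    unfold dot
    simp only [Prod.fst_sub, Prod.snd_sub]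
    rcases le_abs'.1 h6 with h7 | h7
    · right
      have h8 : (B.2 - A.2) * (c.1 - A.1) + (A.1 - B.1) * (c.2 - A.2) = -e := by
        rw [he]
        ring
      rw [h8]
      linarith
    · left
      rw [← he]
      linarith
  · rintro (h | h | h | h) X hX
    · exact far_of_zone h.1 h.2 hX
    · rw [segment_symm] at hX
      exact far_of_zone h.1 h.2 hX
    · refine far_of_side (ν := (A.2 - B.2, B.1 - A.1)) hAB ?_ ?_ h hX
      · unfold d2
        ring
      · simp only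
        ring
    · refine far_of_side (ν := (B.2 - A.2, A.1 - B.1)) hAB ?_ ?_ h hX
      · unfold d2
        ring
      · simp only
        ring

end Pool.Agent.Helper94.UR
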