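import Pool.Agent.Helper94.UR.Real

/-!
# The zone constraints
-/

set_option autoImplicit false

namespace Pool.Agent.Helper94.UR

open Pool.Agent.Helper20.Flip

section
variable {n : ℕ} {V : ℕ → Pt} {ρ : ℕ → ℝ} {x : ℕ → Pt} {i a : ℕ}

theorem qR_zero (j : ℕ) : qR n V ρ x (0, i, j) = d2 (x i) (x j) - 4 := by
  simp [qR]

theorem qR_one : qR n V ρ x (1, i, a) = d2 (x i) (V a) - 1 := by
  simp [qR, rα, rr, re]
  ring

theorem qR_two : qR n V ρ x (2, i, a) = dot (V a - V (nx n a)) (x i - V a) := by
  simp [qR, rα, rr, re, dot]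

theorem qR_three : qR n V ρ x (3, i, a) = dot (V (nx n a) - V a) (x i - V (nx n a)) := by
  simp [qR, rα, rr, re, dot]

theorem qR_four : qR n V ρ x (4, i, a) =
    dot ((V a).2 - (V (nx n a)).2, (V (nx n a)).1 - (V a).1) (x i - V a) - ρ a := by
  simp [qR, rα, rr, re, dot]

theorem qR_five : qR n V ρ x (5, i, a) =
    dot ((V (nx n a)).2 - (V a).2, (V a).1 - (V (nx n a)).1) (x i - V a) - ρ a := by
  simp [qR, rα, rr, re, dot]

end

/-- the constraints of the zones -/
theorem zone_iff {n : ℕ} {V : ℕ → Pt} {ρ : ℕ → ℝ} {x : ℕ → Pt} {i a : ℕ}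
    (hρ : ρ a = √ (d2 (V a) (V (nx n a)))) :
    (∃ b b', ∀ c ∈ zoneL n i a b b', 0 ≤ qR n V ρ x c) ↔ Zones (V a) (V (nx n a)) (x i) := by
  unfold Zones
  rw [← hρ]
  constructor
  · rintro ⟨b, b', h⟩
    cases b
    · cases b'
      · left
        have h1 := h (1, i, a) (by simp [zoneL])
        have h2 := h (2, i, a) (by simp [zoneL])
        rw [qR_one] at h1
        rw [qR_two] at h2
        exact ⟨by linarith, h2⟩
      · right; left
        have h1 := h (1, i, nx n a) (by simp [zoneL])
        have h2 := h (3, i, a) (by simp [zoneL])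
        rw [qR_one] at h1
        rw [qR_three] at h2
        exact ⟨by linarith, h2⟩
    · cases b'
      · right; right; right
        have h1 := h (5, i, a) (by simp [zoneL])
        rwa [qR_five] at h1
      · right; right; left
        have h1 := h (4, i, a) (by simp [zoneL])
        rwa [qR_four] at h1
  · rintro (⟨h1, h2⟩ | ⟨h1, h2⟩ | h1 | h1)
    · refine ⟨false, false, ?_⟩
      intro c hc
      simp only [zoneL, Bool.false_eq_true, if_false, List.mem_cons, List.not_mem_nil,
        or_false] at hc
      rcases hc with rfl | rfl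
      · rw [qR_one]; linarith
      · rw [qR_two]; exact h2
    · refine ⟨false, true, ?_⟩
      intro c hc
      simp only [zoneL, Bool.false_eq_true, if_false, if_true, List.mem_cons, List.not_mem_nil,
        or_false] at hc
      rcases hc with rfl | rfl
      · rw [qR_one]; linarith
      · rw [qR_three]; exact h2
    · refine ⟨true, true, ?_⟩
      intro c hc
      simp only [zoneL, if_true, List.mem_cons, List.not_mem_nil, or_false] at hc
      subst hc
      rw [qR_four]; exact h1
    · refine ⟨true, false, ?_⟩
      intro c hc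
      simp only [zoneL, Bool.false_eq_true, if_false, if_true, List.mem_cons, List.not_mem_nil,
        or_false] at hc
      subst hc
      rw [qR_five]; exact h1

end Pool.Agent.Helper94.UR
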