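import Pool.Agent.Helper94.UR.Guess
import Pool.Agent.Helper94.UR.ZoneQ
import Pool.Agent.Helper94.UR.Zone
import Pool.Agent.Helper94.UR.AppB
import Pool.Agent.Helper94.UR.SemIns
import Pool.Agent.Helper94.UR.RegionB

/-!
# Packings and guesses
-/

set_option autoImplicit false

namespace Pool.Agent.Helper94.UR

open Pool.Agent.Helper20.Flip Pool.Agent.Helper97.UDP Topology

/-- The predicate: the polygon is simple, the selected reversed program is strictly feasible, and
its solution satisfies all constraints and lies in the region. -/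
def Good (P : List (RatCode × RatCode)) (m : ℕ) (y : List Bool) : Prop :=
  IsSimple (polygon P) ∧
    SFr P.length (vert P) (rho P) (Zf P.length m y) (Ks P.length m y) ∧
    ∃ x ω, KKTr P.length m (vert P) (rho P) (Zf P.length m y) (Ks P.length m y) x ω ∧
      (∀ k < (consL P.length m y).length,
        0 ≤ qR P.length (vert P) (rho P) x (Zf P.length m y k)) ∧
      ∀ l < m, x l ∈ region (polygon P)

theorem forall_Zf {n m : ℕ} {y : List Bool} {p : Con → Prop} :
    (∀ k < (consL n m y).length, p (Zf n m y k)) ↔ ∀ c ∈ consL n m y, p c := by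
  constructor
  · intro h c hc
    obtain ⟨k, hk, rfl⟩ := List.getElem_of_mem hc
    have := h k hk
    unfold Zf at this
    rwa [List.getD_eq_getElem _ _ hk] at this
  · intro h k hk
    unfold Zf
    rw [List.getD_eq_getElem _ _ hk]
    exact h _ (List.getElem_mem hk)

theorem far_iff_vert {P : List (RatCode × RatCode)} (hV : IsSimple (polygon P)) (c : Pt) :
    (∀ i, Far (polygon P i) (polygon P (i + 1)) c) ↔
      ∀ a < P.length, Zones (vert P a) (vert P (nx P.length a)) c := by
  have hn : NeZero P.length := ⟨by have := hV.1; omega⟩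
  constructor
  · intro h a ha
    have h1 := h (a : ZMod P.length)
    rw [far_iff_zones (hV.2.1 _), polygon_vert ha, polygon_nx ha] at h1
    exact h1
  · intro h i
    have hi := ZMod.val_lt i
    have h1 := h _ hi
    rw [far_iff_zones (hV.2.1 _)]
    have h2 := polygon_vert hi
    have h3 := polygon_nx hi
    rw [ZMod.natCast_zmod_val] at h2 h3
    rw [h2, h3]
    exact h1

theorem disk_iff_vert {P : List (RatCode × RatCode)} (hV : IsSimple (polygon P)) (c : Pt) :
    disk c ⊆ region (polygon P) ↔ c ∈ region (polygon P) ∧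
      ∀ a < P.length, Zones (vert P a) (vert P (nx P.length a)) c := by
  rw [disk_subset_region_iff hV, far_iff_vert hV]

theorem cons_iff {P : List (RatCode × RatCode)} {m : ℕ} {x : ℕ → Pt} {y : List Bool}
    (h : ∀ c ∈ consL P.length m y, 0 ≤ qR P.length (vert P) (rho P) x c) :
    (∀ i < m, ∀ a < P.length, Zones (vert P a) (vert P (nx P.length a)) (x i)) ∧
      ∀ i < m, ∀ j < i, 4 ≤ d2 (x i) (x j) := by
  constructor
  · intro i hi a ha
    rw [← zone_iff (n := P.length) (ρ := rho P) (x := x) (V := vert P) rfl]
    exact ⟨_, _, fun c hc => h c (mem_consL.2 (Or.inr ⟨i, hi, a, ha, hc⟩))⟩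
  · intro i hi j hj
    have h1 := h (0, i, j) (mem_consL.2 (Or.inl ⟨i, hi, j, hj, rfl⟩))
    rw [qR_zero] at h1
    linarith

theorem d2_comm (A B : Pt) : d2 A B = d2 B A := by
  unfold d2; ring

/-- a guess that satisfies the predicate gives a packing -/
theorem packs_of_good {P : List (RatCode × RatCode)} {m : ℕ} {y : List Bool}
    (hg : Good P m y) : Packs (polygon P) m := by
  obtain ⟨hV, -, x, ω, -, h1, h2⟩ := hg
  rw [forall_Zf (p := fun c => 0 ≤ qR P.length (vert P) (rho P) x c)] at h1
  obtain ⟨h3, h4⟩ := cons_iff h1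
  refine ⟨fun l => x l, fun l => ?_, fun i j hij => ?_⟩
  · rw [disk_iff_vert hV]
    exact ⟨h2 l l.2, h3 l l.2⟩
  · rcases lt_trichotomy (i : ℕ) (j : ℕ) with h | h | h
    · have := h4 j j.2 i h
      rw [d2_comm] at this
      exact this
    · exact absurd (Fin.ext h) hij
    · exact h4 i i.2 j h

/-- a packing exists iff some guess satisfies the predicate -/
theorem packs_iff {P : List (RatCode × RatCode)} {m : ℕ} (hV : IsSimple (polygon P)) :
    Packs (polygon P) m ↔ ∃ y : List Bool, y.length ≤ bnd P.length m ∧ Good P m y := by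
  classical
  constructor
  · rintro ⟨c, hc, hd⟩
    set x : ℕ → Pt := ext0 c with hx
    have hxl : ∀ (l : ℕ) (hl : l < m), x l = c ⟨l, hl⟩ := by
      intro l hl
      rw [hx, ext0, dif_pos hl]
    have hreg : ∀ l < m, x l ∈ region (polygon P) ∧
        ∀ a < P.length, Zones (vert P a) (vert P (nx P.length a)) (x l) := by
      intro l hl
      rw [← disk_iff_vert hV, hxl l hl]
      exact hc _
    have hpair : ∀ i < m, ∀ j < i, 4 ≤ d2 (x i) (x j) := by
      intro i hi j hj
      rw [hxl i hi, hxl j (by omega)]
      exact hd _ _ (by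
        intro h
        have := congrArg Fin.val h
        simp only at this
        omega)
    have hz : ∀ i a, ∃ b b', i < m → a < P.length → ∀ c ∈ zoneL P.length i a b b',
        0 ≤ qR P.length (vert P) (rho P) x c := by
      intro i a
      by_cases hi : i < m
      · by_cases ha : a < P.length
        · obtain ⟨b, b', h⟩ := (zone_iff (n := P.length) (ρ := rho P) (x := x) (V := vert P)
            (i := i) (a := a) rfl).2 ((hreg i hi).2 a ha)
          exact ⟨b, b', fun _ _ => h⟩
        · exact ⟨true, true, fun _ h => absurd h ha⟩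
      · exact ⟨true, true, fun h => absurd h hi⟩
    choose b b' hbb using hz
    -- the selection
    have hsel : ∀ Z : List Con, ∃ K : Finset ℕ, K ⊆ Finset.range Z.length ∧
        ((∀ c ∈ Z, c.Valid P.length m) →
          (∀ c ∈ Z, 0 ≤ qR P.length (vert P) (rho P) x c) →
          (∀ x : ℕ → Pt, (∀ c ∈ Z, 0 ≤ qR P.length (vert P) (rho P) x c) →
            ∀ l < m, ∀ i, Far (polygon P i) (polygon P (i + 1)) (x l)) →
          SFr P.length (vert P) (rho P) (fun k => Z.getD k default) K ∧
          ∃ x ω, KKTr P.length m (vert P) (rho P) (fun k => Z.getD k default) K x ω ∧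
            (∀ k < Z.length, 0 ≤ qR P.length (vert P) (rho P) x (Z.getD k default)) ∧
            ∀ l < m, x l ∈ region (polygon P)) := by
      intro Z
      by_cases hZ1 : (∀ c ∈ Z, c.Valid P.length m) ∧
          (∀ c ∈ Z, 0 ≤ qR P.length (vert P) (rho P) x c) ∧
          (∀ x : ℕ → Pt, (∀ c ∈ Z, 0 ≤ qR P.length (vert P) (rho P) x c) →
            ∀ l < m, ∀ i, Far (polygon P i) (polygon P (i + 1)) (x l))
      · obtain ⟨h1, h2, h3⟩ := hZ1
        have hget : ∀ k ∈ Finset.range Z.length, Z.getD k default ∈ Z := by
          intro k hk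
          rw [Finset.mem_range] at hk
          rw [List.getD_eq_getElem _ _ hk]
          exact List.getElem_mem hk
        have hall : ∀ z : ℕ → Pt, (∀ k ∈ Finset.range Z.length,
            0 ≤ qR P.length (vert P) (rho P) z (Z.getD k default)) →
            ∀ c ∈ Z, 0 ≤ qR P.length (vert P) (rho P) z c := by
          intro z hz c hc
          obtain ⟨k, hk, rfl⟩ := List.getElem_of_mem hc
          have := hz k (Finset.mem_range.2 hk)
          rwa [List.getD_eq_getElem _ _ hk] at this
        obtain ⟨K, hK, h4, z, ω, h5, h6, h7⟩ := exists_selr (m := m) (vert P) (rho P)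
          (fun k => Z.getD k default) (Finset.range Z.length)
          (fun k hk => h1 _ (hget k hk)) (isCompact_region hV)
          (by
            intro z hz hzG l hl
            refine region_mem_nhds hV (hzG l hl) ?_
            have h8 := h3 z (hall z hz) l hl
            exact (near_same hV h8 (p := z l) (by simp [d2])).1)
          ⟨x, fun k hk => h2 _ (hget k hk), fun l hl => (hreg l hl).1⟩
        exact ⟨K, hK, fun _ _ _ => ⟨h4, z, ω, h5,
          fun k hk => h6 k (Finset.mem_range.2 hk), h7⟩⟩
      · refine ⟨∅, Finset.empty_subset _, fun h1 h2 h3 => absurd ⟨h1, h2, h3⟩ hZ1⟩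
    choose K hK1 hK2 using hsel
    obtain ⟨y, hy, hyb, hyK⟩ := exists_guess P.length m b b' K hK1
    refine ⟨y, hy, hV, ?_⟩
    have h1 := hK2 (consL P.length m y) (fun c hc => consL_valid hc) (by
        intro c hc
        rcases mem_consL.1 hc with ⟨i, hi, j, hj, rfl⟩ | ⟨i, hi, a, ha, h⟩
        · rw [qR_zero]
          have := hpair i hi j hj
          linarith
        · rw [(hyb i hi a ha).1, (hyb i hi a ha).2] at h
          exact hbb i a hi ha c h)
      (by
        intro z hz l hl
        rw [far_iff_vert hV]
        exact (cons_iff hz).1 l hl)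
    rw [← hyK] at h1
    exact h1
  · rintro ⟨y, -, hg⟩
    exact packs_of_good hg

end Pool.Agent.Helper94.UR
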