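import Pool.Agent.Helper94.UR.Gen

/-!
# The meaning of the parts of the sentences
-/

set_option autoImplicit false

namespace Pool.Agent.Helper94.UR

open Pool.Agent.Helper20.Flip

/-- square of the Euclidean distance -/
def d2 (A B : Pt) : ℝ := (A.1 - B.1) ^ 2 + (A.2 - B.2) ^ 2

/-- the scalar product -/
def dot (A B : Pt) : ℝ := A.1 * B.1 + A.2 * B.2

/-- the vertices of the polygon, as a function on the natural numbers -/
noncomputable def vert (P : List (RatCode × RatCode)) (a : ℕ) : Pt :=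
  (ratVal (P.getD a default).1, ratVal (P.getD a default).2)

/-- the lengths of the edges -/
noncomputable def rho (P : List (RatCode × RatCode)) (a : ℕ) : ℝ :=
  √ (d2 (vert P a) (vert P (nx P.length a)))

/-! ### constraints, for vertices `V` and lengths `ρ` -/

def rα (n : ℕ) (V : ℕ → Pt) (k a : ℕ) : Pt :=
  if k = 1 then (0, 0)
  else if k = 2 then ((V a).1 - (V (nx n a)).1, (V a).2 - (V (nx n a)).2)
  else if k = 3 then ((V (nx n a)).1 - (V a).1, (V (nx n a)).2 - (V a).2)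
  else if k = 4 then ((V a).2 - (V (nx n a)).2, (V (nx n a)).1 - (V a).1)
  else ((V (nx n a)).2 - (V a).2, (V a).1 - (V (nx n a)).1)

def rr (n : ℕ) (V : ℕ → Pt) (k a : ℕ) : Pt := if k = 3 then V (nx n a) else V a

def re (ρ : ℕ → ℝ) (k a : ℕ) : ℝ := if k = 1 then 1 else if k = 2 then 0 else if k = 3 then 0 else ρ a

/-- the value of the constraint `c` at the centres `x` -/
def qR (n : ℕ) (V : ℕ → Pt) (ρ : ℕ → ℝ) (x : ℕ → Pt) (c : Con) : ℝ :=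
  if c.1 = 0 then d2 (x c.2.1) (x c.2.2) - 4
  else (if c.1 = 1 then d2 (x c.2.1) (rr n V c.1 c.2.2) else 0) +
    (((rα n V c.1 c.2.2).1 * ((x c.2.1).1 - (rr n V c.1 c.2.2).1) +
      (rα n V c.1 c.2.2).2 * ((x c.2.1).2 - (rr n V c.1 c.2.2).2)) - re ρ c.1 c.2.2)

/-- the gradient of the constraint `c` with respect to the centre `l` -/
def gR (n : ℕ) (V : ℕ → Pt) (x : ℕ → Pt) (c : Con) (l : ℕ) : Pt :=
  if c.1 = 0 then
    (if l = c.2.1 then (2 * ((x c.2.1).1 - (x c.2.2).1), 2 * ((x c.2.1).2 - (x c.2.2).2))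
      else if l = c.2.2 then (2 * ((x c.2.2).1 - (x c.2.1).1), 2 * ((x c.2.2).2 - (x c.2.1).2))
      else (0, 0))
  else if l = c.2.1 then
    ((if c.1 = 1 then 2 * ((x c.2.1).1 - (rr n V c.1 c.2.2).1) else 0) + (rα n V c.1 c.2.2).1,
      (if c.1 = 1 then 2 * ((x c.2.1).2 - (rr n V c.1 c.2.2).2) else 0) + (rα n V c.1 c.2.2).2)
  else (0, 0)

/-- codes of constraints for `m` disks and `n` edges -/
def Con.Valid (n m : ℕ) (c : Con) : Prop :=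
  (c.1 = 0 ∧ c.2.1 < m ∧ c.2.2 < m ∧ c.2.1 ≠ c.2.2) ∨
    (1 ≤ c.1 ∧ c.1 ≤ 5 ∧ c.2.1 < m ∧ c.2.2 < n)

/-- strict feasibility of the reversed constraints `Z k`, `k ∈ K` -/
def SFr (n : ℕ) (V : ℕ → Pt) (ρ : ℕ → ℝ) (Z : ℕ → Con) (K : Finset ℕ) : Prop :=
  ∃ z : ℕ → Pt, ∀ k ∈ K, qR n V ρ z (Z k) < 0

/-- the conditions of Karush, Kuhn and Tucker for the reversed constraints -/
def KKTr (n m : ℕ) (V : ℕ → Pt) (ρ : ℕ → ℝ) (Z : ℕ → Con) (K : Finset ℕ) (x : ℕ → Pt)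
    (ω : ℕ → ℝ) : Prop :=
  (∀ k ∈ K, 0 ≤ ω k) ∧
  (∀ l < m, 2 * (x l).1 + ∑ k ∈ K, ω k * (gR n V x (Z k) l).1 = 0 ∧
    2 * (x l).2 + ∑ k ∈ K, ω k * (gR n V x (Z k) l).2 = 0) ∧
  ∀ k ∈ K, qR n V ρ x (Z k) ≤ 0 ∧ ω k * qR n V ρ x (Z k) = 0

/-- the certificate for the failure of strict feasibility -/
def NSFr (n m : ℕ) (V : ℕ → Pt) (ρ : ℕ → ℝ) (Z : ℕ → Con) (K : Finset ℕ) : Prop :=
  ∃ (x : ℕ → Pt) (ω : ℕ → ℝ), (∀ k ∈ K, 0 ≤ ω k) ∧ ∑ k ∈ K, ω k = 1 ∧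
    (∀ l < m, ∑ k ∈ K, ω k * (gR n V x (Z k) l).1 = 0 ∧
      ∑ k ∈ K, ω k * (gR n V x (Z k) l).2 = 0) ∧
    0 ≤ ∑ k ∈ K, ω k * qR n V ρ x (Z k)

/-! ### the inside test -/

/-- no vertex is vertically above or below `p` -/
def Gen {n : ℕ} (V : ZMod n → Pt) (p : Pt) : Prop := ∀ i, (V i).1 ≠ p.1

/-- the height of the line of the edge `i` at the abscissa `x` -/
noncomputable def hgt {n : ℕ} (V : ZMod n → Pt) (i : ZMod n) (x : ℝ) : ℝ :=
  (V i).2 + (x - (V i).1) * ((V (i + 1)).2 - (V i).2) / ((V (i + 1)).1 - (V i).1)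

/-- the edge `i` is above the point `p` -/
def Above {n : ℕ} (V : ZMod n → Pt) (i : ZMod n) (p : Pt) : Prop :=
  (((V i).1 < p.1 ∧ p.1 < (V (i + 1)).1) ∨ ((V (i + 1)).1 < p.1 ∧ p.1 < (V i).1)) ∧
    p.2 < hgt V i p.1

/-- the inside test: there are edges above `p`, and the lowest and the highest of them have the
same direction -/
def Ins {n : ℕ} (V : ZMod n → Pt) (p : Pt) : Prop :=
  ∃ a b, 0 < ((V (a + 1)).1 - (V a).1) * ((V (b + 1)).1 - (V b).1) ∧ Above V a p ∧ Above V b p ∧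
    ∀ e, Above V e p → hgt V a p.1 ≤ hgt V e p.1 ∧ hgt V e p.1 ≤ hgt V b p.1

/-! ### certificates for simple polygons -/

/-- separating affine functions for the pairs of edges -/
def SimC {n : ℕ} (V : ZMod n → Pt) : Prop :=
  (∀ i, V i ≠ V (i + 1)) ∧ ∀ i j : ZMod n, i ≠ j → i ≠ j + 1 →
    (j = i + 1 → ∃ α : Pt, 1 ≤ dot α (V i - V j) ∧ dot α (V (j + 1) - V j) ≤ 0) ∧
    (j ≠ i + 1 → ∃ (α : Pt) (c : ℝ), 1 ≤ dot α (V i) + c ∧ 1 ≤ dot α (V (i + 1)) + c ∧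
      dot α (V j) + c ≤ -1 ∧ dot α (V (j + 1)) + c ≤ -1)

/-! ### conditions on the centres -/

/-- the point `c` has distance at least one from the segment -/
def Far (A B c : Pt) : Prop := ∀ X ∈ segment ℝ A B, 1 ≤ d2 X c

/-- the disjunction of the four zones -/
def Zones (A B c : Pt) : Prop :=
  (1 ≤ d2 c A ∧ 0 ≤ dot (A - B) (c - A)) ∨ (1 ≤ d2 c B ∧ 0 ≤ dot (B - A) (c - B)) ∨
    (0 ≤ dot (A.2 - B.2, B.1 - A.1) (c - A) - √ (d2 A B)) ∨
    (0 ≤ dot (B.2 - A.2, A.1 - B.1) (c - A) - √ (d2 A B))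

end Pool.Agent.Helper94.UR
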