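import Pool.Agent.Helper94.UR.Real

/-!
# The meaning of the formulas: vertices and constraints
-/

set_option autoImplicit false

namespace Pool.Agent.Helper94.UR

open Pool.Agent.Helper20.Flip

/-- the points of kind `κ` -/
def XP (κ : ℕ) (v : ℕ → ℝ) : ℕ → Pt := fun l => ev v (pv κ l)

/-- the variables of the kinds 0 and 1 have the intended values -/
def BaseR (P : List (RatCode × RatCode)) (v : ℕ → ℝ) : Prop :=
  ∀ a < P.length, ev v (vx a) = vert P a ∧ g3 v 1 a 0 = rho P a

theorem nx_lt {n a : ℕ} (ha : a < n) : nx n a < n := by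
  unfold nx
  split_ifs with h <;> omega

private theorem ratF_iff {r : RatCode} (hr : val r.2.2 ≠ 0) {v : ℕ → ℝ} {x : Tm} :
    (ratF r x).Holds v ↔ x.eval v = ratVal r := by
  have hr' : ((val r.2.2 : ℕ) : ℝ) ≠ 0 := by exact_mod_cast hr
  obtain ⟨b, p, q⟩ := r
  unfold ratF ratVal
  cases b
  · simp only [holds_eq, eval_mul, eval_nat, Bool.false_eq_true, if_false, one_mul]
    rw [eq_div_iff hr', mul_comm]
  · simp only [holds_eq, eval_mul, eval_nat, if_true, eval_neg]
    rw [neg_one_mul, ← neg_div, eq_div_iff hr', mul_comm]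

private theorem d2T_eval (v : ℕ → ℝ) (A B : PT) : (d2T A B).eval v = d2 (ev v A) (ev v B) := by
  simp [d2T, d2, ev]

private theorem d2_nonneg (A B : Pt) : 0 ≤ d2 A B := by
  unfold d2; positivity

theorem baseF_iff {P : List (RatCode × RatCode)}
    (hden : ∀ q ∈ P, val q.1.2.2 ≠ 0 ∧ val q.2.2.2 ≠ 0) (v : ℕ → ℝ) :
    (baseF P).Holds v ↔ BaseR P v := by
  unfold baseF BaseR
  simp only [holds_all, List.mem_map, List.mem_range, forall_exists_index, and_imp,
    forall_apply_eq_imp_iff₂, holds_and]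
  have key : ∀ a < P.length, ((ratF (P.getD a default).1 (vx a).1).Holds v ∧
      (ratF (P.getD a default).2 (vx a).2).Holds v ↔ ev v (vx a) = vert P a) := by
    intro a ha
    have hm : P.getD a default ∈ P := by
      rw [List.getD_eq_getElem _ _ ha]
      exact List.getElem_mem ha
    obtain ⟨h1, h2⟩ := hden _ hm
    rw [ratF_iff h1, ratF_iff h2]
    unfold ev vert
    rw [Prod.ext_iff]
  constructor
  · intro h
    have h1 : ∀ a < P.length, ev v (vx a) = vert P a := fun a ha =>
      (key a ha).1 ⟨(h a ha).1.1, (h a ha).1.2⟩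
    intro a ha
    refine ⟨h1 a ha, ?_⟩
    obtain ⟨-, h3, h4⟩ := h a ha
    rw [holds_le, eval_zero, eval_v3] at h3
    rw [holds_eq, eval_sq, eval_v3, d2T_eval, h1 a ha, h1 _ (nx_lt ha)] at h4
    unfold rho
    rw [← h4, Real.sqrt_sq h3]
  · intro h a ha
    obtain ⟨h1, h2⟩ := h a ha
    obtain ⟨h1', -⟩ := h _ (nx_lt ha)
    obtain ⟨h3, h4⟩ := (key a ha).2 h1
    refine ⟨⟨h3, h4⟩, ?_, ?_⟩
    · rw [holds_le, eval_zero, eval_v3, h2]
      exact Real.sqrt_nonneg _
    · rw [holds_eq, eval_sq, eval_v3, d2T_eval, h1, h1', h2]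
      exact Real.sq_sqrt (d2_nonneg _ _)

theorem qT_eval {P : List (RatCode × RatCode)} {v : ℕ → ℝ} (hb : BaseR P v) {m : ℕ} {c : Con}
    (hc : c.Valid P.length m) (κ : ℕ) :
    (qT P.length κ c).eval v = qR P.length (vert P) (rho P) (XP κ v) c := by
  obtain ⟨k, i, a⟩ := c
  rcases hc with ⟨h0, -, -, -⟩ | ⟨h1, h5, -, ha⟩
  · simp only at h0
    subst h0
    simp [qT, qR, d2T_eval, XP]
  · simp only at h1 h5 ha
    have ha1 := (hb a ha).1
    have ha2 := (hb a ha).2
    have ha3 := (hb _ (nx_lt ha)).1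
    simp only [ev, Prod.ext_iff] at ha1 ha3
    have hk : k = 1 ∨ k = 2 ∨ k = 3 ∨ k = 4 ∨ k = 5 := by omega
    rcases hk with rfl | rfl | rfl | rfl | rfl <;>
      simp [qT, qR, d2T_eval, XP, cα, cr, ce, rα, rr, re, ev, d2, ha1, ha2, ha3]

theorem gT_eval {P : List (RatCode × RatCode)} {v : ℕ → ℝ} (hb : BaseR P v) {m : ℕ} {c : Con}
    (hc : c.Valid P.length m) (κ l : ℕ) :
    ev v (gT P.length κ c l) = gR P.length (vert P) (XP κ v) c l := by
  obtain ⟨k, i, a⟩ := c
  rcases hc with ⟨h0, -, -, -⟩ | ⟨h1, h5, -, ha⟩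
  · simp only at h0
    subst h0
    simp only [gT, gR, if_true]
    split_ifs <;> simp [ev, XP]
  · simp only at h1 h5 ha
    have ha1 := (hb a ha).1
    have ha3 := (hb _ (nx_lt ha)).1
    simp only [ev, Prod.ext_iff] at ha1 ha3
    have hk : k = 1 ∨ k = 2 ∨ k = 3 ∨ k = 4 ∨ k = 5 := by omega
    by_cases hl : l = i
    · rcases hk with rfl | rfl | rfl | rfl | rfl <;>
        simp [gT, gR, XP, cα, cr, rα, rr, ev, ha1, ha3, hl]
    · rcases hk with rfl | rfl | rfl | rfl | rfl <;>
        simp [gT, gR, ev, hl]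

theorem consL_valid {n m : ℕ} {y : List Bool} {c : Con} (hc : c ∈ consL n m y) :
    c.Valid n m := by
  unfold consL at hc
  rw [List.mem_append] at hc
  rcases hc with hc | hc
  · rw [List.mem_flatMap] at hc
    obtain ⟨i, hi, hc⟩ := hc
    rw [List.mem_map] at hc
    obtain ⟨j, hj, rfl⟩ := hc
    rw [List.mem_range] at hi hj
    left
    refine ⟨rfl, hi, ?_, ?_⟩
    · show j < m
      omega
    · show i ≠ j
      omega
  · rw [List.mem_flatMap] at hc
    obtain ⟨i, hi, hc⟩ := hc
    rw [List.mem_flatMap] at hc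
    obtain ⟨a, ha, hc⟩ := hc
    rw [List.mem_range] at hi ha
    right
    have hn := nx_lt ha
    unfold zoneL at hc
    split_ifs at hc <;> simp only [List.mem_cons, List.not_mem_nil, or_false] at hc
    · subst hc
      exact ⟨by norm_num, by norm_num, hi, ha⟩
    · subst hc
      exact ⟨by norm_num, by norm_num, hi, ha⟩
    · rcases hc with rfl | rfl
      · exact ⟨by norm_num, by norm_num, hi, hn⟩
      · exact ⟨by norm_num, by norm_num, hi, ha⟩
    · rcases hc with rfl | rfl
      · exact ⟨by norm_num, by norm_num, hi, ha⟩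
      · exact ⟨by norm_num, by norm_num, hi, ha⟩

/-- the constraint with the index `k` -/
def Zf (n m : ℕ) (y : List Bool) (k : ℕ) : Con := (consL n m y).getD k default

/-- the selected indices -/
def Ks (n m : ℕ) (y : List Bool) : Finset ℕ := (selL n m y).toFinset

theorem Zf_valid {n m : ℕ} {y : List Bool} {k : ℕ} (hk : k < (consL n m y).length) :
    (Zf n m y k).Valid n m := by
  unfold Zf
  rw [List.getD_eq_getElem _ _ hk]
  exact consL_valid (List.getElem_mem hk)

theorem lt_of_mem_Ks {n m : ℕ} {y : List Bool} {k : ℕ} (hk : k ∈ Ks n m y) :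
    k < (consL n m y).length := by
  unfold Ks selL at hk
  rw [List.mem_toFinset, List.mem_filter, List.mem_range] at hk
  exact hk.1

private theorem all_sel_iff {n m : ℕ} {y : List Bool} {v : ℕ → ℝ} {F : ℕ → Fm} :
    (Fm.all ((selL n m y).map F)).Holds v ↔ ∀ k ∈ Ks n m y, (F k).Holds v := by
  simp only [holds_all, List.mem_map, forall_exists_index, and_imp, forall_apply_eq_imp_iff₂, Ks,
    List.mem_toFinset]

private theorem sum_sel {n m : ℕ} {y : List Bool} {v : ℕ → ℝ} {F : ℕ → Tm} :
    (Tm.sum ((selL n m y).map F)).eval v = ∑ k ∈ Ks n m y, (F k).eval v := by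
  rw [eval_sum, List.map_map, Ks, List.sum_toFinset]
  · rfl
  · exact List.Nodup.filter _ List.nodup_range

theorem sfF_iff {P : List (RatCode × RatCode)} {v : ℕ → ℝ} (hb : BaseR P v) (m : ℕ)
    (y : List Bool) : (sfF P.length m y).Holds v ↔
      ∀ k ∈ Ks P.length m y,
        qR P.length (vert P) (rho P) (XP 2 v) (Zf P.length m y k) < 0 := by
  unfold sfF
  rw [all_sel_iff]
  refine forall₂_congr fun k hk => ?_
  rw [holds_lt, eval_zero]
  exact (qT_eval hb (Zf_valid (lt_of_mem_Ks hk)) 2) ▸ Iff.rfl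

private theorem gradT_eval {P : List (RatCode × RatCode)} {v : ℕ → ℝ} (hb : BaseR P v) (m : ℕ)
    (y : List Bool) (l : ℕ) :
    (gradT P.length m y l).1.eval v = ∑ k ∈ Ks P.length m y,
        g3 v 4 k 0 * (gR P.length (vert P) (XP 3 v) (Zf P.length m y k) l).1 ∧
    (gradT P.length m y l).2.eval v = ∑ k ∈ Ks P.length m y,
        g3 v 4 k 0 * (gR P.length (vert P) (XP 3 v) (Zf P.length m y k) l).2 := by
  unfold gradT
  constructor
  · show (Tm.sum _).eval v = _
    rw [sum_sel]
    refine Finset.sum_congr rfl fun k hk => ?_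
    rw [eval_mul, eval_v3, ← gT_eval hb (Zf_valid (lt_of_mem_Ks hk)) 3 l]
    rfl
  · show (Tm.sum _).eval v = _
    rw [sum_sel]
    refine Finset.sum_congr rfl fun k hk => ?_
    rw [eval_mul, eval_v3, ← gT_eval hb (Zf_valid (lt_of_mem_Ks hk)) 3 l]
    rfl

theorem kktF_iff {P : List (RatCode × RatCode)} {v : ℕ → ℝ} (hb : BaseR P v) (m : ℕ)
    (y : List Bool) : (kktF P.length m y).Holds v ↔
      KKTr P.length m (vert P) (rho P) (Zf P.length m y) (Ks P.length m y) (XP 3 v)
        (fun k => g3 v 4 k 0) := by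
  unfold kktF KKTr
  rw [holds_and, holds_and, all_sel_iff, all_sel_iff]
  refine and_congr ?_ (and_congr ?_ ?_)
  · refine forall₂_congr fun k hk => ?_
    rw [holds_le, eval_zero, eval_v3]
  · simp only [holds_all, List.mem_map, List.mem_range, forall_exists_index, and_imp,
      forall_apply_eq_imp_iff₂]
    refine forall₂_congr fun l hl => ?_
    obtain ⟨h1, h2⟩ := gradT_eval hb m y l
    rw [holds_and, holds_eq, holds_eq, eval_add, eval_add, eval_mul, eval_mul, h1, h2, eval_two,
      eval_zero]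
    rfl
  · refine forall₂_congr fun k hk => ?_
    have h := qT_eval hb (Zf_valid (lt_of_mem_Ks hk)) 3
    unfold Zf at h
    rw [holds_and, holds_le, holds_eq, eval_mul, h, eval_zero, eval_v3]
    rfl

theorem nsfF_iff {P : List (RatCode × RatCode)} {v : ℕ → ℝ} (hb : BaseR P v) (m : ℕ)
    (y : List Bool) : (nsfF P.length m y).Holds v ↔
      (∀ k ∈ Ks P.length m y, 0 ≤ g3 v 4 k 0) ∧ ∑ k ∈ Ks P.length m y, g3 v 4 k 0 = 1 ∧
      (∀ l < m, ∑ k ∈ Ks P.length m y,
          g3 v 4 k 0 * (gR P.length (vert P) (XP 3 v) (Zf P.length m y k) l).1 = 0 ∧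
        ∑ k ∈ Ks P.length m y,
          g3 v 4 k 0 * (gR P.length (vert P) (XP 3 v) (Zf P.length m y k) l).2 = 0) ∧
      0 ≤ ∑ k ∈ Ks P.length m y,
        g3 v 4 k 0 * qR P.length (vert P) (rho P) (XP 3 v) (Zf P.length m y k) := by
  unfold nsfF
  rw [holds_and, holds_and, holds_and, all_sel_iff]
  refine and_congr ?_ (and_congr ?_ (and_congr ?_ ?_))
  · refine forall₂_congr fun k hk => ?_
    rw [holds_le, eval_zero, eval_v3]
  · rw [holds_eq, sum_sel, eval_one]
    rfl
  · simp only [holds_all, List.mem_map, List.mem_range, forall_exists_index, and_imp,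
      forall_apply_eq_imp_iff₂]
    refine forall₂_congr fun l hl => ?_
    obtain ⟨h1, h2⟩ := gradT_eval hb m y l
    rw [holds_and, holds_eq, holds_eq, h1, h2, eval_zero]
  · rw [holds_le, eval_zero, sum_sel]
    have : ∀ k ∈ Ks P.length m y, (Tm.mul (v3 4 k 0)
        (qT P.length 3 ((consL P.length m y).getD k default))).eval v =
        g3 v 4 k 0 * qR P.length (vert P) (rho P) (XP 3 v) (Zf P.length m y k) := by
      intro k hk
      rw [← qT_eval hb (Zf_valid (lt_of_mem_Ks hk)) 3]
      rfl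
    rw [Finset.sum_congr rfl this]

theorem cons_le_iff {P : List (RatCode × RatCode)} {v : ℕ → ℝ} (hb : BaseR P v) (m : ℕ)
    (y : List Bool) : (Fm.all ((consL P.length m y).map fun c =>
      Fm.le .zero (qT P.length 3 c))).Holds v ↔
      ∀ k < (consL P.length m y).length,
        0 ≤ qR P.length (vert P) (rho P) (XP 3 v) (Zf P.length m y k) := by
  simp only [holds_all, List.mem_map, forall_exists_index, and_imp, forall_apply_eq_imp_iff₂]
  constructor
  · intro h k hk
    have hm : Zf P.length m y k ∈ consL P.length m y := by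
      unfold Zf
      rw [List.getD_eq_getElem _ _ hk]
      exact List.getElem_mem hk
    have := h _ hm
    rwa [holds_le, eval_zero, qT_eval hb (Zf_valid hk) 3] at this
  · intro h c hc
    obtain ⟨k, hk, rfl⟩ := List.getElem_of_mem hc
    have := h k hk
    have e : Zf P.length m y k = (consL P.length m y)[k] := by
      unfold Zf
      rw [List.getD_eq_getElem _ _ hk]
    rw [holds_le, eval_zero, ← e, qT_eval hb (Zf_valid hk) 3]
    exact this

theorem cons_lt_iff {P : List (RatCode × RatCode)} {v : ℕ → ℝ} (hb : BaseR P v) (m : ℕ)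
    (y : List Bool) : (Fm.any ((consL P.length m y).map fun c =>
      Fm.lt (qT P.length 3 c) .zero)).Holds v ↔
      ∃ k < (consL P.length m y).length,
        qR P.length (vert P) (rho P) (XP 3 v) (Zf P.length m y k) < 0 := by
  simp only [holds_any, List.mem_map, exists_exists_and_eq_and]
  constructor
  · rintro ⟨c, hc, h⟩
    obtain ⟨k, hk, rfl⟩ := List.getElem_of_mem hc
    have e : Zf P.length m y k = (consL P.length m y)[k] := by
      unfold Zf
      rw [List.getD_eq_getElem _ _ hk]
    refine ⟨k, hk, ?_⟩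
    rwa [holds_lt, eval_zero, ← e, qT_eval hb (Zf_valid hk) 3] at h
  · rintro ⟨k, hk, h⟩
    have hm : Zf P.length m y k ∈ consL P.length m y := by
      unfold Zf
      rw [List.getD_eq_getElem _ _ hk]
      exact List.getElem_mem hk
    refine ⟨_, hm, ?_⟩
    rw [holds_lt, eval_zero, qT_eval hb (Zf_valid hk) 3]
    exact h

end Pool.Agent.Helper94.UR
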