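import Pool.Agent.Helper94.UR.Real
import Pool.Agent.Helper97.UDP.Tangent

/-!
# The two sides of a polygon
-/

set_option autoImplicit false

namespace Pool.Agent.Helper94.UR

open Pool.Agent.Helper20.Flip Pool.Agent.Helper97.UDP

/-- the point with the parameter `t` of the edge `i` -/
def ept {n : ℕ} (V : ZMod n → Pt) (i : ZMod n) (t : ℝ) : Pt := V i + t • (V (i + 1) - V i)

/-- the left normal of the edge `i` -/
def nrm {n : ℕ} (V : ZMod n → Pt) (i : ZMod n) : Pt :=
  (-((V (i + 1)).2 - (V i).2), (V (i + 1)).1 - (V i).1)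

/-- The points which can be reached from an inner point of an edge along a segment which leaves
the edge to the left (`s = 1`) or to the right (`s = -1`) and does not meet the curve again. -/
def sideSet {n : ℕ} (V : ZMod n → Pt) (s : ℝ) : Set Pt :=
  {p | ∃ (i : ZMod n) (t : ℝ), 0 < t ∧ t < 1 ∧ 0 < s * cross (V i) (V (i + 1)) p ∧
    ∀ τ : ℝ, 0 < τ → τ ≤ 1 → ept V i t + τ • (p - ept V i t) ∉ curve V}

end Pool.Agent.Helper94.UR
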