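import Pool.Agent.Helper94.UR.SideDefs

/-!
# Points on one side of one edge
-/

set_option autoImplicit false

namespace Pool.Agent.Helper94.UR

open Pool.Agent.Helper20.Flip Pool.Agent.Helper97.UDP Topology

variable {n : ℕ} {V : ZMod n → Pt}

private theorem ept_mem (V : ZMod n → Pt) (i : ZMod n) {t : ℝ} (ht : 0 ≤ t) (ht' : t ≤ 1) :
    ept V i t ∈ segment ℝ (V i) (V (i + 1)) := by
  refine ⟨1 - t, t, by linarith, ht, by ring, ?_⟩
  unfold ept
  rw [smul_sub, sub_smul, one_smul]
  abel

/-- an inner point of an edge is not on another edge -/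
theorem ept_notMem (hV : IsSimple V) {i j : ZMod n} (hij : i ≠ j) {t : ℝ} (ht : 0 < t)
    (ht' : t < 1) : ept V i t ∉ segment ℝ (V j) (V (j + 1)) := by
  intro h
  have hne : V (i + 1) - V i ≠ 0 := by
    rw [sub_ne_zero]
    exact (hV.2.1 i).symm
  rcases hV.2.2 i j hij _ (ept_mem V i ht.le ht'.le) h with ⟨h1, h2⟩ | ⟨-, h2⟩
  · rw [h1] at h2
    have h3 : (1 - t) • (V (i + 1) - V i) = 0 := by
      have h4 : V i + t • (V (i + 1) - V i) = V (i + 1) := h2
      rw [sub_smul, one_smul, sub_eq_zero, sub_eq_iff_eq_add']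
      exact h4.symm
    rcases smul_eq_zero.1 h3 with h4 | h4
    · linarith
    · exact hne h4
  · have h3 : t • (V (i + 1) - V i) = 0 := by
      have h4 : V i + t • (V (i + 1) - V i) = V i := h2
      exact add_eq_left.1 h4
    rcases smul_eq_zero.1 h3 with h4 | h4
    · linarith
    · exact hne h4

/-- the union of the other edges -/
private def others (V : ZMod n → Pt) (i : ZMod n) : Set Pt :=
  ⋃ j : {j : ZMod n // j ≠ i}, segment ℝ (V j) (V (j + 1))

private theorem isCompact_seg (a b : Pt) : IsCompact (segment ℝ a b) := by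
  rw [← convexHull_pair]
  have h2 : ({a, b} : Set Pt).Finite := Set.toFinite _
  exact h2.isCompact_convexHull (𝕜 := ℝ)

private theorem isClosed_others [NeZero n] (V : ZMod n → Pt) (i : ZMod n) :
    IsClosed (others V i) :=
  isClosed_iUnion_of_finite fun _ => (isCompact_seg _ _).isClosed

private theorem notMem_curve {i : ZMod n} {p : Pt} (h1 : p ∉ others V i)
    (h2 : cross (V i) (V (i + 1)) p ≠ 0) : p ∉ curve V := by
  rintro ⟨j, hj⟩
  by_cases hji : j = i
  · subst hji
    exact h2 (edgeFun_eq_zero hj)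
  · exact h1 (Set.mem_iUnion.2 ⟨⟨j, hji⟩, hj⟩)

private theorem ept_notMem_others (hV : IsSimple V) (i : ZMod n) {t : ℝ} (ht : 0 < t)
    (ht' : t < 1) : ept V i t ∉ others V i := by
  intro h
  obtain ⟨⟨j, hj⟩, h⟩ := Set.mem_iUnion.1 h
  exact ept_notMem hV (Ne.symm hj) ht ht' h

/-- Near an inner point of an edge: the half disks. -/
theorem exists_halfball (hV : IsSimple V) (i : ZMod n) {t : ℝ} (ht : 0 < t) (ht' : t < 1) :
    ∃ r > 0, ∀ p ∈ Metric.ball (ept V i t) r, cross (V i) (V (i + 1)) p ≠ 0 → p ∉ curve V := by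
  have : NeZero n := ⟨by have := hV.1; omega⟩
  obtain ⟨r, hr, h⟩ := Metric.isOpen_iff.1 (isClosed_others V i).isOpen_compl _
    (ept_notMem_others hV i ht ht')
  exact ⟨r, hr, fun p hp hc => notMem_curve (h hp) hc⟩

private theorem cross_ept (V : ZMod n → Pt) (i : ZMod n) (t τ : ℝ) (u : Pt) :
    cross (V i) (V (i + 1)) (ept V i t + τ • u) = τ * cross (V i) (V (i + 1)) (V i + u) := by
  unfold cross ept
  simp only [Prod.fst_add, Prod.snd_add, Prod.smul_fst, Prod.smul_snd, smul_eq_mul,
    Prod.fst_sub, Prod.snd_sub]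
  ring

/-- The points of an edge can be left in every direction which is not parallel to the edge. -/
theorem eventually_side (hV : IsSimple V) (i : ZMod n) {t : ℝ} (ht : 0 < t) (ht' : t < 1)
    {s : ℝ} {u : Pt} (hu : 0 < s * cross (V i) (V (i + 1)) (V i + u)) :
    ∀ᶠ τ : ℝ in 𝓝[>] 0, ept V i t + τ • u ∈ sideSet V s := by
  obtain ⟨r, hr, h⟩ := exists_halfball hV i ht ht'
  have hc : cross (V i) (V (i + 1)) (V i + u) ≠ 0 := by
    intro h0
    rw [h0, mul_zero] at hu
    exact lt_irrefl _ hu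
  rw [eventually_nhdsWithin_iff, Metric.eventually_nhds_iff]
  refine ⟨r / (‖u‖ + 1), by positivity, fun τ hτ hτ0 => ?_⟩
  have hτ0 : 0 < τ := hτ0
  rw [Real.dist_eq, sub_zero, abs_of_pos hτ0] at hτ
  have hτr : τ * ‖u‖ < r := by
    rw [lt_div_iff₀ (by positivity)] at hτ
    nlinarith [norm_nonneg u]
  refine ⟨i, t, ht, ht', ?_, fun τ' h1 h2 => ?_⟩
  · rw [cross_ept]
    have : s * (τ * cross (V i) (V (i + 1)) (V i + u)) =
        τ * (s * cross (V i) (V (i + 1)) (V i + u)) := by ring
    rw [this]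
    exact mul_pos hτ0 hu
  · have h3 : ept V i t + τ' • (ept V i t + τ • u - ept V i t) = ept V i t + (τ' * τ) • u := by
      rw [add_sub_cancel_left, smul_smul]
    rw [h3]
    apply h
    · rw [Metric.mem_ball, dist_eq_norm, add_sub_cancel_left, norm_smul, Real.norm_eq_abs,
        abs_of_pos (mul_pos h1 hτ0)]
      calc τ' * τ * ‖u‖ ≤ 1 * τ * ‖u‖ := by gcongr
        _ = τ * ‖u‖ := by ring
        _ < r := hτr
    · rw [cross_ept]
      exact mul_ne_zero (mul_pos h1 hτ0).ne' hc

/-- The points on one side of the same edge are in the same component. -/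
theorem same_edge (hV : IsSimple V) (i : ZMod n) {s : ℝ} (hs : s = 1 ∨ s = -1) {t t' : ℝ}
    (ht : 0 < t) (ht' : t < 1) (hu : 0 < t') (hu' : t' < 1) {p p' : Pt}
    (hp : 0 < s * cross (V i) (V (i + 1)) p)
    (hpc : ∀ τ : ℝ, 0 < τ → τ ≤ 1 → ept V i t + τ • (p - ept V i t) ∉ curve V)
    (hp' : 0 < s * cross (V i) (V (i + 1)) p')
    (hpc' : ∀ τ : ℝ, 0 < τ → τ ≤ 1 → ept V i t' + τ • (p' - ept V i t') ∉ curve V) :
    p' ∈ connectedComponentIn (curve V)ᶜ p := by
  have : NeZero n := ⟨by have := hV.1; omega⟩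
  have hseg : segment ℝ (ept V i t) (ept V i t') ⊆ (others V i)ᶜ := by
    rintro x ⟨a, b, ha, hb, hab, rfl⟩
    have h1 : a • ept V i t + b • ept V i t' = ept V i (a * t + b * t') := by
      unfold ept
      have h2 : a • (V i + t • (V (i + 1) - V i)) + b • (V i + t' • (V (i + 1) - V i)) =
          (a + b) • V i + (a * t + b * t') • (V (i + 1) - V i) := by
        rw [smul_add, smul_add, smul_smul, smul_smul, add_smul, add_smul]
        abel
      rw [h2, hab, one_smul]
    rw [h1]
    apply ept_notMem_others hV i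
    · rcases eq_or_lt_of_le ha with h | h
      · have : b = 1 := by linarith
        rw [← h, this]; linarith
      · nlinarith
    · rcases eq_or_lt_of_le ha with h | h
      · have : b = 1 := by linarith
        rw [← h, this]; linarith
      · nlinarith
  obtain ⟨δ, hδ, hthick⟩ := (isCompact_seg (ept V i t) (ept V i t')).exists_thickening_subset_open
    (isClosed_others V i).isOpen_compl hseg
  -- the convex strip
  set W : Set Pt := Metric.thickening δ (segment ℝ (ept V i t) (ept V i t')) ∩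
    {q | 0 < s * cross (V i) (V (i + 1)) q} with hW
  have hhalf : Convex ℝ {q : Pt | 0 < s * cross (V i) (V (i + 1)) q} := by
    intro x hx y hy a b ha hb hab
    have hx : 0 < s * cross (V i) (V (i + 1)) x := hx
    have hy : 0 < s * cross (V i) (V (i + 1)) y := hy
    show 0 < s * cross (V i) (V (i + 1)) (a • x + b • y)
    have h1 : s * cross (V i) (V (i + 1)) (a • x + b • y) =
        a * (s * cross (V i) (V (i + 1)) x) + b * (s * cross (V i) (V (i + 1)) y) := by
      have hb' : b = 1 - a := by linarith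
      subst hb'
      unfold cross
      simp only [Prod.fst_add, Prod.snd_add, Prod.smul_fst, Prod.smul_snd, smul_eq_mul]
      ring
    rw [h1]
    rcases eq_or_lt_of_le ha with h | h
    · have : b = 1 := by linarith
      rw [← h, this]; linarith
    · have := mul_pos h hx
      have := mul_nonneg hb hy.le
      linarith
  have hWconv : Convex ℝ W := ((convex_segment _ _).thickening δ).inter hhalf
  have hWsub : W ⊆ (curve V)ᶜ := by
    rintro q ⟨hq1, hq2⟩
    refine notMem_curve (hthick hq1) ?_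
    intro h0
    have hq2 : 0 < s * cross (V i) (V (i + 1)) q := hq2
    rw [h0, mul_zero] at hq2
    exact lt_irrefl _ hq2
  -- the segment from an inner point of the edge
  have key : ∀ {x : ℝ} {q : Pt}, ept V i x ∈ segment ℝ (ept V i t) (ept V i t') →
      0 < s * cross (V i) (V (i + 1)) q →
      (∀ τ : ℝ, 0 < τ → τ ≤ 1 → ept V i x + τ • (q - ept V i x) ∉ curve V) →
      ∃ z ∈ W, ∃ S : Set Pt, IsPreconnected S ∧ S ⊆ (curve V)ᶜ ∧ q ∈ S ∧ z ∈ S := by
    intro x q hx hq hqc
    have hτ0 : 0 < min 1 (δ / (2 * (‖q - ept V i x‖ + 1))) := by positivity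
    obtain ⟨τ, hτ⟩ : ∃ τ, τ = min 1 (δ / (2 * (‖q - ept V i x‖ + 1))) := ⟨_, rfl⟩
    rw [← hτ] at hτ0
    have hτ1 : τ ≤ 1 := by rw [hτ]; exact min_le_left _ _
    have hτ2 : τ * ‖q - ept V i x‖ < δ := by
      have h1 : τ ≤ δ / (2 * (‖q - ept V i x‖ + 1)) := by rw [hτ]; exact min_le_right _ _
      rw [le_div_iff₀ (by positivity)] at h1
      nlinarith [norm_nonneg (q - ept V i x)]
    refine ⟨ept V i x + τ • (q - ept V i x), ⟨?_, ?_⟩,
      (fun τ : ℝ => ept V i x + τ • (q - ept V i x)) '' Set.Ioc 0 1, ?_, ?_, ?_, ?_⟩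
    · rw [Metric.mem_thickening_iff]
      refine ⟨ept V i x, hx, ?_⟩
      rw [dist_eq_norm, add_sub_cancel_left, norm_smul, Real.norm_eq_abs, abs_of_pos hτ0]
      exact hτ2
    · show 0 < s * cross (V i) (V (i + 1)) (ept V i x + τ • (q - ept V i x))
      rw [cross_ept]
      have h1 : cross (V i) (V (i + 1)) (V i + (q - ept V i x)) =
          cross (V i) (V (i + 1)) q := by
        unfold cross ept
        simp only [Prod.fst_add, Prod.snd_add, Prod.smul_fst, Prod.smul_snd, smul_eq_mul,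
          Prod.fst_sub, Prod.snd_sub]
        ring
      rw [h1]
      have : s * (τ * cross (V i) (V (i + 1)) q) = τ * (s * cross (V i) (V (i + 1)) q) := by ring
      rw [this]
      exact mul_pos hτ0 hq
    · apply isPreconnected_Ioc.image
      fun_prop
    · rintro _ ⟨τ', ⟨h1, h2⟩, rfl⟩
      exact hqc τ' h1 h2
    · exact ⟨1, ⟨zero_lt_one, le_rfl⟩, by simp⟩
    · exact ⟨τ, ⟨hτ0, hτ1⟩, rfl⟩
  obtain ⟨z, hz, S, hS, hSc, hpS, hzS⟩ := key (left_mem_segment ℝ _ _) hp hpc
  obtain ⟨z', hz', S', hS', hSc', hpS', hzS'⟩ := key (right_mem_segment ℝ _ _) hp' hpc'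
  have h1 : IsPreconnected (S ∪ W) := hS.union z hzS hz hWconv.isPreconnected
  have h2 : IsPreconnected (S ∪ W ∪ S') := h1.union z' (Or.inr hz') hzS' hS'
  exact h2.subset_connectedComponentIn (Or.inl (Or.inl hpS))
    (Set.union_subset (Set.union_subset hSc hWsub) hSc') (Or.inr hpS')

end Pool.Agent.Helper94.UR
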