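import Pool.Agent.Helper94.UR.Sides1

/-!
# The sides of consecutive edges
-/

set_option autoImplicit false

namespace Pool.Agent.Helper94.UR

open Pool.Agent.Helper20.Flip Pool.Agent.Helper97.UDP Topology

variable {n : ℕ} {V : ZMod n → Pt}

/-- the determinant of two vectors -/
private def crd2 (d w : Pt) : ℝ := d.1 * w.2 - d.2 * w.1

private theorem cross_left (a v w : Pt) : cross a v (v + w) = crd2 (v - a) w := by
  simp only [cross, crd2, Prod.fst_add, Prod.snd_add, Prod.fst_sub, Prod.snd_sub]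
  ring

private theorem cross_right (v b w : Pt) : cross v b (v + w) = crd2 (b - v) w := by
  simp only [cross, crd2, Prod.fst_add, Prod.snd_add, Prod.fst_sub, Prod.snd_sub]
  ring

private theorem cross_comb (A B x y : Pt) {α β : ℝ} (h : α + β = 1) :
    cross A B (α • x + β • y) = α * cross A B x + β * cross A B y := by
  obtain rfl : β = 1 - α := by linarith
  simp only [cross, Prod.fst_add, Prod.snd_add, Prod.smul_fst, Prod.smul_snd, smul_eq_mul]
  ring

private theorem cross_seg {A B q : Pt} (h : q ∈ segment ℝ A B) : cross A B q = 0 := by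
  obtain ⟨α, β, -, -, hab, rfl⟩ := h
  rw [cross_comb _ _ _ _ hab]
  simp only [cross]
  ring

private theorem one_add_ne (hn : 3 ≤ n) (i : ZMod n) : i ≠ i + 1 := by
  intro h
  have h1 : (1 : ZMod n) = 0 := by
    have := congrArg (fun x => x - i) h
    simpa using this.symm
  have h2 : ((1 : ℕ) : ZMod n) = 0 := by simpa using h1
  rw [ZMod.natCast_eq_zero_iff] at h2
  have := Nat.le_of_dvd (by norm_num) h2
  omega

private theorem two_add_ne (hn : 3 ≤ n) (i : ZMod n) : i ≠ i + 1 + 1 := by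
  intro h
  have h1 : (1 + 1 : ZMod n) = 0 := by
    have := congrArg (fun x => x - i) h
    rw [add_assoc] at this
    simpa using this.symm
  have h2 : ((2 : ℕ) : ZMod n) = 0 := by
    push_cast
    rw [← h1]
    norm_num
  rw [ZMod.natCast_eq_zero_iff] at h2
  have := Nat.le_of_dvd (by norm_num) h2
  omega

private theorem exists_ball (hV : IsSimple V) (i : ZMod n) :
    ∃ r > 0, ∀ q ∈ Metric.ball (V (i + 1)) r, q ∈ curve V →
      q ∈ segment ℝ (V i) (V (i + 1)) ∨ q ∈ segment ℝ (V (i + 1)) (V (i + 1 + 1)) := by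
  have : NeZero n := ⟨by have := hV.1; omega⟩
  set K : Set Pt := ⋃ j : {j : ZMod n // j ≠ i ∧ j ≠ i + 1}, segment ℝ (V j) (V (j + 1)) with hK
  have h1 : IsClosed K := by
    refine isClosed_iUnion_of_finite fun j => ?_
    rw [← convexHull_pair]
    have h2 : ({V j, V (j + 1)} : Set Pt).Finite := Set.toFinite _
    exact (h2.isCompact_convexHull (𝕜 := ℝ)).isClosed
  have h2 : V (i + 1) ∈ Kᶜ := by
    intro h
    obtain ⟨⟨j, hj⟩, hjm⟩ := Set.mem_iUnion.1 h
    rcases hV.2.2 i j (Ne.symm hj.1) (V (i + 1)) (right_mem_segment ℝ _ _) hjm with h3 | h3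
    · exact hj.2 h3.1
    · exact hV.2.1 i h3.2.symm
  obtain ⟨r, hr, hsub⟩ := Metric.isOpen_iff.1 h1.isOpen_compl _ h2
  refine ⟨r, hr, fun q hq hqc => ?_⟩
  obtain ⟨j, hj⟩ := hqc
  by_cases h3 : j = i
  · subst h3
    exact Or.inl hj
  by_cases h4 : j = i + 1
  · subst h4
    exact Or.inr hj
  exact absurd (Set.mem_iUnion.2 ⟨⟨j, h3, h4⟩, hj⟩) (hsub hq)

private theorem mem_seg {A B : Pt} {θ : ℝ} (h0 : 0 ≤ θ) (h1 : θ ≤ 1) :
    A + θ • (B - A) ∈ segment ℝ A B := by
  refine ⟨1 - θ, θ, by linarith, h0, by ring, ?_⟩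
  ext <;> simp only [Prod.fst_add, Prod.snd_add, Prod.smul_fst, Prod.smul_snd, smul_eq_mul,
    Prod.fst_sub, Prod.snd_sub] <;> ring

/-- the edges are not folded back -/
private theorem not_folded (hV : IsSimple V) (i : ZMod n)
    (h0 : crd2 (V (i + 1) - V i) (V (i + 1 + 1) - V (i + 1)) = 0) :
    ∃ l : ℝ, 0 < l ∧ V (i + 1 + 1) - V (i + 1) = l • (V (i + 1) - V i) := by
  have hd1 : V (i + 1) - V i ≠ 0 := sub_ne_zero.2 (Ne.symm (hV.2.1 i))
  have hd2 : V (i + 1 + 1) - V (i + 1) ≠ 0 := sub_ne_zero.2 (Ne.symm (hV.2.1 (i + 1)))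
  set d := V (i + 1) - V i with hd
  set f := V (i + 1 + 1) - V (i + 1) with hf
  have hq : 0 < d.1 ^ 2 + d.2 ^ 2 := by
    by_contra hcon
    have h1 : d.1 = 0 := by nlinarith [sq_nonneg d.1, sq_nonneg d.2]
    have h2 : d.2 = 0 := by nlinarith [sq_nonneg d.1, sq_nonneg d.2]
    exact hd1 (Prod.ext h1 h2)
  have hl : f = ((d.1 * f.1 + d.2 * f.2) / (d.1 ^ 2 + d.2 ^ 2)) • d := by
    simp only [crd2] at h0
    have hq' : d.1 ^ 2 + d.2 ^ 2 ≠ 0 := hq.ne'
    ext
    · simp only [Prod.smul_fst, smul_eq_mul]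
      field_simp
      linear_combination (-d.2) * h0
    · simp only [Prod.smul_snd, smul_eq_mul]
      field_simp
      linear_combination (d.1) * h0
  set l := (d.1 * f.1 + d.2 * f.2) / (d.1 ^ 2 + d.2 ^ 2) with hldef
  refine ⟨l, ?_, hl⟩
  by_contra hcon
  have hl0 : l ≠ 0 := by
    intro h
    rw [h, zero_smul] at hl
    exact hd2 hl
  have hneg : l < 0 := lt_of_le_of_ne (not_lt.1 hcon) hl0
  have hpos : 0 < 1 - l := by linarith
  set θ : ℝ := 1 / (1 - l) with hθ
  have hθ0 : 0 < θ := by positivity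
  have hθ1 : θ ≤ 1 := by
    rw [hθ, div_le_one hpos]
    linarith
  have hθl : θ * (1 - l) = 1 := by
    rw [hθ]
    field_simp
  have hx1 : V (i + 1) + θ • f ∈ segment ℝ (V (i + 1)) (V (i + 1 + 1)) := by
    rw [hf]
    exact mem_seg hθ0.le hθ1
  have hx2 : V (i + 1) + θ • f ∈ segment ℝ (V i) (V (i + 1)) := by
    have h3 : V (i + 1) + θ • f = V i + (1 + θ * l) • (V (i + 1) - V i) := by
      rw [hl, ← hd, add_smul, one_smul, mul_smul, hd]
      abel
    rw [h3]
    refine mem_seg (by nlinarith) ?_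
    have : θ * l < 0 := mul_neg_of_pos_of_neg hθ0 hneg
    linarith
  rcases hV.2.2 i (i + 1) (one_add_ne hV.1 i) _ hx2 hx1 with h | h
  · have h4 : θ • f = 0 := by
      have := h.2
      simpa using this
    rcases smul_eq_zero.1 h4 with h5 | h5
    · exact hθ0.ne' h5
    · exact hd2 h5
  · exact two_add_ne hV.1 i h.1

private theorem mem_ball_of {v w : Pt} {r : ℝ} (h : ‖w‖ < r) : v + w ∈ Metric.ball v r := by
  rw [mem_ball_iff_norm]
  simpa using h

private theorem exists_eps {M r : ℝ} (hM : 0 < M) (hr : 0 < r) :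
    ∃ ε : ℝ, 0 < ε ∧ ε < 1 ∧ ε * M < r := by
  refine ⟨min (1 / 2) (r / (2 * M)), by positivity, ?_, ?_⟩
  · exact (min_le_left _ _).trans_lt (by norm_num)
  · calc min (1 / 2) (r / (2 * M)) * M ≤ r / (2 * M) * M :=
          mul_le_mul_of_nonneg_right (min_le_right _ _) hM.le
      _ = r / 2 := by
        field_simp
      _ < r := by linarith

private theorem crd2_smul_add (d x y : Pt) (ε σ : ℝ) :
    crd2 d (ε • x + σ • y) = ε * crd2 d x + σ * crd2 d y := by
  simp only [crd2, Prod.fst_add, Prod.snd_add, Prod.smul_fst, Prod.smul_snd, smul_eq_mul]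
  ring

private theorem crd2_self (d : Pt) : crd2 d d = 0 := by
  simp only [crd2]
  ring

private theorem crd2_neg (d x : Pt) : crd2 d (-x) = -crd2 d x := by
  simp only [crd2, Prod.fst_neg, Prod.snd_neg]
  ring

private theorem crd2_comm (d x : Pt) : crd2 x d = -crd2 d x := by
  simp only [crd2]
  ring

private theorem convex_side (A B v : Pt) (r s : ℝ) :
    Convex ℝ {q | q ∈ Metric.ball v r ∧ 0 < s * cross A B q} := by
  intro x hx y hy α β hα hβ hab
  refine ⟨convex_ball v r hx.1 hy.1 hα hβ hab, ?_⟩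
  rw [cross_comb _ _ _ _ hab]
  have h1 := hx.2
  have h2 := hy.2
  rcases hα.eq_or_lt with h | h
  · have hβ1 : β = 1 := by linarith
    rw [← h, hβ1]
    linarith
  · have h3 : 0 < α * (s * cross A B x) := mul_pos h h1
    have h4 : 0 ≤ β * (s * cross A B y) := mul_nonneg hβ h2.le
    linarith

/-- There are points on the same side of two consecutive edges in the same component. -/
theorem exists_turn (hV : IsSimple V) (i : ZMod n) {s : ℝ} (hs : s = 1 ∨ s = -1) :
    ∃ (t t' : ℝ) (p p' : Pt), 0 < t ∧ t < 1 ∧ 0 < t' ∧ t' < 1 ∧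
      0 < s * cross (V i) (V (i + 1)) p ∧
      (∀ τ : ℝ, 0 < τ → τ ≤ 1 → ept V i t + τ • (p - ept V i t) ∉ curve V) ∧
      0 < s * cross (V (i + 1)) (V (i + 1 + 1)) p' ∧
      (∀ τ : ℝ, 0 < τ → τ ≤ 1 →
        ept V (i + 1) t' + τ • (p' - ept V (i + 1) t') ∉ curve V) ∧
      p' ∈ connectedComponentIn (curve V)ᶜ p := by
  obtain ⟨r, hr, hball⟩ := exists_ball hV i
  set d := V (i + 1) - V i with hd
  set f := V (i + 1 + 1) - V (i + 1) with hf
  set v := V (i + 1) with hv
  have ept1 : ∀ ε : ℝ, ept V i (1 - ε) = v + ε • (-d) := by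
    intro ε
    unfold ept
    rw [← hv, hd]
    ext <;> simp only [Prod.fst_add, Prod.snd_add, Prod.smul_fst, Prod.smul_snd, smul_eq_mul,
      Prod.fst_sub, Prod.snd_sub, Prod.fst_neg, Prod.snd_neg] <;> ring
  have ept2 : ∀ ε : ℝ, ept V (i + 1) ε = v + ε • f := fun ε => rfl
  have move : ∀ (x u : Pt) (ε τ : ℝ),
      (v + ε • x) + τ • ((v + (ε • x + ε • u)) - (v + ε • x)) = v + (ε • x + (τ * ε) • u) := by
    intro x u ε τ
    rw [mul_smul]
    have : v + (ε • x + ε • u) - (v + ε • x) = ε • u := by abel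
    rw [this]
    abel
  -- an auxiliary vector
  rcases lt_or_ge 0 (s * crd2 d f) with hpos | hneg
  · -- convex corner
    set M : ℝ := ‖-d‖ + ‖f‖ + 1 with hM
    have hM0 : 0 < M := by positivity
    obtain ⟨ε, hε0, hε1, hεM⟩ := exists_eps hM0 hr
    have key : ∀ x y : ℝ, 0 < x → x ≤ ε → 0 < y → y ≤ ε → v + (x • (-d) + y • f) ∉ curve V := by
      intro x y hx hxε hy hyε hc
      have hb : v + (x • (-d) + y • f) ∈ Metric.ball v r := by
        refine mem_ball_of (lt_of_le_of_lt ?_ hεM)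
        calc ‖x • (-d) + y • f‖ ≤ ‖x • (-d)‖ + ‖y • f‖ := norm_add_le _ _
          _ = x * ‖-d‖ + y * ‖f‖ := by
            rw [norm_smul, norm_smul, Real.norm_of_nonneg hx.le, Real.norm_of_nonneg hy.le]
          _ ≤ ε * ‖-d‖ + ε * ‖f‖ := add_le_add
            (mul_le_mul_of_nonneg_right hxε (norm_nonneg _))
            (mul_le_mul_of_nonneg_right hyε (norm_nonneg _))
          _ ≤ ε * M := by
            rw [hM]
            nlinarith
      rcases hball _ hb hc with h | h
      · have h1 := cross_seg h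
        rw [cross_left, crd2_smul_add, ← hd, crd2_neg, crd2_self] at h1
        have h2 : y * (s * crd2 d f) = 0 := by linear_combination s * h1
        exact (mul_pos hy hpos).ne' h2
      · have h1 := cross_seg h
        rw [cross_right, crd2_smul_add, ← hf, crd2_neg, crd2_self, crd2_comm] at h1
        have h2 : x * (s * crd2 d f) = 0 := by linear_combination s * h1
        exact (mul_pos hx hpos).ne' h2
    refine ⟨1 - ε, ε, v + (ε • (-d) + ε • f), v + (ε • (-d) + ε • f), by linarith, by linarith,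
      hε0, hε1, ?_, ?_, ?_, ?_, ?_⟩
    · rw [cross_left, crd2_smul_add, ← hd, crd2_neg, crd2_self]
      have := mul_pos hε0 hpos
      linarith
    · intro τ hτ hτ1
      rw [ept1, move]
      exact key _ _ hε0 le_rfl (mul_pos hτ hε0) (by nlinarith)
    · rw [cross_right, crd2_smul_add, ← hf, crd2_neg, crd2_self, crd2_comm]
      have := mul_pos hε0 hpos
      linarith
    · intro τ hτ hτ1
      rw [ept2, add_comm (ε • (-d)) (ε • f), move, add_comm (ε • f)]
      exact key _ _ (mul_pos hτ hε0) (by nlinarith) hε0 le_rfl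
    · exact mem_connectedComponentIn (key _ _ hε0 le_rfl hε0 le_rfl)
  · -- reflex or straight corner
    obtain ⟨u, hu1, hu2⟩ : ∃ u : Pt, 0 < s * crd2 d u ∧ 0 < s * crd2 f u := by
      rcases hneg.eq_or_lt with h0 | hlt
      · have h1 : crd2 d f = 0 := by
          rcases hs with rfl | rfl <;> linarith
        obtain ⟨l, hl, hfl⟩ := not_folded hV i h1
        rw [← hf, ← hv, ← hd] at hfl
        have hd0 : d ≠ 0 := sub_ne_zero.2 (Ne.symm (hV.2.1 i))
        have hq : 0 < d.1 ^ 2 + d.2 ^ 2 := by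
          by_contra hcon
          have h1 : d.1 = 0 := by nlinarith [sq_nonneg d.1, sq_nonneg d.2]
          have h2 : d.2 = 0 := by nlinarith [sq_nonneg d.1, sq_nonneg d.2]
          exact hd0 (Prod.ext h1 h2)
        have hss : s * s = 1 := by
          rcases hs with rfl | rfl <;> norm_num
        have h3 : s * crd2 d (s * (-d.2), s * d.1) = d.1 ^ 2 + d.2 ^ 2 := by
          simp only [crd2]
          linear_combination (d.1 ^ 2 + d.2 ^ 2) * hss
        refine ⟨(s * (-d.2), s * d.1), by rw [h3]; exact hq, ?_⟩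
        have h4 : s * crd2 f (s * (-d.2), s * d.1) = l * (d.1 ^ 2 + d.2 ^ 2) := by
          rw [← h3, hfl]
          simp only [crd2, Prod.smul_fst, Prod.smul_snd, smul_eq_mul]
          ring
        rw [h4]
        exact mul_pos hl hq
      · refine ⟨d - f, ?_, ?_⟩
        · have h1 : s * crd2 d (d - f) = -(s * crd2 d f) := by
            simp only [crd2, Prod.fst_sub, Prod.snd_sub]
            ring
          rw [h1]
          linarith
        · have h1 : s * crd2 f (d - f) = -(s * crd2 d f) := by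
            simp only [crd2, Prod.fst_sub, Prod.snd_sub]
            ring
          rw [h1]
          linarith
    set M : ℝ := ‖-d‖ + ‖f‖ + ‖u‖ + 1 with hM
    have hM0 : 0 < M := by positivity
    obtain ⟨ε, hε0, hε1, hεM⟩ := exists_eps hM0 hr
    set S1 : Set Pt := {q | q ∈ Metric.ball v r ∧ 0 < s * cross (V i) v q} with hS1
    set S2 : Set Pt := {q | q ∈ Metric.ball v r ∧ 0 < s * cross v (V (i + 1 + 1)) q} with hS2
    have hC1 : S1 ⊆ (curve V)ᶜ := by
      rintro q ⟨hq, hq'⟩ hc
      rcases hball _ hq hc with h | h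
      · rw [cross_seg h] at hq'
        simp at hq'
      · obtain ⟨α, β, hα, hβ, hab, rfl⟩ := h
        rw [cross_comb _ _ _ _ hab] at hq'
        have h1 : cross (V i) v v = 0 := by
          simp only [cross]
          ring
        have h2 : cross (V i) v (V (i + 1 + 1)) = crd2 d f := by
          rw [hd, hf, ← cross_left]
          congr 1
          abel
        rw [h1, h2] at hq'
        have : β * (s * crd2 d f) ≤ 0 := mul_nonpos_of_nonneg_of_nonpos hβ hneg
        linarith
    have hC2 : S2 ⊆ (curve V)ᶜ := by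
      rintro q ⟨hq, hq'⟩ hc
      rcases hball _ hq hc with h | h
      · obtain ⟨α, β, hα, hβ, hab, rfl⟩ := h
        rw [cross_comb _ _ _ _ hab] at hq'
        have h1 : cross v (V (i + 1 + 1)) v = 0 := by
          simp only [cross]
          ring
        have h2 : cross v (V (i + 1 + 1)) (V i) = crd2 d f := by
          simp only [cross, crd2, hd, hf, Prod.fst_sub, Prod.snd_sub]
          ring
        rw [h1, h2] at hq'
        have : α * (s * crd2 d f) ≤ 0 := mul_nonpos_of_nonneg_of_nonpos hα hneg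
        linarith
      · rw [cross_seg h] at hq'
        simp at hq'
    have m1 : ∀ x σ : ℝ, 0 ≤ x → x ≤ ε → 0 < σ → σ ≤ ε → v + (x • (-d) + σ • u) ∈ S1 := by
      intro x σ hx hxε hσ hσε
      refine ⟨mem_ball_of (lt_of_le_of_lt ?_ hεM), ?_⟩
      · calc ‖x • (-d) + σ • u‖ ≤ ‖x • (-d)‖ + ‖σ • u‖ := norm_add_le _ _
          _ = x * ‖-d‖ + σ * ‖u‖ := by
            rw [norm_smul, norm_smul, Real.norm_of_nonneg hx, Real.norm_of_nonneg hσ.le]
          _ ≤ ε * ‖-d‖ + ε * ‖u‖ := add_le_add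
            (mul_le_mul_of_nonneg_right hxε (norm_nonneg _))
            (mul_le_mul_of_nonneg_right hσε (norm_nonneg _))
          _ ≤ ε * M := by
            rw [hM]
            nlinarith [norm_nonneg f, norm_nonneg (-d), norm_nonneg u, mul_nonneg hε0.le (norm_nonneg f)]
      · rw [cross_left, crd2_smul_add, ← hd, crd2_neg, crd2_self]
        have := mul_pos hσ hu1
        linarith
    have m2 : ∀ x σ : ℝ, 0 ≤ x → x ≤ ε → 0 < σ → σ ≤ ε → v + (x • f + σ • u) ∈ S2 := by
      intro x σ hx hxε hσ hσε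
      refine ⟨mem_ball_of (lt_of_le_of_lt ?_ hεM), ?_⟩
      · calc ‖x • f + σ • u‖ ≤ ‖x • f‖ + ‖σ • u‖ := norm_add_le _ _
          _ = x * ‖f‖ + σ * ‖u‖ := by
            rw [norm_smul, norm_smul, Real.norm_of_nonneg hx, Real.norm_of_nonneg hσ.le]
          _ ≤ ε * ‖f‖ + ε * ‖u‖ := add_le_add
            (mul_le_mul_of_nonneg_right hxε (norm_nonneg _))
            (mul_le_mul_of_nonneg_right hσε (norm_nonneg _))
          _ ≤ ε * M := by
            rw [hM]
            nlinarith [norm_nonneg f, norm_nonneg (-d), norm_nonneg u,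
              mul_nonneg hε0.le (norm_nonneg (-d))]
      · rw [cross_right, crd2_smul_add, ← hf, crd2_self]
        have := mul_pos hσ hu2
        linarith
    refine ⟨1 - ε, ε, v + (ε • (-d) + ε • u), v + (ε • f + ε • u), by linarith, by linarith,
      hε0, hε1, (m1 _ _ hε0.le le_rfl hε0 le_rfl).2, ?_, (m2 _ _ hε0.le le_rfl hε0 le_rfl).2,
      ?_, ?_⟩
    · intro τ hτ hτ1
      rw [ept1, move]
      exact hC1 (m1 _ _ hε0.le le_rfl (mul_pos hτ hε0) (by nlinarith))
    · intro τ hτ hτ1
      rw [ept2, move]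
      exact hC2 (m2 _ _ hε0.le le_rfl (mul_pos hτ hε0) (by nlinarith))
    · have hc1 : IsPreconnected S1 := (convex_side _ _ _ _ _).isPreconnected
      have hc2 : IsPreconnected S2 := (convex_side _ _ _ _ _).isPreconnected
      have hq1 : v + ((0 : ℝ) • (-d) + ε • u) ∈ S1 := m1 _ _ le_rfl hε0.le hε0 le_rfl
      have hq2 : v + ((0 : ℝ) • (-d) + ε • u) ∈ S2 := by
        have := m2 0 ε le_rfl hε0.le hε0 le_rfl
        simpa only [zero_smul] using this
      have hU : IsPreconnected (S1 ∪ S2) := IsPreconnected.union _ hq1 hq2 hc1 hc2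
      exact hU.subset_connectedComponentIn (Or.inl (m1 _ _ hε0.le le_rfl hε0 le_rfl))
        (Set.union_subset hC1 hC2) (Or.inr (m2 _ _ hε0.le le_rfl hε0 le_rfl))

end Pool.Agent.Helper94.UR
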