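import Pool.Agent.Helper94.UR.Sides2

/-!
# The sides of a polygon are connected
-/

set_option autoImplicit false

namespace Pool.Agent.Helper94.UR

open Pool.Agent.Helper20.Flip Pool.Agent.Helper97.UDP Topology

variable {n : ℕ} {V : ZMod n → Pt}

private theorem same_side_aux (hV : IsSimple V) {s : ℝ} (hs : s = 1 ∨ s = -1) (i : ZMod n)
    {t : ℝ} (ht : 0 < t) (ht' : t < 1) {p : Pt} (hp : 0 < s * cross (V i) (V (i + 1)) p)
    (hpc : ∀ τ : ℝ, 0 < τ → τ ≤ 1 → ept V i t + τ • (p - ept V i t) ∉ curve V) (m : ℕ) :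
    ∀ (j : ZMod n), j = i + m → ∀ (u : ℝ) (q : Pt), 0 < u → u < 1 →
      0 < s * cross (V j) (V (j + 1)) q →
      (∀ τ : ℝ, 0 < τ → τ ≤ 1 → ept V j u + τ • (q - ept V j u) ∉ curve V) →
      q ∈ connectedComponentIn (curve V)ᶜ p := by
  induction m with
  | zero =>
    intro j hj u q hu hu' hq hqc
    have hji : j = i := by simpa using hj
    subst hji
    exact same_edge hV _ hs ht ht' hu hu' hp hpc hq hqc
  | succ m ih =>
    intro j hj u q hu hu' hq hqc
    obtain ⟨t1, t2, p1, p2, h1, h1', h2, h2', hp1, hpc1, hp2, hpc2, h12⟩ :=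
      exists_turn hV (i + (m : ZMod n)) hs
    have e : i + (m : ZMod n) + 1 = j := by
      rw [hj]
      push_cast
      ring
    rw [e] at hp2 hpc2
    have a1 : p1 ∈ connectedComponentIn (curve V)ᶜ p := ih _ rfl t1 p1 h1 h1' hp1 hpc1
    have a2 : q ∈ connectedComponentIn (curve V)ᶜ p2 :=
      same_edge hV j hs h2 h2' hu hu' hp2 hpc2 hq hqc
    rw [connectedComponentIn_eq a1, connectedComponentIn_eq h12]
    exact a2

/-- All the points on the same side of a simple polygon are in the same component. -/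
theorem same_side (hV : IsSimple V) {s : ℝ} (hs : s = 1 ∨ s = -1) {p q : Pt}
    (hp : p ∈ sideSet V s) (hq : q ∈ sideSet V s) :
    q ∈ connectedComponentIn (curve V)ᶜ p := by
  obtain ⟨i, t, ht, ht', hp1, hpc⟩ := hp
  obtain ⟨j, u, hu, hu', hq1, hqc⟩ := hq
  have hn : 3 ≤ n := hV.1
  have : NeZero n := ⟨by omega⟩
  refine same_side_aux hV hs i ht ht' hp1 hpc (j - i).val j ?_ u q hu hu' hq1 hqc
  rw [ZMod.natCast_zmod_val]
  ring

end Pool.Agent.Helper94.UR
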